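import Mathlib

/-!
Averages of a continuous Banach space valued function on Euclidean space over large balls.
-/

open Set Topology MeasureTheory Metric

namespace Pool.Agent.Helper4_UH

variable {n : ℕ} {F : Type*} [NormedAddCommGroup F] [NormedSpace ℝ F] [CompleteSpace F]

/-- The average of `φ` over the closed ball of radius `T` around `a`. -/
noncomputable def avg (φ : EuclideanSpace ℝ (Fin n) → F) (T : ℝ)
    (a : EuclideanSpace ℝ (Fin n)) : F :=
  (volume.real (closedBall (0 : EuclideanSpace ℝ (Fin n)) T))⁻¹ •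
    ∫ t in closedBall (0 : EuclideanSpace ℝ (Fin n)) T, φ (a + t)

/-- Volume of a closed ball around the origin. -/
lemma volReal_closedBall (x : EuclideanSpace ℝ (Fin n)) (T : ℝ) (hT : 0 ≤ T) :
    volume.real (closedBall x T)
      = T ^ n * volume.real (ball (0 : EuclideanSpace ℝ (Fin n)) 1) := by
  have := Measure.addHaar_closedBall (volume : Measure (EuclideanSpace ℝ (Fin n))) x hT
  rw [finrank_euclideanSpace_fin] at this
  rw [measureReal_def, this, ENNReal.toReal_mul, ENNReal.toReal_ofReal (by positivity),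
    measureReal_def]

lemma volReal_ball_pos : 0 < volume.real (ball (0 : EuclideanSpace ℝ (Fin n)) 1) := by
  rw [measureReal_def]
  exact ENNReal.toReal_pos (measure_ball_pos _ _ one_pos).ne' measure_ball_lt_top.ne

lemma volReal_closedBall_pos {T : ℝ} (hT : 0 < T) :
    0 < volume.real (closedBall (0 : EuclideanSpace ℝ (Fin n)) T) := by
  rw [volReal_closedBall _ _ hT.le]
  exact mul_pos (pow_pos hT n) volReal_ball_pos

omit [CompleteSpace F] in
lemma continuous_avg {φ : EuclideanSpace ℝ (Fin n) → F} (hφ : Continuous φ) (T : ℝ) :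
    Continuous (avg φ T) := by
  have : Continuous (fun a : EuclideanSpace ℝ (Fin n) =>
      ∫ t in closedBall (0 : EuclideanSpace ℝ (Fin n)) T, φ (a + t)) := by
    refine continuous_parametric_integral_of_continuous (f := fun a t => φ (a + t)) ?_
      (isCompact_closedBall _ _)
    exact hφ.comp (continuous_fst.add continuous_snd)
  exact this.const_smul _

omit [CompleteSpace F] in
lemma integrableOn_shift {φ : EuclideanSpace ℝ (Fin n) → F} (hφ : Continuous φ)
    (a c : EuclideanSpace ℝ (Fin n)) (T : ℝ) :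
    IntegrableOn (fun t => φ (a + t)) (closedBall c T) := by
  exact (hφ.comp (continuous_const.add continuous_id)).continuousOn.integrableOn_compact
    (isCompact_closedBall _ _)

lemma avg_sub_le {φ : EuclideanSpace ℝ (Fin n) → F} (hφ : Continuous φ) {T : ℝ} (hT : 0 < T)
    (a : EuclideanSpace ℝ (Fin n)) {M : ℝ} (hM : ∀ t, ‖t‖ ≤ T → ‖φ (a + t) - φ a‖ ≤ M) :
    ‖avg φ T a - φ a‖ ≤ M := by
  have hb := volReal_closedBall_pos (n := n) hT
  have e : avg φ T a - φ a = (volume.real (closedBall (0 : EuclideanSpace ℝ (Fin n)) T))⁻¹ •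
      ∫ t in closedBall (0 : EuclideanSpace ℝ (Fin n)) T, (φ (a + t) - φ a) := by
    rw [integral_sub (integrableOn_shift hφ a 0 T) (integrableOn_const (by
      exact measure_closedBall_lt_top.ne)), smul_sub, setIntegral_const, smul_smul,
      inv_mul_cancel₀ hb.ne', one_smul]
    rfl
  rw [e, norm_smul, norm_inv, Real.norm_eq_abs, abs_of_pos hb]
  have h2 := norm_setIntegral_le_of_norm_le_const (μ := volume)
    (s := closedBall (0 : EuclideanSpace ℝ (Fin n)) T) (f := fun t => φ (a + t) - φ a) (C := M)
    measure_closedBall_lt_top (fun t ht => hM t (mem_closedBall_zero_iff.1 ht))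
  calc _ ≤ (volume.real (closedBall (0 : EuclideanSpace ℝ (Fin n)) T))⁻¹ *
        (M * volume.real (closedBall (0 : EuclideanSpace ℝ (Fin n)) T)) := by gcongr
    _ = M := by field_simp

/-- The shell between two balls. -/
lemma volReal_diff_le (x y : EuclideanSpace ℝ (Fin n)) {T s : ℝ} (hT : 0 ≤ T)
    (hs : ‖x - y‖ ≤ s) :
    volume.real (closedBall x T \ closedBall y T)
      ≤ ((T + s) ^ n - T ^ n) * volume.real (ball (0 : EuclideanSpace ℝ (Fin n)) 1) := by
  have hs0 : 0 ≤ s := (norm_nonneg _).trans hs
  have hsub : closedBall x T \ closedBall y T ⊆ closedBall y (T + s) \ closedBall y T := by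
    refine sdiff_subset_sdiff_left ?_
    intro z hz
    rw [mem_closedBall] at hz ⊢
    calc dist z y ≤ dist z x + dist x y := dist_triangle _ _ _
      _ ≤ T + s := add_le_add hz (by rw [dist_eq_norm]; exact hs)
  have hfin : volume (closedBall y (T + s) \ closedBall y T) ≠ ⊤ :=
    (measure_mono sdiff_subset).trans_lt measure_closedBall_lt_top |>.ne
  calc volume.real (closedBall x T \ closedBall y T)
      ≤ volume.real (closedBall y (T + s) \ closedBall y T) := measureReal_mono hsub hfin
    _ = volume.real (closedBall y (T + s)) - volume.real (closedBall y T) := by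
        refine measureReal_sdiff (closedBall_subset_closedBall (by linarith))
          measurableSet_closedBall ?_
        exact measure_closedBall_lt_top.ne
    _ = ((T + s) ^ n - T ^ n) * volume.real (ball (0 : EuclideanSpace ℝ (Fin n)) 1) := by
        rw [volReal_closedBall _ _ hT, volReal_closedBall _ _ (by linarith)]
        ring

/-- Moving the domain of integration by a vector of norm at most `s`. -/
lemma integral_move {h : EuclideanSpace ℝ (Fin n) → F} (hh : Continuous h) {M : ℝ}
    (hM0 : 0 ≤ M)
    (hM : ∀ x, ‖h x‖ ≤ M) {T s : ℝ} (hT : 0 ≤ T) (a w : EuclideanSpace ℝ (Fin n))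
    (hw : ‖w‖ ≤ s) :
    ‖(∫ t in closedBall (0 : EuclideanSpace ℝ (Fin n)) T, h (a + w + t))
        - ∫ t in closedBall (0 : EuclideanSpace ℝ (Fin n)) T, h (a + t)‖
      ≤ M * (2 * (((T + s) ^ n - T ^ n) *
        volume.real (ball (0 : EuclideanSpace ℝ (Fin n)) 1))) := by
  have e1 : (∫ t in closedBall (0 : EuclideanSpace ℝ (Fin n)) T, h (a + w + t))
      = ∫ t in closedBall w T, h (a + t) := by
    rw [← integral_indicator measurableSet_closedBall,
      ← integral_indicator measurableSet_closedBall,
      ← integral_add_left_eq_self (μ := volume)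
        (fun t => (closedBall w T).indicator (fun t => h (a + t)) t) w]
    congr 1
    ext t
    by_cases ht : t ∈ closedBall (0 : EuclideanSpace ℝ (Fin n)) T
    · have ht' : w + t ∈ closedBall w T := by
        rw [mem_closedBall, dist_eq_norm]
        rw [mem_closedBall_zero_iff] at ht
        simpa using ht
      rw [indicator_of_mem ht, indicator_of_mem ht', add_assoc]
    · have ht' : w + t ∉ closedBall w T := by
        rw [mem_closedBall, dist_eq_norm]
        rw [mem_closedBall_zero_iff] at ht
        simpa using ht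
      rw [indicator_of_notMem ht, indicator_of_notMem ht']
  rw [e1]
  have hint : ∀ c : EuclideanSpace ℝ (Fin n), IntegrableOn (fun t => h (a + t))
      (closedBall c T) := fun c => integrableOn_shift hh a c T
  have e2 : (∫ t in closedBall w T, h (a + t))
        - ∫ t in closedBall (0 : EuclideanSpace ℝ (Fin n)) T, h (a + t)
      = (∫ t in closedBall w T \ closedBall 0 T, h (a + t))
        - ∫ t in closedBall 0 T \ closedBall w T, h (a + t) := by
    have i1 := integral_inter_add_sdiff (μ := volume) (f := fun t => h (a + t))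
      (s := closedBall w T) (t := closedBall 0 T) measurableSet_closedBall (hint w)
    have i2 := integral_inter_add_sdiff (μ := volume) (f := fun t => h (a + t))
      (s := closedBall 0 T) (t := closedBall w T) measurableSet_closedBall (hint 0)
    rw [← i1, ← i2, inter_comm (closedBall 0 T) (closedBall w T)]
    abel
  rw [e2]
  have fin1 : volume (closedBall w T \ closedBall 0 T) < ⊤ :=
    (measure_mono sdiff_subset).trans_lt measure_closedBall_lt_top
  have fin2 : volume (closedBall 0 T \ closedBall w T) < ⊤ :=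
    (measure_mono sdiff_subset).trans_lt measure_closedBall_lt_top
  have b1 := norm_setIntegral_le_of_norm_le_const (f := fun t => h (a + t)) (C := M) fin1
    (fun t _ => hM (a + t))
  have b2 := norm_setIntegral_le_of_norm_le_const (f := fun t => h (a + t)) (C := M) fin2
    (fun t _ => hM (a + t))
  have v1 := volReal_diff_le w 0 hT (s := s) (by simpa using hw)
  have v2 := volReal_diff_le 0 w hT (s := s) (by simpa using hw)
  calc _ ≤ ‖∫ t in closedBall w T \ closedBall 0 T, h (a + t)‖
        + ‖∫ t in closedBall 0 T \ closedBall w T, h (a + t)‖ := norm_sub_le _ _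
    _ ≤ M * volume.real (closedBall w T \ closedBall 0 T)
        + M * volume.real (closedBall 0 T \ closedBall w T) := add_le_add b1 b2
    _ ≤ M * (((T + s) ^ n - T ^ n) * volume.real (ball (0 : EuclideanSpace ℝ (Fin n)) 1))
        + M * (((T + s) ^ n - T ^ n) *
          volume.real (ball (0 : EuclideanSpace ℝ (Fin n)) 1)) := by gcongr
    _ = _ := by ring

/-- The averages move slowly in a direction `v` in which `N` steps together cost little. -/
theorem avg_shift {φ : EuclideanSpace ℝ (Fin n) → F} (hφ : Continuous φ)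
    (v : EuclideanSpace ℝ (Fin n)) {N : ℕ} (hN : 0 < N) {M₁ M₂ : ℝ} (hM₁ : 0 ≤ M₁)
    (h1 : ∀ a, ‖φ (a + v) - φ a‖ ≤ M₁)
    (h2 : ∀ a, ‖φ (a + (N : ℝ) • v) - φ a‖ ≤ N * M₂)
    {T r : ℝ} (hT : 0 < T) (hr : ‖v‖ ≤ r) (a : EuclideanSpace ℝ (Fin n)) :
    ‖avg φ T (a + v) - avg φ T a‖ ≤ M₂ + M₁ * (2 * ((1 + N * r / T) ^ n - 1)) := by
  have hb := volReal_closedBall_pos (n := n) hT
  have hr0 : 0 ≤ r := (norm_nonneg _).trans hr
  have hNr : (0 : ℝ) < N := by exact_mod_cast hN
  set h : EuclideanSpace ℝ (Fin n) → F := fun t => φ (t + v) - φ t with hh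
  have hhc : Continuous h := (hφ.comp (continuous_id.add continuous_const)).sub hφ
  set B := closedBall (0 : EuclideanSpace ℝ (Fin n)) T with hB
  set I : EuclideanSpace ℝ (Fin n) → F := fun x => ∫ t in B, h (x + t) with hI
  set b1 := volume.real (ball (0 : EuclideanSpace ℝ (Fin n)) 1) with hb1
  have hb1p : 0 < b1 := volReal_ball_pos
  have hvolB : volume.real B = T ^ n * b1 := volReal_closedBall _ _ hT.le
  have e0 : avg φ T (a + v) - avg φ T a = (volume.real B)⁻¹ • I a := by
    simp only [avg, hI, hh]
    rw [← smul_sub, ← integral_sub]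
    · congr 2
      ext t
      rw [add_right_comm]
    · exact integrableOn_shift hφ _ _ _
    · exact integrableOn_shift hφ _ _ _
  -- telescoping sum of the shifted integrals
  have e1 : ∑ j ∈ Finset.range N, I (a + (j : ℝ) • v)
      = ∫ t in B, (φ (a + t + (N : ℝ) • v) - φ (a + t)) := by
    simp only [hI]
    rw [← integral_finsetSum]
    · congr 1
      ext t
      have : ∀ j : ℕ, h (a + (j : ℝ) • v + t)
          = φ (a + t + ((j + 1 : ℕ) : ℝ) • v) - φ (a + t + (j : ℝ) • v) := by
        intro j
        simp only [hh]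
        congr 2
        · push_cast
          rw [add_smul, one_smul]; abel
        · abel
      simp_rw [this]
      rw [Finset.sum_range_sub (fun j : ℕ => φ (a + t + (j : ℝ) • v))]
      simp
    · intro j _
      exact integrableOn_shift hhc _ _ _
  have b2 : ‖∑ j ∈ Finset.range N, I (a + (j : ℝ) • v)‖ ≤ (N * M₂) * volume.real B := by
    rw [e1]
    exact norm_setIntegral_le_of_norm_le_const measure_closedBall_lt_top
      (fun t _ => h2 (a + t))
  have b3 : ∀ j ∈ Finset.range N, ‖I (a + (j : ℝ) • v) - I a‖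
      ≤ M₁ * (2 * (((T + N * r) ^ n - T ^ n) * b1)) := by
    intro j hj
    have hjN : (j : ℝ) ≤ N := by exact_mod_cast (Finset.mem_range.1 hj).le
    refine integral_move hhc hM₁ (fun x => h1 x) hT.le a ((j : ℝ) • v) ?_
    rw [norm_smul, Real.norm_eq_abs, abs_of_nonneg (Nat.cast_nonneg j)]
    exact mul_le_mul hjN hr (norm_nonneg _) hNr.le
  have e4 : (N : ℝ) • I a = ∑ j ∈ Finset.range N, I (a + (j : ℝ) • v)
      - ∑ j ∈ Finset.range N, (I (a + (j : ℝ) • v) - I a) := by
    rw [Finset.sum_sub_distrib, Finset.sum_const, Finset.card_range, ← Nat.cast_smul_eq_nsmul ℝ]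
    abel
  have b5 : N * ‖I a‖ ≤ N * (M₂ * (T ^ n * b1)
      + M₁ * (2 * (((T + N * r) ^ n - T ^ n) * b1))) := by
    calc N * ‖I a‖ = ‖(N : ℝ) • I a‖ := by
          rw [norm_smul, Real.norm_eq_abs, abs_of_pos hNr]
      _ ≤ ‖∑ j ∈ Finset.range N, I (a + (j : ℝ) • v)‖
          + ‖∑ j ∈ Finset.range N, (I (a + (j : ℝ) • v) - I a)‖ := by
          rw [e4]; exact norm_sub_le _ _
      _ ≤ (N * M₂) * volume.real B
          + ∑ j ∈ Finset.range N, M₁ * (2 * (((T + N * r) ^ n - T ^ n) * b1)) :=
          add_le_add b2 ((norm_sum_le _ _).trans (Finset.sum_le_sum b3))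
      _ = N * (M₂ * (T ^ n * b1) + M₁ * (2 * (((T + N * r) ^ n - T ^ n) * b1))) := by
          rw [Finset.sum_const, Finset.card_range, nsmul_eq_mul, hvolB]; ring
  have b6 : ‖I a‖ ≤ M₂ * (T ^ n * b1) + M₁ * (2 * (((T + N * r) ^ n - T ^ n) * b1)) :=
    le_of_mul_le_mul_left b5 hNr
  rw [e0, norm_smul, norm_inv, Real.norm_eq_abs, abs_of_pos hb, hvolB]
  have hTn : 0 < T ^ n := pow_pos hT n
  have e7 : (T + N * r) ^ n = T ^ n * (1 + N * r / T) ^ n := by
    rw [← mul_pow]; congr 1; field_simp
  calc (T ^ n * b1)⁻¹ * ‖I a‖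
      ≤ (T ^ n * b1)⁻¹ * (M₂ * (T ^ n * b1)
        + M₁ * (2 * (((T + N * r) ^ n - T ^ n) * b1))) := by
        gcongr
    _ = M₂ + M₁ * (2 * ((1 + N * r / T) ^ n - 1)) := by
        rw [e7]; field_simp

end Pool.Agent.Helper4_UH
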