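import Mathlib

/-!
Averaging a Banach space valued function in finitely many directions.
-/

open Set Topology MeasureTheory

namespace Pool.Agent.Helper4_UH

variable {G F : Type*} [AddCommGroup G] [Module ℝ G] [TopologicalSpace G]
  [IsTopologicalAddGroup G] [ContinuousSMul ℝ G] [FirstCountableTopology G]
  [NormedAddCommGroup F] [NormedSpace ℝ F]

/-- The average of `ψ` over the segment from `a` to `a + e`. -/
noncomputable def avgDir (e : G) (ψ : G → F) (a : G) : F := ∫ t in (0 : ℝ)..1, ψ (a + t • e)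

lemma continuous_line {ψ : G → F} (hψ : Continuous ψ) (a e : G) :
    Continuous (fun t : ℝ => ψ (a + t • e)) :=
  hψ.comp (continuous_const.add (continuous_id.smul continuous_const))

lemma continuous_avgDir {ψ : G → F} (hψ : Continuous ψ) (e : G) :
    Continuous (avgDir e ψ) := by
  unfold avgDir
  refine intervalIntegral.continuous_parametric_intervalIntegral_of_continuous'
    (f := fun (a : G) (t : ℝ) => ψ (a + t • e)) ?_ 0 1
  exact hψ.comp (continuous_fst.add (continuous_snd.smul continuous_const))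

lemma intInt_line {ψ : G → F} (hψ : Continuous ψ) (a e : G) (x y : ℝ) :
    IntervalIntegrable (fun t : ℝ => ψ (a + t • e)) volume x y :=
  (continuous_line hψ a e).intervalIntegrable x y

lemma avgDir_inc {ψ : G → F} (hψ : Continuous ψ) (e v : G) {K : ℝ}
    (h : ∀ a, ‖ψ (a + v) - ψ a‖ ≤ K) (a : G) :
    ‖avgDir e ψ (a + v) - avgDir e ψ a‖ ≤ K := by
  unfold avgDir
  rw [← intervalIntegral.integral_sub (intInt_line hψ _ _ _ _) (intInt_line hψ _ _ _ _)]
  have := intervalIntegral.norm_integral_le_of_norm_le_const (a := (0 : ℝ)) (b := 1)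
    (f := fun t : ℝ => ψ (a + v + t • e) - ψ (a + t • e)) (C := K) (fun t _ => by
      have := h (a + t • e)
      rwa [add_right_comm] at this)
  simpa using this

lemma avgDir_disp [CompleteSpace F] {ψ : G → F} (hψ : Continuous ψ) (e : G) {K : ℝ}
    (h : ∀ a, ∀ t ∈ Icc (0 : ℝ) 1, ‖ψ (a + t • e) - ψ a‖ ≤ K) (a : G) :
    ‖avgDir e ψ a - ψ a‖ ≤ K := by
  have e1 : avgDir e ψ a - ψ a = ∫ t in (0 : ℝ)..1, (ψ (a + t • e) - ψ a) := by
    rw [intervalIntegral.integral_sub (intInt_line hψ _ _ _ _) (by simp)]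
    simp [avgDir]
  rw [e1]
  have := intervalIntegral.norm_integral_le_of_norm_le_const (a := (0 : ℝ)) (b := 1)
    (f := fun t : ℝ => ψ (a + t • e) - ψ a) (C := K) (fun t ht => by
      rw [uIoc_of_le zero_le_one] at ht
      exact h a t ⟨ht.1.le, ht.2⟩)
  simpa using this

lemma avgDir_lip {ψ : G → F} (hψ : Continuous ψ) (e : G) {K : ℝ}
    (h : ∀ a, ‖ψ (a + e) - ψ a‖ ≤ K) {s : ℝ} (hs : s ∈ Icc (0 : ℝ) 1) (a : G) :
    ‖avgDir e ψ (a + s • e) - avgDir e ψ a‖ ≤ s * K := by
  have i := intInt_line hψ a e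
  have e1 : avgDir e ψ (a + s • e) = ∫ t in s..(1 + s), ψ (a + t • e) := by
    unfold avgDir
    have := intervalIntegral.integral_comp_add_right (a := (0 : ℝ)) (b := 1)
      (fun t : ℝ => ψ (a + t • e)) s
    rw [zero_add] at this
    rw [← this]
    refine intervalIntegral.integral_congr fun t _ => ?_
    show ψ (a + s • e + t • e) = ψ (a + (t + s) • e)
    congr 1
    rw [add_smul]; abel
  have e2 : avgDir e ψ (a + s • e) - avgDir e ψ a
      = ∫ t in (0 : ℝ)..s, (ψ (a + t • e + e) - ψ (a + t • e)) := by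
    have h1 := intervalIntegral.integral_add_adjacent_intervals (i 0 s) (i s 1)
    have h2 := intervalIntegral.integral_add_adjacent_intervals (i s 1) (i 1 (1 + s))
    have h3 := intervalIntegral.integral_comp_add_right (a := (0 : ℝ)) (b := s)
      (fun t : ℝ => ψ (a + t • e)) 1
    have h4 : ∫ t in (0 : ℝ)..s, ψ (a + t • e + e) = ∫ t in (1 : ℝ)..(1 + s), ψ (a + t • e) := by
      rw [zero_add, add_comm s 1] at h3
      rw [← h3]
      refine intervalIntegral.integral_congr fun t _ => ?_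
      show ψ (a + t • e + e) = ψ (a + (t + 1) • e)
      congr 1
      rw [add_smul, one_smul]; abel
    rw [intervalIntegral.integral_sub, h4, e1, ← h2]
    · unfold avgDir
      rw [← h1]
      abel
    · have := intInt_line (ψ := fun x => ψ (x + e)) (hψ.comp (continuous_id.add
        continuous_const)) a e 0 s
      exact this
    · exact i 0 s
  rw [e2]
  have := intervalIntegral.norm_integral_le_of_norm_le_const (a := (0 : ℝ)) (b := s)
    (f := fun t : ℝ => ψ (a + t • e + e) - ψ (a + t • e)) (C := K) (fun t _ => h (a + t • e))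
  rw [sub_zero, abs_of_nonneg hs.1, mul_comm] at this
  exact this

/-- A continuous function which is coarsely Lipschitz in finitely many directions is at bounded
distance from one which is Lipschitz in these directions. -/
theorem exists_smooth [CompleteSpace F] {φ : G → F} (hφ : Continuous φ) {ι : Type*}
    (e : ι → G) (S : Finset ι) {K : ℝ}
    (hK : ∀ i ∈ S, ∀ a, ∀ t ∈ Icc (0 : ℝ) 1, ‖φ (a + t • e i) - φ a‖ ≤ K) :
    ∃ ψ : G → F, Continuous ψ ∧ (∀ i ∈ S, ∀ a, ∀ s ∈ Icc (0 : ℝ) 1,
        ‖ψ (a + s • e i) - ψ a‖ ≤ s * K) ∧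
      (∀ a, ‖ψ a - φ a‖ ≤ S.card * K) ∧
      (∀ (v : G) (K' : ℝ), (∀ a, ‖φ (a + v) - φ a‖ ≤ K') → ∀ a, ‖ψ (a + v) - ψ a‖ ≤ K') := by
  classical
  induction S using Finset.induction_on with
  | empty => exact ⟨φ, hφ, by simp, by simp, fun v K' h => h⟩
  | insert i S hi ih =>
    obtain ⟨ψ, hψ, h1, h2, h3⟩ := ih (fun j hj => hK j (Finset.mem_insert_of_mem hj))
    have hi' : ∀ t ∈ Icc (0 : ℝ) 1, ∀ a, ‖ψ (a + t • e i) - ψ a‖ ≤ K := fun t ht =>
      h3 (t • e i) K (fun a => hK i (Finset.mem_insert_self _ _) a t ht)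
    refine ⟨avgDir (e i) ψ, continuous_avgDir hψ _, ?_, ?_, ?_⟩
    · intro j hj a s hs
      rcases Finset.mem_insert.1 hj with rfl | hj
      · refine avgDir_lip hψ _ (fun a => ?_) hs a
        have := hi' 1 ⟨zero_le_one, le_rfl⟩ a
        rwa [one_smul] at this
      · exact avgDir_inc hψ _ _ (fun a => h1 j hj a s hs) a
    · intro a
      rw [Finset.card_insert_of_notMem hi]
      have hd := avgDir_disp hψ (e i) (fun a t ht => hi' t ht a) a
      calc ‖avgDir (e i) ψ a - φ a‖ = ‖(avgDir (e i) ψ a - ψ a) + (ψ a - φ a)‖ := by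
            congr 1; abel
        _ ≤ K + S.card * K := (norm_add_le _ _).trans (add_le_add hd (h2 a))
        _ = ((S.card + 1 : ℕ) : ℝ) * K := by push_cast; ring
    · intro v K' h a
      exact avgDir_inc hψ _ _ (h3 v K' h) a

/-- Lipschitz in each direction implies Lipschitz for the `ℓ_1`-norm of the coefficients. -/
lemma lip_sum {ψ : G → F} {ι : Type*} (e : ι → G) (S : Finset ι) {K : ℝ} (v : ι → ℝ)
    (hv : ∀ i ∈ S, |v i| ≤ 1)
    (h : ∀ i ∈ S, ∀ a, ∀ s ∈ Icc (0 : ℝ) 1, ‖ψ (a + s • e i) - ψ a‖ ≤ s * K) (a : G) :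
    ‖ψ (a + ∑ i ∈ S, v i • e i) - ψ a‖ ≤ (∑ i ∈ S, |v i|) * K := by
  classical
  induction S using Finset.induction_on generalizing a with
  | empty => simp
  | insert i S hi ih =>
    have h1 := ih (fun j hj => hv j (Finset.mem_insert_of_mem hj))
      (fun j hj => h j (Finset.mem_insert_of_mem hj)) (a + v i • e i)
    have h2 : ‖ψ (a + v i • e i) - ψ a‖ ≤ |v i| * K := by
      have hvi := hv i (Finset.mem_insert_self _ _)
      rcases le_total 0 (v i) with h0 | h0
      · rw [abs_of_nonneg h0] at hvi ⊢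
        exact h i (Finset.mem_insert_self _ _) a (v i) ⟨h0, hvi⟩
      · rw [abs_of_nonpos h0] at hvi ⊢
        have := h i (Finset.mem_insert_self _ _) (a + v i • e i) (-v i) ⟨by linarith, hvi⟩
        have e3 : a + v i • e i + (-v i) • e i = a := by
          rw [neg_smul]; abel
        rw [e3, norm_sub_rev] at this
        exact this
    rw [Finset.sum_insert hi, Finset.sum_insert hi, ← add_assoc]
    calc ‖ψ (a + v i • e i + ∑ j ∈ S, v j • e j) - ψ a‖
        = ‖(ψ (a + v i • e i + ∑ j ∈ S, v j • e j) - ψ (a + v i • e i))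
          + (ψ (a + v i • e i) - ψ a)‖ := by congr 1; abel
      _ ≤ (∑ j ∈ S, |v j|) * K + |v i| * K := (norm_add_le _ _).trans (add_le_add h1 h2)
      _ = (|v i| + ∑ j ∈ S, |v j|) * K := by ring

end Pool.Agent.Helper4_UH
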