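import Mathlib

/-!
Coarse estimates for uniformly continuous maps between a real topological vector space
and a normed space.
-/

open Set Topology Bornology Uniformity
open scoped Pointwise

namespace Pool.Agent.Helper4_UH

variable {E F : Type*} [AddCommGroup E] [Module ℝ E] [UniformSpace E] [IsUniformAddGroup E]
  [ContinuousSMul ℝ E] [NormedAddCommGroup F] [NormedSpace ℝ F]

/-- Telescoping: `N` equal steps, each moving the value by at most `c`. -/
lemma norm_telescope {G : Type*} [AddCommGroup G] [Module ℝ G] (f : G → F) (c : ℝ) (x w : G)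
    (h : ∀ y : G, ‖f (y + w) - f y‖ ≤ c) (N : ℕ) :
    ‖f (x + (N : ℝ) • w) - f x‖ ≤ N * c := by
  induction N with
  | zero => simp
  | succ N ih =>
    have e : f (x + ((N + 1 : ℕ) : ℝ) • w) - f x
        = (f ((x + (N : ℝ) • w) + w) - f (x + (N : ℝ) • w)) + (f (x + (N : ℝ) • w) - f x) := by
      have : x + ((N + 1 : ℕ) : ℝ) • w = (x + (N : ℝ) • w) + w := by
        push_cast
        rw [add_smul, one_smul, add_assoc]
      rw [this]
      abel
    rw [e]
    calc _ ≤ ‖f ((x + (N : ℝ) • w) + w) - f (x + (N : ℝ) • w)‖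
          + ‖f (x + (N : ℝ) • w) - f x‖ := norm_add_le _ _
      _ ≤ c + N * c := add_le_add (h _) ih
      _ = ((N + 1 : ℕ) : ℝ) * c := by push_cast; ring

/-- A uniformly continuous map into a normed space is coarsely Lipschitz: it moves by a bounded
amount along a bounded set of vectors and along their multiples by numbers in the unit interval. -/
theorem coarse_lipschitz {f : E → F} (hf : UniformContinuous f) {B : Set E}
    (hB : IsVonNBounded ℝ B) :
    ∃ K : ℝ, 0 < K ∧ ∀ x : E, ∀ b ∈ B, ∀ t ∈ Icc (0 : ℝ) 1, ‖f (x + t • b) - f x‖ ≤ K := by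
  have h1 : ∀ᶠ p in 𝓤 E, dist (f p.1) (f p.2) < 1 :=
    hf (Metric.dist_mem_uniformity (zero_lt_one' ℝ))
  rw [uniformity_eq_comap_nhds_zero E, Filter.eventually_comap] at h1
  obtain ⟨W, ⟨hW, hWb⟩, hW1⟩ := (nhds_basis_balanced ℝ E).eventually_iff.1 h1
  obtain ⟨r, hr0, hr⟩ := (hB hW).exists_pos
  obtain ⟨N, hN⟩ := exists_nat_ge (max r 1)
  have hN1 : (1 : ℝ) ≤ N := (le_max_right _ _).trans hN
  have hN0 : (0 : ℝ) < N := by linarith
  refine ⟨N, hN0, fun x b hb t ht => ?_⟩
  have hb' := hr (N : ℝ) (by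
    rw [Real.norm_eq_abs, abs_of_pos hN0]
    exact (le_max_left _ _).trans hN) hb
  obtain ⟨w, hw, rfl⟩ := hb'
  have htw : t • w ∈ W := hWb.smul_mem (by
    rw [Real.norm_eq_abs, abs_of_nonneg ht.1]; exact ht.2) hw
  have hstep : ∀ y : E, ‖f (y + t • w) - f y‖ ≤ 1 := by
    intro y
    have := hW1 htw (y, y + t • w) (by simp)
    rw [dist_comm, dist_eq_norm] at this
    exact this.le
  have := norm_telescope f 1 x (t • w) hstep N
  have e : t • ((N : ℝ) • w) = (N : ℝ) • (t • w) := smul_comm _ _ _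
  show ‖f (x + t • ((N : ℝ) • w)) - f x‖ ≤ N
  rw [e]
  simpa using this

/-- Iterated sums of a bounded set are bounded. -/
lemma isVonNBounded_nsmul {U : Set E} (hU : IsVonNBounded ℝ U) :
    ∀ N : ℕ, ∃ S : Set E, IsVonNBounded ℝ S ∧
      ∀ u : ℕ → E, (∀ i, u i ∈ U) → ∑ i ∈ Finset.range N, u i ∈ S := by
  intro N
  induction N with
  | zero =>
    refine ⟨{0}, isVonNBounded_singleton _, fun u _ => by simp⟩
  | succ N ih =>
    obtain ⟨S, hS, h⟩ := ih
    refine ⟨S + U, hS.add hU, fun u hu => ?_⟩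
    rw [Finset.sum_range_succ]
    exact Set.add_mem_add (h u hu) (hu N)

/-- A uniformly continuous map from a normed space maps pairs at bounded distance to pairs whose
difference is in a fixed multiple of a given neighbourhood of zero which is bounded. -/
theorem coarse_inverse {g : F → E} (hg : UniformContinuous g) {U : Set E} (hU : U ∈ 𝓝 (0 : E))
    (hUb : IsVonNBounded ℝ U) (R : ℝ) :
    ∃ C : ℝ, 0 < C ∧ ∀ y y' : F, ‖y - y'‖ ≤ R → g y - g y' ∈ C • U := by
  have h1 : {p : E × E | p.2 - p.1 ∈ U} ∈ 𝓤 E := by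
    rw [uniformity_eq_comap_nhds_zero E]
    exact Filter.preimage_mem_comap hU
  obtain ⟨δ, hδ, hgδ⟩ := Metric.mem_uniformity_dist.1 (hg h1)
  have hstep : ∀ y y' : F, ‖y - y'‖ < δ → g y - g y' ∈ U := by
    intro y y' h
    have : dist y' y < δ := by rw [dist_comm, dist_eq_norm]; exact h
    exact hgδ this
  obtain ⟨N, hN⟩ := exists_nat_gt (max (R / δ) 1)
  have hN1 : (1 : ℝ) < N := (le_max_right _ _).trans_lt hN
  have hN0 : (0 : ℝ) < N := by linarith
  obtain ⟨S, hS, hSsum⟩ := isVonNBounded_nsmul hUb N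
  obtain ⟨r, hr0, hr⟩ := (hS hU).exists_pos
  refine ⟨r, hr0, fun y y' hyy => ?_⟩
  refine hr r (by rw [Real.norm_eq_abs, abs_of_pos hr0]) ?_
  set z : ℕ → F := fun i => y' + ((i : ℝ) / N) • (y - y') with hz
  have hsum : g y - g y' = ∑ i ∈ Finset.range N, (g (z (i + 1)) - g (z i)) := by
    rw [Finset.sum_range_sub (fun i => g (z i))]
    have e1 : z N = y := by
      simp only [hz]
      rw [div_self hN0.ne', one_smul]; abel
    have e0 : z 0 = y' := by simp [hz]
    rw [e1, e0]
  rw [hsum]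
  refine hSsum (fun i => g (z (i + 1)) - g (z i)) fun i => hstep _ _ ?_
  have : z (i + 1) - z i = ((1 : ℝ) / N) • (y - y') := by
    simp only [hz]
    have : (((i + 1 : ℕ) : ℝ) / N) = (i : ℝ) / N + 1 / N := by push_cast; ring
    rw [this, add_smul]; abel
  rw [this, norm_smul, Real.norm_eq_abs, abs_of_pos (by positivity)]
  have hR : R / δ < N := (le_max_left _ _).trans_lt hN
  rw [div_lt_iff₀ hδ] at hR
  calc 1 / (N : ℝ) * ‖y - y'‖ ≤ 1 / N * R := by gcongr
    _ < 1 / N * (N * δ) := by gcongr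
    _ = δ := by field_simp

end Pool.Agent.Helper4_UH
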