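import Mathlib
import Pool.Agent.Helper4_UH.Brouwer

/-!
A continuous self-map of Euclidean space at bounded distance from the identity, which moves the
points of every translate of `D` by elements of `Q`, forces `volume D ≤ volume Q`.
-/

open Set Topology MeasureTheory Metric
open scoped ENNReal

namespace Pool.Agent.Helper4_UH

variable {n : ℕ}


/-- A continuous self-map of Euclidean space at bounded distance from the identity is onto. -/
theorem surjective_of_bounded_dist (Ψ : EuclideanSpace ℝ (Fin n) → EuclideanSpace ℝ (Fin n))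
    (hΨ : Continuous Ψ) (M : ℝ) (hM : ∀ x, ‖Ψ x - x‖ ≤ M) (y : EuclideanSpace ℝ (Fin n)) :
    ∃ x, Ψ x = y := by
  obtain ⟨x, hx⟩ := Brouwer.brouwer_euclidean n (fun x => y + (x - Ψ x))
    (continuous_const.add (continuous_id.sub hΨ)) (‖y‖ + M) (fun x => by
      refine (norm_add_le _ _).trans ?_
      have := hM x
      rw [norm_sub_rev] at this
      linarith)
  refine ⟨x, ?_⟩
  have h : y + (x - Ψ x) = x := hx
  have : y - Ψ x = 0 := by
    have h2 : y + (x - Ψ x) - x = 0 := by rw [h, sub_self]
    have h3 : y + (x - Ψ x) - x = y - Ψ x := by abel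
    rw [← h3, h2]
  exact (sub_eq_zero.1 this).symm

/-- The volume inequality on a bounded region. -/
theorem volume_le_region (Ψ : EuclideanSpace ℝ (Fin n) → EuclideanSpace ℝ (Fin n))
    (hΨ : Continuous Ψ) (M : ℝ) (hM : ∀ x, ‖Ψ x - x‖ ≤ M) (D Q : Set (EuclideanSpace ℝ (Fin n)))
    (r : ℝ) (hD : ∀ v ∈ D, ‖v‖ ≤ r)
    (hQ : ∀ a, ∀ v ∈ D, Ψ (a + v) - Ψ a ∈ Q) (L : ℝ) :
    volume (closedBall (0 : EuclideanSpace ℝ (Fin n)) L) * volume D
      ≤ volume (closedBall (0 : EuclideanSpace ℝ (Fin n)) (L + M + r)) * volume Q := by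
  set Q' := toMeasurable volume Q with hQ'
  have hQ'm : MeasurableSet Q' := measurableSet_toMeasurable _ _
  have hQ'v : volume Q' = volume Q := measure_toMeasurable _
  set S : Set (EuclideanSpace ℝ (Fin n) × EuclideanSpace ℝ (Fin n)) :=
    {p | p.1 ∈ closedBall (0 : EuclideanSpace ℝ (Fin n)) (L + M + r) ∧ p.2 - Ψ p.1 ∈ Q'} with hS
  have hSm : MeasurableSet S := by
    refine (measurableSet_closedBall.preimage measurable_fst).inter ?_
    exact hQ'm.preimage (measurable_snd.sub (hΨ.measurable.comp measurable_fst))
  have hup : (volume.prod volume) S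
      ≤ volume (closedBall (0 : EuclideanSpace ℝ (Fin n)) (L + M + r)) * volume Q := by
    rw [Measure.prod_apply hSm]
    calc ∫⁻ a, volume (Prod.mk a ⁻¹' S)
        ≤ ∫⁻ a, (closedBall (0 : EuclideanSpace ℝ (Fin n)) (L + M + r)).indicator
            (fun _ => volume Q) a := by
          refine lintegral_mono fun a => ?_
          by_cases ha : a ∈ closedBall (0 : EuclideanSpace ℝ (Fin n)) (L + M + r)
          · rw [indicator_of_mem ha]
            have : Prod.mk a ⁻¹' S ⊆ (fun y => y + (-Ψ a)) ⁻¹' Q' := by
              intro y hy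
              simpa [sub_eq_add_neg] using hy.2
            refine (measure_mono this).trans ?_
            rw [measure_preimage_add_right, hQ'v]
          · have : Prod.mk a ⁻¹' S = ∅ := by
              ext y
              simp only [mem_preimage, mem_empty_iff_false, iff_false]
              intro hy
              exact ha hy.1
            rw [this]
            simp
      _ = volume (closedBall (0 : EuclideanSpace ℝ (Fin n)) (L + M + r)) * volume Q := by
          rw [lintegral_indicator measurableSet_closedBall, lintegral_const,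
            Measure.restrict_apply MeasurableSet.univ, univ_inter, mul_comm]
  have hlow : volume (closedBall (0 : EuclideanSpace ℝ (Fin n)) L) * volume D
      ≤ (volume.prod volume) S := by
    rw [Measure.prod_apply_symm hSm]
    calc volume (closedBall (0 : EuclideanSpace ℝ (Fin n)) L) * volume D
        = ∫⁻ y, (closedBall (0 : EuclideanSpace ℝ (Fin n)) L).indicator
            (fun _ => volume D) y := by
          rw [lintegral_indicator measurableSet_closedBall, lintegral_const,
            Measure.restrict_apply MeasurableSet.univ, univ_inter, mul_comm]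
      _ ≤ ∫⁻ y, volume ((fun x => (x, y)) ⁻¹' S) := by
          refine lintegral_mono fun y => ?_
          by_cases hy : y ∈ closedBall (0 : EuclideanSpace ℝ (Fin n)) L
          · rw [indicator_of_mem hy]
            obtain ⟨a₀, ha₀⟩ := surjective_of_bounded_dist Ψ hΨ M hM y
            have hsub : (fun v => a₀ - v) ⁻¹' ((fun x => (x, y)) ⁻¹' S) ⊇ D := by
              intro v hv
              have h1 := hQ (a₀ - v) v hv
              rw [sub_add_cancel, ha₀] at h1
              refine ⟨?_, subset_toMeasurable _ _ h1⟩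
              rw [mem_closedBall_zero_iff] at hy ⊢
              have h2 : ‖a₀‖ ≤ L + M := by
                have := hM a₀
                rw [ha₀] at this
                calc ‖a₀‖ = ‖y - (y - a₀)‖ := by congr 1; abel
                  _ ≤ ‖y‖ + ‖y - a₀‖ := norm_sub_le _ _
                  _ ≤ L + M := add_le_add hy this
              calc ‖a₀ - v‖ ≤ ‖a₀‖ + ‖v‖ := norm_sub_le _ _
                _ ≤ L + M + r := add_le_add h2 (hD v hv)
            refine (measure_mono hsub).trans ?_
            have hmp : MeasurePreserving (fun v : EuclideanSpace ℝ (Fin n) => a₀ - v)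
                volume volume := Measure.measurePreserving_sub_left _ a₀
            refine (hmp.measure_preimage ?_).le
            exact ((measurable_id.prodMk measurable_const) hSm).nullMeasurableSet
          · rw [indicator_of_notMem hy]
            exact zero_le
  exact hlow.trans hup

/-- The volume inequality. -/
theorem volume_le (Ψ : EuclideanSpace ℝ (Fin n) → EuclideanSpace ℝ (Fin n))
    (hΨ : Continuous Ψ) (M : ℝ) (hM : ∀ x, ‖Ψ x - x‖ ≤ M) (D Q : Set (EuclideanSpace ℝ (Fin n)))
    (r : ℝ) (hr : 0 ≤ r) (hD : ∀ v ∈ D, ‖v‖ ≤ r)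
    (hQ : ∀ a, ∀ v ∈ D, Ψ (a + v) - Ψ a ∈ Q) :
    volume D ≤ volume Q := by
  have hM0 : 0 ≤ M := (norm_nonneg _).trans (hM 0)
  set b : ℝ≥0∞ := volume (ball (0 : EuclideanSpace ℝ (Fin n)) 1) with hb
  have hb0 : b ≠ 0 := (measure_ball_pos _ _ one_pos).ne'
  have hbt : b ≠ ∞ := measure_ball_lt_top.ne
  have hvol : ∀ ρ : ℝ, 0 ≤ ρ → volume (closedBall (0 : EuclideanSpace ℝ (Fin n)) ρ)
      = ENNReal.ofReal (ρ ^ n) * b := by
    intro ρ hρ
    have := Measure.addHaar_closedBall (volume : Measure (EuclideanSpace ℝ (Fin n))) 0 hρ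
    rw [finrank_euclideanSpace_fin] at this
    exact this
  -- divide by the volume of the ball of radius `L`
  have key : ∀ L : ℝ, 0 < L →
      volume D ≤ ENNReal.ofReal ((1 + (M + r) / L) ^ n) * volume Q := by
    intro L hL
    have h := volume_le_region Ψ hΨ M hM D Q r hD hQ L
    rw [hvol L hL.le, hvol (L + M + r) (by positivity)] at h
    have e : (L + M + r) ^ n = L ^ n * (1 + (M + r) / L) ^ n := by
      rw [← mul_pow]; congr 1; field_simp; ring
    rw [e, ENNReal.ofReal_mul (by positivity)] at h
    have hc0 : ENNReal.ofReal (L ^ n) * b ≠ 0 := by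
      refine mul_ne_zero ?_ hb0
      rw [Ne, ENNReal.ofReal_eq_zero, not_le]; positivity
    have hct : ENNReal.ofReal (L ^ n) * b ≠ ∞ := ENNReal.mul_ne_top ENNReal.ofReal_ne_top hbt
    have h' : (ENNReal.ofReal (L ^ n) * b) * volume D
        ≤ (ENNReal.ofReal (L ^ n) * b) *
          (ENNReal.ofReal ((1 + (M + r) / L) ^ n) * volume Q) := by
      refine h.trans (le_of_eq ?_)
      ring
    exact (ENNReal.mul_le_mul_iff_right hc0 hct).1 h'
  -- let `L` tend to infinity
  have hlim : Filter.Tendsto (fun L : ℝ => ENNReal.ofReal ((1 + (M + r) / L) ^ n) * volume Q)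
      Filter.atTop (𝓝 (ENNReal.ofReal ((1 + 0) ^ n) * volume Q)) := by
    refine ENNReal.Tendsto.mul_const ?_ (Or.inl ?_)
    · refine ENNReal.tendsto_ofReal ?_
      refine Filter.Tendsto.pow ?_ n
      refine tendsto_const_nhds.add ?_
      exact tendsto_const_nhds.div_atTop Filter.tendsto_id
    · simp
  have h1 : volume D ≤ ENNReal.ofReal ((1 + 0) ^ n) * volume Q :=
    ge_of_tendsto hlim ((Filter.eventually_gt_atTop 0).mono fun L hL => key L hL)
  simpa using h1

end Pool.Agent.Helper4_UH
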