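import Mathlib
import Pool.Agent.Helper4_UH.Coarse
import Pool.Agent.Helper4_UH.Volume
import Pool.Agent.Helper4_UH.Average

/-!
The volume obstruction for uniform retracts of Banach spaces.
-/

open Set Topology Bornology MeasureTheory Metric
open scoped Pointwise

namespace Pool.Agent.Helper4_UH

variable {E F : Type*} [AddCommGroup E] [Module ℝ E] [UniformSpace E] [IsUniformAddGroup E]
  [ContinuousSMul ℝ E] [NormedAddCommGroup F] [NormedSpace ℝ F]

omit [UniformSpace E] [IsUniformAddGroup E] [ContinuousSMul ℝ E] in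
lemma step_one {f : E → F} {U : Set E} {K : ℝ}
    (hK : ∀ x : E, ∀ u ∈ U, ∀ t ∈ Icc (0 : ℝ) 1, ‖f (x + t • u) - f x‖ ≤ K)
    (x : E) {u : E} (hu : u ∈ U) {c : ℝ} (hc : 0 ≤ c) :
    ‖f (x + c • u) - f x‖ ≤ K * (c + 1) := by
  have h1 := norm_telescope f K x u (fun y => by
    have := hK y u hu 1 ⟨zero_le_one, le_rfl⟩
    rwa [one_smul] at this) ⌊c⌋₊
  have h2 := hK (x + (⌊c⌋₊ : ℝ) • u) u hu (c - ⌊c⌋₊)
    ⟨sub_nonneg.2 (Nat.floor_le hc), by linarith [(Nat.lt_floor_add_one c).le]⟩
  have hK0 : 0 ≤ K := (norm_nonneg _).trans h2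
  have e : x + (⌊c⌋₊ : ℝ) • u + (c - ⌊c⌋₊) • u = x + c • u := by
    rw [add_assoc, ← add_smul]; congr 2; ring
  rw [e] at h2
  calc ‖f (x + c • u) - f x‖
      = ‖(f (x + c • u) - f (x + (⌊c⌋₊ : ℝ) • u)) + (f (x + (⌊c⌋₊ : ℝ) • u) - f x)‖ := by
        congr 1; abel
    _ ≤ K + ⌊c⌋₊ * K := (norm_add_le _ _).trans (add_le_add h2 h1)
    _ ≤ K + c * K := by
        gcongr
        exact Nat.floor_le hc
    _ = K * (c + 1) := by ring

omit [UniformSpace E] [IsUniformAddGroup E] [ContinuousSMul ℝ E] in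
lemma step_many {f : E → F} {U : Set E} {K : ℝ}
    (hK : ∀ x : E, ∀ u ∈ U, ∀ t ∈ Icc (0 : ℝ) 1, ‖f (x + t • u) - f x‖ ≤ K)
    {ι : Type*} (s : Finset ι) (c : ι → ℝ) (z : ι → E) (hc : ∀ i, 0 ≤ c i)
    (hz : ∀ i, z i ∈ U) (x : E) :
    ‖f (x + ∑ i ∈ s, c i • z i) - f x‖ ≤ K * (∑ i ∈ s, c i + s.card) := by
  classical
  induction s using Finset.induction_on generalizing x with
  | empty => simp
  | insert i s hi ih =>
    rw [Finset.sum_insert hi, Finset.sum_insert hi, Finset.card_insert_of_notMem hi]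
    have h1 := step_one hK x (hz i) (hc i)
    have h2 := ih (x + c i • z i)
    rw [add_assoc] at h2
    calc ‖f (x + (c i • z i + ∑ i ∈ s, c i • z i)) - f x‖
        = ‖(f (x + (c i • z i + ∑ i ∈ s, c i • z i)) - f (x + c i • z i))
            + (f (x + c i • z i) - f x)‖ := by congr 1; abel
      _ ≤ K * (∑ i ∈ s, c i + s.card) + K * (c i + 1) :=
          (norm_add_le _ _).trans (add_le_add h2 h1)
      _ = K * (c i + ∑ i ∈ s, c i + ((s.card + 1 : ℕ) : ℝ)) := by push_cast; ring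

/-- Vectors whose image is a convex combination of at most `m` elements of `U`. -/
def convLayer {n : ℕ} (J : EuclideanSpace ℝ (Fin n) → E) (U : Set E) (m : ℕ) :
    Set (EuclideanSpace ℝ (Fin n)) :=
  {v | ∃ (ι : Type) (_ : Fintype ι) (w : ι → ℝ) (z : ι → E), Fintype.card ι ≤ m ∧
    (∀ i, 0 ≤ w i) ∧ ∑ i, w i = 1 ∧ (∀ i, z i ∈ U) ∧ ∑ i, w i • z i = J v}

omit [UniformSpace E] [IsUniformAddGroup E] [ContinuousSMul ℝ E] in
lemma iUnion_convLayer {n : ℕ} (J : EuclideanSpace ℝ (Fin n) → E) (U : Set E) :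
    ⋃ m, convLayer J U m = J ⁻¹' (convexHull ℝ U) := by
  ext v
  simp only [mem_iUnion, mem_preimage, mem_convexHull_iff_exists_fintype, convLayer,
    mem_setOf_eq]
  constructor
  · rintro ⟨m, ι, hι, w, z, -, h⟩
    exact ⟨ι, hι, w, z, h⟩
  · rintro ⟨ι, hι, w, z, h⟩
    exact ⟨Fintype.card ι, ι, hι, w, z, le_rfl, h⟩

omit [UniformSpace E] [IsUniformAddGroup E] [ContinuousSMul ℝ E] in
lemma monotone_convLayer {n : ℕ} (J : EuclideanSpace ℝ (Fin n) → E) (U : Set E) :
    Monotone (convLayer J U) := by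
  intro m m' hm v
  rintro ⟨ι, hι, w, z, hc, h⟩
  exact ⟨ι, hι, w, z, hc.trans hm, h⟩

/-- The volume obstruction: if a topological vector space with a bounded neighbourhood `U` of
zero is a uniform retract of a Banach space, then there is one constant `C` such that, for all
linear maps `J` from a Euclidean space and all uniformly continuous maps `π` back with `π ∘ J`
at bounded distance from the identity, the volume of the preimage of the convex hull of `U` is at
most the volume of the set of all displacements `π (x + C u) - π x`, `u ∈ U`. -/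
theorem volume_obstruction [CompleteSpace F] {f : E → F} {g : F → E}
    (hf : UniformContinuous f) (hg : UniformContinuous g) (hgf : ∀ x, g (f x) = x)
    {U : Set E} (hU : U ∈ 𝓝 (0 : E)) (hUb : IsVonNBounded ℝ U) :
    ∃ C : ℝ, 0 < C ∧ ∀ (n : ℕ) (J : EuclideanSpace ℝ (Fin n) →L[ℝ] E)
      (π : E → EuclideanSpace ℝ (Fin n)), UniformContinuous π →
      ∀ M : ℝ, (∀ v, ‖π (J v) - v‖ ≤ M) →
      volume (J ⁻¹' (convexHull ℝ U))
        ≤ volume {w | ∃ x : E, ∃ u ∈ U, w = π (x + C • u) - π x} := by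
  obtain ⟨K, hK0, hK⟩ := coarse_lipschitz hf hUb
  obtain ⟨C, hC0, hC⟩ := coarse_inverse hg hU hUb (2 * K + 1)
  refine ⟨C, hC0, fun n J π hπ M hM => ?_⟩
  set Q := {w | ∃ x : E, ∃ u ∈ U, w = π (x + C • u) - π x} with hQ
  have hM0 : 0 ≤ M := (norm_nonneg _).trans (hM 0)
  obtain ⟨Kπ, hKπ0, hKπ⟩ := coarse_lipschitz hπ hUb
  -- it is enough to treat each layer
  have key : ∀ m : ℕ, volume (convLayer J U m) ≤ volume Q := by
    intro m
    -- without loss of generality `m` is positive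
    suffices h : ∀ m : ℕ, 0 < m → volume (convLayer J U m) ≤ volume Q by
      exact (measure_mono (monotone_convLayer J U (Nat.le_succ m))).trans (h _ m.succ_pos)
    intro m hm
    have hm' : (0 : ℝ) < m := by exact_mod_cast hm
    -- displacement of `f` along the layer
    have hlay : ∀ v ∈ convLayer J U m, ∀ k : ℝ, 0 ≤ k → ∀ x : E,
        ‖f (x + k • J v) - f x‖ ≤ K * (k + m) := by
      rintro v ⟨ι, hι, w, z, hc, hw, hw1, hz, he⟩ k hk x
      rw [← he, Finset.smul_sum]
      simp_rw [smul_smul]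
      refine (step_many hK Finset.univ (fun i => k * w i) z (fun i => mul_nonneg hk (hw i))
        hz x).trans ?_
      rw [← Finset.mul_sum, hw1, mul_one, Finset.card_univ]
      gcongr
    -- the layer is bounded
    set r : ℝ := M + Kπ * (1 + m) + ‖π 0‖ with hr
    have hr0 : 0 ≤ r := by positivity
    have hbdd : ∀ v ∈ convLayer J U m, ‖v‖ ≤ r := by
      rintro v ⟨ι, hι, w, z, hc, hw, hw1, hz, he⟩
      have h1 := step_many hKπ Finset.univ w z hw hz 0
      rw [he, zero_add, hw1, Finset.card_univ] at h1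
      have h2 : Kπ * (1 + (Fintype.card ι : ℝ)) ≤ Kπ * (1 + m) := by gcongr
      have h3 := hM v
      calc ‖v‖ = ‖(π (J v) - π 0) - (π (J v) - v) + π 0‖ := by congr 1; abel
        _ ≤ ‖(π (J v) - π 0) - (π (J v) - v)‖ + ‖π 0‖ := norm_add_le _ _
        _ ≤ ‖π (J v) - π 0‖ + ‖π (J v) - v‖ + ‖π 0‖ := by
            gcongr; exact norm_sub_le _ _
        _ ≤ r := by rw [hr]; linarith
    -- the averaged map
    set φ : EuclideanSpace ℝ (Fin n) → F := fun a => f (J a) with hφ
    have hφc : Continuous φ := hf.continuous.comp J.continuous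
    have hM1 : ∀ v ∈ convLayer J U m, ∀ a, ‖φ (a + v) - φ a‖ ≤ K * (1 + m) := by
      intro v hv a
      have := hlay v hv 1 zero_le_one (J a)
      rw [one_smul] at this
      simpa [hφ] using this
    have hM2 : ∀ v ∈ convLayer J U m, ∀ a, ‖φ (a + (m : ℝ) • v) - φ a‖ ≤ m * (2 * K) := by
      intro v hv a
      have := hlay v hv m hm'.le (J a)
      have e : K * ((m : ℝ) + m) = m * (2 * K) := by ring
      rw [e] at this
      simpa [hφ] using this
    -- choice of the radius
    obtain ⟨T, hT0, hT⟩ : ∃ T : ℝ, 0 < T ∧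
        (K * (1 + m)) * (2 * ((1 + m * r / T) ^ n - 1)) ≤ 1 := by
      have hlim : Filter.Tendsto
          (fun T : ℝ => (K * (1 + m)) * (2 * ((1 + m * r / T) ^ n - 1))) Filter.atTop
          (𝓝 ((K * (1 + m)) * (2 * ((1 + 0) ^ n - 1)))) := by
        refine Filter.Tendsto.const_mul _ (Filter.Tendsto.const_mul _ ?_)
        refine Filter.Tendsto.sub_const ?_ _
        refine Filter.Tendsto.pow ?_ n
        refine tendsto_const_nhds.add ?_
        exact tendsto_const_nhds.div_atTop Filter.tendsto_id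
      have hval : (K * (1 + m)) * (2 * (((1 : ℝ) + 0) ^ n - 1)) = 0 := by simp
      rw [hval] at hlim
      have h1 := hlim.eventually (eventually_le_nhds (zero_lt_one' ℝ))
      obtain ⟨T, hT1, hT0⟩ := (h1.and (Filter.eventually_gt_atTop 0)).exists
      exact ⟨T, hT0, hT1⟩
    have hinc : ∀ v ∈ convLayer J U m, ∀ a, ‖avg φ T (a + v) - avg φ T a‖ ≤ 2 * K + 1 := by
      intro v hv a
      refine (avg_shift hφc v hm (by positivity) (hM1 v hv) (hM2 v hv) hT0
        (hbdd v hv) a).trans ?_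
      linarith
    -- the self-map of Euclidean space
    set Ψ : EuclideanSpace ℝ (Fin n) → EuclideanSpace ℝ (Fin n) :=
      fun a => π (g (avg φ T a)) with hΨ
    have hΨc : Continuous Ψ :=
      hπ.continuous.comp (hg.continuous.comp (continuous_avg hφc T))
    -- bounded distance from the identity
    have hJb : IsVonNBounded ℝ (J '' closedBall (0 : EuclideanSpace ℝ (Fin n)) T) :=
      (NormedSpace.isVonNBounded_closedBall ℝ _ T).image J
    obtain ⟨KT, hKT0, hKT⟩ := coarse_lipschitz hf hJb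
    obtain ⟨C', hC'0, hC'⟩ := coarse_inverse hg hU hUb KT
    have hdist : ∀ a, ‖Ψ a - a‖ ≤ Kπ * (C' + 1) + M := by
      intro a
      have h1 : ‖avg φ T a - φ a‖ ≤ KT := by
        refine avg_sub_le hφc hT0 a fun t ht => ?_
        have := hKT (J a) (J t) ⟨t, mem_closedBall_zero_iff.2 ht, rfl⟩ 1 ⟨zero_le_one, le_rfl⟩
        rw [one_smul] at this
        simpa [hφ] using this
      obtain ⟨u, hu, hue⟩ := hC' _ _ h1
      have hφa : g (φ a) = J a := hgf (J a)
      have h2 : g (avg φ T a) = J a + C' • u := by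
        have h3 : C' • u = g (avg φ T a) - g (φ a) := hue
        rw [h3, hφa]; abel
      have h3 := step_one hKπ (J a) hu hC'0.le
      rw [← h2] at h3
      calc ‖Ψ a - a‖ = ‖(π (g (avg φ T a)) - π (J a)) + (π (J a) - a)‖ := by
            simp only [hΨ]; congr 1; abel
        _ ≤ Kπ * (C' + 1) + M := (norm_add_le _ _).trans (add_le_add h3 (hM a))
    refine volume_le Ψ hΨc _ hdist (convLayer J U m) Q r hr0 hbdd fun a v hv => ?_
    obtain ⟨u, hu, hue⟩ := hC _ _ (hinc v hv a)
    refine ⟨g (avg φ T a), u, hu, ?_⟩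
    have h3 : C • u = g (avg φ T (a + v)) - g (avg φ T a) := hue
    have h4 : g (avg φ T a) + C • u = g (avg φ T (a + v)) := by rw [h3]; abel
    rw [h4]
  rw [← iUnion_convLayer, (monotone_convLayer J U).measure_iUnion]
  exact iSup_le key

/-- The linear case of the volume obstruction. -/
theorem volume_obstruction_linear [CompleteSpace F] {f : E → F} {g : F → E}
    (hf : UniformContinuous f) (hg : UniformContinuous g) (hgf : ∀ x, g (f x) = x)
    {U : Set E} (hU : U ∈ 𝓝 (0 : E)) (hUb : IsVonNBounded ℝ U) :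
    ∃ C : ℝ, 0 < C ∧ ∀ (n : ℕ) (J : EuclideanSpace ℝ (Fin n) →L[ℝ] E)
      (P : E →L[ℝ] EuclideanSpace ℝ (Fin n)), (∀ v, P (J v) = v) →
      volume (J ⁻¹' (convexHull ℝ U)) ≤ ENNReal.ofReal (C ^ n) * volume (P '' U) := by
  obtain ⟨C, hC0, h⟩ := volume_obstruction hf hg hgf hU hUb
  refine ⟨C, hC0, fun n J P hPJ => ?_⟩
  have h1 := h n J P P.uniformContinuous 0 (fun v => by rw [hPJ v]; simp)
  refine h1.trans ?_
  have e : {w | ∃ x : E, ∃ u ∈ U, w = P (x + C • u) - P x} = C • (P '' U) := by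
    ext w
    constructor
    · rintro ⟨x, u, hu, rfl⟩
      refine ⟨P u, ⟨u, hu, rfl⟩, ?_⟩
      simp
    · rintro ⟨-, ⟨u, hu, rfl⟩, rfl⟩
      exact ⟨0, u, hu, by simp⟩
  rw [e, Measure.addHaar_smul, finrank_euclideanSpace_fin, abs_of_pos (pow_pos hC0 n)]

end Pool.Agent.Helper4_UH
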