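import Mathlib
import Pool.Agent.Helper4_UH.Main

/-!
Volume of the unit ball of `ℓ_p^n`, and the case of uniform `ℓ_p^n`-quotients.
-/

open Set Topology Bornology MeasureTheory Metric
open scoped Pointwise

namespace Pool.Agent.Helper4_UH

lemma integral_exp_neg_mul_abs_rpow {p s : ℝ} (hp : 0 < p) (hs : 0 < s) :
    ∫ t : ℝ, Real.exp (-s * |t| ^ p) = 2 * (s ^ (-1 / p) * Real.Gamma (1 / p + 1)) := by
  have h := integral_comp_abs (f := fun t : ℝ => Real.exp (-s * t ^ p))
  rw [h, integral_exp_neg_mul_rpow hp hs]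

lemma integrable_exp_neg_mul_abs_rpow {p s : ℝ} (hp : 0 < p) (hs : 0 < s) :
    Integrable (fun t : ℝ => Real.exp (-s * |t| ^ p)) := by
  by_contra hni
  have h0 := integral_undef hni
  rw [integral_exp_neg_mul_abs_rpow hp hs] at h0
  have h1 : 0 < 2 * (s ^ (-1 / p) * Real.Gamma (1 / p + 1)) := by
    have : 0 < Real.Gamma (1 / p + 1) := Real.Gamma_pos_of_pos (by positivity)
    have : 0 < s ^ (-1 / p) := Real.rpow_pos_of_pos hs _
    positivity
  linarith

/-- Chernoff bound for the volume of the ball of `ℓ_p^n`. -/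
lemma volReal_lp_ball_le {p c s : ℝ} (hp : 0 < p) (hs : 0 < s) (n : ℕ) :
    volume {x : Fin n → ℝ | ∑ i, |x i| ^ p ≤ c} ≤ ENNReal.ofReal
      (Real.exp (s * c) * (2 * (s ^ (-1 / p) * Real.Gamma (1 / p + 1))) ^ n) := by
  set f : (Fin n → ℝ) → ℝ := fun x => ∏ i, Real.exp (-s * |x i| ^ p) with hf
  have hfint : Integrable f :=
    Integrable.fintype_prod (f := fun _ (t : ℝ) => Real.exp (-s * |t| ^ p))
      (fun _ => integrable_exp_neg_mul_abs_rpow hp hs)
  have hfval : ∫ x, f x = (2 * (s ^ (-1 / p) * Real.Gamma (1 / p + 1))) ^ n := by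
    have := integral_fintype_prod_volume_eq_pow (ι := Fin n)
      (fun t : ℝ => Real.exp (-s * |t| ^ p))
    rw [hf, this, integral_exp_neg_mul_abs_rpow hp hs, Fintype.card_fin]
  have hf0 : ∀ x, 0 ≤ f x := fun x => Finset.prod_nonneg fun i _ => (Real.exp_pos _).le
  have hset : {x : Fin n → ℝ | ∑ i, |x i| ^ p ≤ c} ⊆ {x | Real.exp (-(s * c)) ≤ f x} := by
    intro x hx
    simp only [mem_ofPred_eq] at hx ⊢
    rw [hf]
    simp only
    rw [← Real.exp_sum, Real.exp_le_exp, ← Finset.mul_sum]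
    nlinarith
  have hmark := mul_meas_ge_le_integral_of_nonneg (μ := volume)
    (Filter.Eventually.of_forall hf0) hfint (Real.exp (-(s * c)))
  have hfin : volume {x | Real.exp (-(s * c)) ≤ f x} < ⊤ :=
    hfint.measure_ge_lt_top (Real.exp_pos _)
  refine (measure_mono hset).trans ?_
  rw [← ENNReal.ofReal_toReal hfin.ne]
  refine ENNReal.ofReal_le_ofReal ?_
  rw [hfval] at hmark
  have e : Real.exp (s * c) * Real.exp (-(s * c)) = 1 := by
    rw [← Real.exp_add]; simp
  calc (volume {x | Real.exp (-(s * c)) ≤ f x}).toReal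
      = Real.exp (s * c) * (Real.exp (-(s * c)) *
          volume.real {x | Real.exp (-(s * c)) ≤ f x}) := by
        rw [← mul_assoc, e, one_mul]; rfl
    _ ≤ Real.exp (s * c) * (2 * (s ^ (-1 / p) * Real.Gamma (1 / p + 1))) ^ n := by
        gcongr

/-- The same bound in Euclidean space. -/
lemma volume_lp_ball_le {p c s : ℝ} (hp : 0 < p) (hs : 0 < s) (n : ℕ) :
    volume {x : EuclideanSpace ℝ (Fin n) | ∑ i, |x i| ^ p ≤ c} ≤ ENNReal.ofReal
      (Real.exp (s * c) * (2 * (s ^ (-1 / p) * Real.Gamma (1 / p + 1))) ^ n) := by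
  have hmp := PiLp.volume_preserving_ofLp (Fin n)
  have hms : MeasurableSet {x : Fin n → ℝ | ∑ i, |x i| ^ p ≤ c} := by
    refine measurableSet_le ?_ measurable_const
    refine Finset.measurable_sum _ fun i _ => ?_
    have h1 : Measurable (fun x : Fin n → ℝ => |x i|) :=
      continuous_abs.measurable.comp (measurable_pi_apply i)
    exact h1.pow_const p
  have := hmp.measure_preimage hms.nullMeasurableSet
  have e : {x : EuclideanSpace ℝ (Fin n) | ∑ i, |x i| ^ p ≤ c}
      = (@WithLp.ofLp 2 (Fin n → ℝ)) ⁻¹' {x : Fin n → ℝ | ∑ i, |x i| ^ p ≤ c} := rfl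
  rw [e, this]
  exact volReal_lp_ball_le hp hs n

/-- Lower bound for the volume of a set containing the simplex. -/
lemma volume_simplex_ge {n : ℕ} (hn : 0 < n) {D : Set (EuclideanSpace ℝ (Fin n))}
    (hD : ∀ v : EuclideanSpace ℝ (Fin n), (∀ i, 0 ≤ v i) → ∑ i, v i ≤ 1 → v ∈ D) :
    ENNReal.ofReal ((1 / (n : ℝ)) ^ n) ≤ volume D := by
  have hn' : (0 : ℝ) < n := by exact_mod_cast hn
  have hmp := PiLp.volume_preserving_ofLp (Fin n)
  set B : Set (Fin n → ℝ) := Set.pi univ (fun _ => Icc (0 : ℝ) (1 / n)) with hB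
  have hBm : MeasurableSet B := MeasurableSet.univ_pi fun _ => measurableSet_Icc
  have hvol : volume B = ENNReal.ofReal ((1 / (n : ℝ)) ^ n) := by
    rw [hB, volume_pi_pi, ENNReal.ofReal_pow (by positivity)]
    simp
  have h1 := hmp.measure_preimage hBm.nullMeasurableSet
  rw [← hvol, ← h1]
  refine measure_mono ?_
  intro v hv
  have hv' : ∀ i, v i ∈ Icc (0 : ℝ) (1 / n) := fun i => hv i (mem_univ i)
  refine hD v (fun i => (hv' i).1) ?_
  calc ∑ i, v i ≤ ∑ _i : Fin n, (1 / (n : ℝ)) := Finset.sum_le_sum fun i _ => (hv' i).2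
    _ = 1 := by
      rw [Finset.sum_const, Finset.card_univ, Fintype.card_fin, nsmul_eq_mul]
      field_simp

variable {E F : Type*} [AddCommGroup E] [Module ℝ E] [UniformSpace E] [IsUniformAddGroup E]
  [ContinuousSMul ℝ E] [NormedAddCommGroup F] [NormedSpace ℝ F]

/-- A topological vector space with a bounded neighbourhood of zero which has quotients uniformly
isomorphic to `ℓ_p^n`, for some `p < 1` and arbitrarily large `n`, is not a uniform retract of a
Banach space. -/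
theorem not_retract_of_lp_quotients [CompleteSpace F] {f : E → F} {g : F → E}
    (hf : UniformContinuous f) (hg : UniformContinuous g) (hgf : ∀ x, g (f x) = x)
    {U : Set E} (hU : U ∈ 𝓝 (0 : E)) (hUb : IsVonNBounded ℝ U)
    {p c : ℝ} (hp0 : 0 < p) (hp1 : p < 1)
    (hX : ∀ N : ℕ, ∃ n : ℕ, N ≤ n ∧ ∃ P : E →L[ℝ] EuclideanSpace ℝ (Fin n),
      (∀ i, ∃ x ∈ U, P x = EuclideanSpace.single i (1 : ℝ)) ∧
      ∀ u ∈ U, ∑ i, |P u i| ^ p ≤ c) : False := by
  classical
  obtain ⟨C, hC0, hC⟩ := volume_obstruction_linear hf hg hgf hU hUb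
  set c' : ℝ := max c 1 with hc'
  have hc'0 : 0 < c' := lt_of_lt_of_le one_pos (le_max_right _ _)
  set G : ℝ := Real.Gamma (1 / p + 1) with hG
  have hG0 : 0 < G := Real.Gamma_pos_of_pos (by positivity)
  set A : ℝ := C * (Real.exp 1 * (2 * (c' ^ (1 / p) * G))) with hA
  have hA0 : 0 < A := by
    have : 0 < c' ^ (1 / p) := Real.rpow_pos_of_pos hc'0 _
    positivity
  -- the exponent `1/p - 1` is positive
  have hexp : 0 < 1 / p - 1 := by
    rw [sub_pos, lt_div_iff₀ hp0]; linarith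
  obtain ⟨N₀, hN₀⟩ : ∃ N₀ : ℕ, ∀ n : ℕ, N₀ ≤ n → A < (n : ℝ) ^ (1 / p - 1) := by
    have h1 : Filter.Tendsto (fun n : ℕ => (n : ℝ) ^ (1 / p - 1)) Filter.atTop Filter.atTop :=
      (tendsto_rpow_atTop hexp).comp tendsto_natCast_atTop_atTop
    exact Filter.eventually_atTop.1 (h1.eventually_gt_atTop A)
  obtain ⟨n, hn, P, hPx, hPU⟩ := hX (max N₀ 1)
  have hn1 : 1 ≤ n := (le_max_right _ _).trans hn
  have hnN : N₀ ≤ n := (le_max_left _ _).trans hn
  have hn0 : (0 : ℝ) < n := by exact_mod_cast hn1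
  choose x hxU hxP using hPx
  set J : EuclideanSpace ℝ (Fin n) →L[ℝ] E :=
    ∑ i, (EuclideanSpace.proj (𝕜 := ℝ) i).smulRight (x i) with hJ
  have hJv : ∀ v, J v = ∑ i, v i • x i := by
    intro v
    simp [hJ]
  have hPJ : ∀ v, P (J v) = v := by
    intro v
    rw [hJv, map_sum]
    simp_rw [map_smul, hxP]
    ext j
    simp [Pi.single_apply]
  have h1 := hC n J P hPJ
  -- lower bound
  have hlow : ENNReal.ofReal ((1 / (n : ℝ)) ^ n) ≤ volume (J ⁻¹' (convexHull ℝ U)) := by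
    refine volume_simplex_ge hn1 fun v hv0 hv1 => ?_
    have h0 : (0 : E) ∈ convexHull ℝ U := subset_convexHull ℝ U (mem_of_mem_nhds hU)
    show J v ∈ convexHull ℝ U
    rw [hJv]
    set s := ∑ i, v i with hs
    have hs0 : 0 ≤ s := Finset.sum_nonneg fun i _ => hv0 i
    rcases hs0.eq_or_lt with h | h
    · have hz : ∀ i, v i = 0 := by
        intro i
        have := (Finset.sum_eq_zero_iff_of_nonneg (fun i _ => hv0 i)).1 h.symm i
          (Finset.mem_univ i)
        exact this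
      simp [hz, h0]
    · have e : ∑ i, v i • x i = s • ∑ i, (v i / s) • x i := by
        rw [Finset.smul_sum]
        refine Finset.sum_congr rfl fun i _ => ?_
        rw [smul_smul]; congr 1; field_simp
      rw [e]
      refine (convex_convexHull ℝ U).smul_mem_of_zero_mem h0 ?_ ⟨hs0, hv1⟩
      refine (convex_convexHull ℝ U).sum_mem (fun i _ => div_nonneg (hv0 i) hs0) ?_
        (fun i _ => subset_convexHull ℝ U (hxU i))
      rw [← Finset.sum_div, ← hs, div_self h.ne']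
  -- upper bound
  have hup : volume (P '' U) ≤ ENNReal.ofReal
      (Real.exp ((n / c') * c') * (2 * ((n / c') ^ (-1 / p) * G)) ^ n) := by
    refine (measure_mono ?_).trans (volume_lp_ball_le (c := c') hp0
      (s := n / c') (by positivity) n)
    rintro - ⟨u, hu, rfl⟩
    exact (hPU u hu).trans (le_max_left _ _)
  have h2 : ENNReal.ofReal ((1 / (n : ℝ)) ^ n) ≤ ENNReal.ofReal (C ^ n *
      (Real.exp ((n / c') * c') * (2 * ((n / c') ^ (-1 / p) * G)) ^ n)) := by
    rw [ENNReal.ofReal_mul (by positivity)]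
    exact hlow.trans (h1.trans (by gcongr))
  rw [ENNReal.ofReal_le_ofReal_iff (by positivity)] at h2
  have e1 : Real.exp ((n / c') * c') = (Real.exp 1) ^ n := by
    rw [div_mul_cancel₀ _ hc'0.ne', ← Real.exp_nat_mul, mul_one]
  have e2 : ((n : ℝ) / c') ^ (-1 / p) = (n : ℝ) ^ (-(1 / p)) * c' ^ (1 / p) := by
    rw [neg_div, Real.div_rpow hn0.le hc'0.le, Real.rpow_neg hc'0.le, div_inv_eq_mul]
  have e3 : C ^ n * (Real.exp ((n / c') * c') * (2 * ((n / c') ^ (-1 / p) * G)) ^ n)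
      = (A * (n : ℝ) ^ (-(1 / p))) ^ n := by
    rw [e1, e2, ← mul_pow, ← mul_pow]
    congr 1
    rw [hA]; ring
  rw [e3] at h2
  have h3 : 1 / (n : ℝ) ≤ A * (n : ℝ) ^ (-(1 / p)) :=
    (pow_le_pow_iff_left₀ (by positivity) (by positivity) (by omega)).1 h2
  have h4 : (n : ℝ) ^ (1 / p - 1) ≤ A := by
    have e4 : (n : ℝ) ^ (1 / p - 1) = (1 / (n : ℝ)) * (n : ℝ) ^ (1 / p) := by
      rw [Real.rpow_sub hn0, Real.rpow_one]; ring
    have e5 : (n : ℝ) ^ (-(1 / p)) * (n : ℝ) ^ (1 / p) = 1 := by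
      rw [← Real.rpow_add hn0]; simp
    rw [e4]
    calc (1 / (n : ℝ)) * (n : ℝ) ^ (1 / p)
        ≤ (A * (n : ℝ) ^ (-(1 / p))) * (n : ℝ) ^ (1 / p) := by gcongr
      _ = A := by rw [mul_assoc, e5, mul_one]
  exact absurd h4 (not_le.2 (hN₀ n hnN))

end Pool.Agent.Helper4_UH
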