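import Mathlib
import Pool.Agent.Helper4_UH.Volume
import Pool.Agent.Helper4_UH.EllP

/-!
A local version of the volume inequality, and the volume of the set of vectors with many small
coordinates.
-/

open Set Topology MeasureTheory Metric
open scoped ENNReal Pointwise

namespace Pool.Agent.Helper4_UH

variable {n : ℕ}

/-- The volume inequality between two regions. -/
theorem volume_le_between (Ψ : EuclideanSpace ℝ (Fin n) → EuclideanSpace ℝ (Fin n))
    (hΨ : Continuous Ψ) (D Q A₁ A₂ : Set (EuclideanSpace ℝ (Fin n)))
    (hA₁ : MeasurableSet A₁) (hA₂ : MeasurableSet A₂)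
    (hsurj : ∀ y ∈ A₂, ∃ b, Ψ b = y ∧ ∀ v ∈ D, b - v ∈ A₁)
    (hQ : ∀ a ∈ A₁, ∀ v ∈ D, Ψ (a + v) - Ψ a ∈ Q) :
    volume A₂ * volume D ≤ volume A₁ * volume Q := by
  set Q' := toMeasurable volume Q with hQ'
  have hQ'm : MeasurableSet Q' := measurableSet_toMeasurable _ _
  have hQ'v : volume Q' = volume Q := measure_toMeasurable _
  set S : Set (EuclideanSpace ℝ (Fin n) × EuclideanSpace ℝ (Fin n)) :=
    {p | p.1 ∈ A₁ ∧ p.2 - Ψ p.1 ∈ Q'} with hS
  have hSm : MeasurableSet S := by
    refine (hA₁.preimage measurable_fst).inter ?_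
    exact hQ'm.preimage (measurable_snd.sub (hΨ.measurable.comp measurable_fst))
  have hup : (volume.prod volume) S ≤ volume A₁ * volume Q := by
    rw [Measure.prod_apply hSm]
    calc ∫⁻ a, volume (Prod.mk a ⁻¹' S)
        ≤ ∫⁻ a, A₁.indicator (fun _ => volume Q) a := by
          refine lintegral_mono fun a => ?_
          by_cases ha : a ∈ A₁
          · rw [indicator_of_mem ha]
            have : Prod.mk a ⁻¹' S ⊆ (fun y => y + (-Ψ a)) ⁻¹' Q' := by
              intro y hy
              simpa [sub_eq_add_neg] using hy.2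
            refine (measure_mono this).trans ?_
            rw [measure_preimage_add_right, hQ'v]
          · have : Prod.mk a ⁻¹' S = ∅ := by
              ext y
              simp only [mem_preimage, mem_empty_iff_false, iff_false]
              intro hy
              exact ha hy.1
            rw [this]
            simp
      _ = volume A₁ * volume Q := by
          rw [lintegral_indicator hA₁, lintegral_const,
            Measure.restrict_apply MeasurableSet.univ, univ_inter, mul_comm]
  have hlow : volume A₂ * volume D ≤ (volume.prod volume) S := by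
    rw [Measure.prod_apply_symm hSm]
    calc volume A₂ * volume D
        = ∫⁻ y, A₂.indicator (fun _ => volume D) y := by
          rw [lintegral_indicator hA₂, lintegral_const,
            Measure.restrict_apply MeasurableSet.univ, univ_inter, mul_comm]
      _ ≤ ∫⁻ y, volume ((fun x => (x, y)) ⁻¹' S) := by
          refine lintegral_mono fun y => ?_
          by_cases hy : y ∈ A₂
          · rw [indicator_of_mem hy]
            obtain ⟨a₀, ha₀, hin⟩ := hsurj y hy
            have hsub : (fun v => a₀ - v) ⁻¹' ((fun x => (x, y)) ⁻¹' S) ⊇ D := by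
              intro v hv
              have h1 := hQ (a₀ - v) (hin v hv) v hv
              rw [sub_add_cancel, ha₀] at h1
              exact ⟨hin v hv, subset_toMeasurable _ _ h1⟩
            refine (measure_mono hsub).trans ?_
            have hmp : MeasurePreserving (fun v : EuclideanSpace ℝ (Fin n) => a₀ - v)
                volume volume := Measure.measurePreserving_sub_left _ a₀
            refine (hmp.measure_preimage ?_).le
            exact ((measurable_id.prodMk measurable_const) hSm).nullMeasurableSet
          · rw [indicator_of_notMem hy]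
            exact zero_le
  exact hlow.trans hup

/-- The Euclidean norm is at most the `ℓ_1`-norm. -/
lemma norm_le_sum_abs (v : EuclideanSpace ℝ (Fin n)) : ‖v‖ ≤ ∑ i, |v i| := by
  rw [EuclideanSpace.norm_eq]
  refine Real.sqrt_le_iff.2 ⟨Finset.sum_nonneg fun i _ => abs_nonneg _, ?_⟩
  simp only [Real.norm_eq_abs]
  exact Finset.sum_sq_le_sq_sum_of_nonneg fun i _ => abs_nonneg _

/-- The closed ball of `ℓ_1^n`. -/
def ball1 (n : ℕ) (ρ : ℝ) : Set (EuclideanSpace ℝ (Fin n)) := {v | ∑ i, |v i| ≤ ρ}

lemma isClosed_ball1 (ρ : ℝ) : IsClosed (ball1 n ρ) := by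
  refine isClosed_le ?_ continuous_const
  refine continuous_finsetSum _ fun i _ => ?_
  exact continuous_abs.comp (EuclideanSpace.proj (𝕜 := ℝ) i).continuous

lemma ball1_subset (ρ : ℝ) : ball1 n ρ ⊆ closedBall 0 ρ := fun v hv =>
  mem_closedBall_zero_iff.2 ((norm_le_sum_abs v).trans hv)

lemma volume_ball1_lt_top (ρ : ℝ) : volume (ball1 n ρ) < ∞ :=
  (measure_mono (ball1_subset ρ)).trans_lt measure_closedBall_lt_top

lemma volume_ball1_pos {ρ : ℝ} (hρ : 0 < ρ) : 0 < volume (ball1 n ρ) := by
  have ho : IsOpen {v : EuclideanSpace ℝ (Fin n) | ∑ i, |v i| < ρ} := by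
    refine isOpen_lt ?_ continuous_const
    refine continuous_finsetSum _ fun i _ => ?_
    exact continuous_abs.comp (EuclideanSpace.proj (𝕜 := ℝ) i).continuous
  have hne : ({v : EuclideanSpace ℝ (Fin n) | ∑ i, |v i| < ρ}).Nonempty :=
    ⟨0, by simpa using hρ⟩
  refine (ho.measure_pos volume hne).trans_le (measure_mono ?_)
  intro v hv
  exact (le_of_lt hv : ∑ i, |v i| ≤ ρ)

lemma volume_ball1_two_mul (ρ : ℝ) :
    volume (ball1 n (2 * ρ)) = ENNReal.ofReal (2 ^ n) * volume (ball1 n ρ) := by
  have e : ball1 n (2 * ρ) = (2 : ℝ) • ball1 n ρ := by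
    ext v
    rw [mem_smul_set_iff_inv_smul_mem₀ two_ne_zero]
    simp only [ball1, mem_ofPred_eq, PiLp.smul_apply, smul_eq_mul, abs_mul]
    rw [← Finset.mul_sum, abs_of_pos (by norm_num : (0 : ℝ) < 2⁻¹)]
    constructor <;> intro h <;> linarith
  rw [e, Measure.addHaar_smul, finrank_euclideanSpace_fin, abs_of_pos (by positivity)]

/-- The set of vectors with small `ℓ_1`-norm and many small coordinates. -/
def manySmall (n : ℕ) (R k t : ℝ) : Set (EuclideanSpace ℝ (Fin n)) :=
  {w | ∑ i, |w i| ≤ R ∧ k ≤ ((Finset.univ.filter fun i => |w i| < t).card : ℝ)}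

/-- Chernoff bound for the volume of the set of vectors with small `ℓ_1`-norm and many small
coordinates. -/
lemma volume_manySmall_le {R k t s A : ℝ} (hs : 0 < s) (ht : 0 < t) (hA : 0 ≤ A) (n : ℕ) :
    volume (manySmall n R k t) ≤ ENNReal.ofReal
      (Real.exp (s * R) * (1 + A) ^ (-k) * (2 / s + 2 * A * t) ^ n) := by
  classical
  have hA1 : 0 < 1 + A := by linarith
  set h1 : ℝ → ℝ := fun x => Real.exp (-s * |x|) + (Ioo (-t) t).indicator (fun _ => A) x
    with hh1
  have hint1 : Integrable (fun x : ℝ => Real.exp (-s * |x|)) := by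
    have := integrable_exp_neg_mul_abs_rpow (p := 1) (s := s) one_pos hs
    simpa using this
  have hval1 : ∫ x : ℝ, Real.exp (-s * |x|) = 2 / s := by
    have := integral_exp_neg_mul_abs_rpow (p := 1) (s := s) one_pos hs
    simp only [Real.rpow_one, div_one] at this
    rw [this]
    have hG : Real.Gamma (1 + 1) = 1 := by
      rw [Real.Gamma_add_one one_ne_zero, Real.Gamma_one, one_mul]
    rw [hG, Real.rpow_neg hs.le, Real.rpow_one]
    ring
  have hint2 : Integrable ((Ioo (-t) t).indicator (fun _ : ℝ => A)) := by
    rw [integrable_indicator_iff measurableSet_Ioo]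
    exact integrableOn_const (by simp)
  have hval2 : ∫ x, (Ioo (-t) t).indicator (fun _ : ℝ => A) x = 2 * A * t := by
    rw [integral_indicator measurableSet_Ioo, setIntegral_const, measureReal_def,
      Real.volume_Ioo, ENNReal.toReal_ofReal (by linarith), smul_eq_mul]
    ring
  have hint : Integrable h1 := hint1.add hint2
  have hval : ∫ x, h1 x = 2 / s + 2 * A * t := by
    rw [hh1, integral_add hint1 hint2, hval1, hval2]
  set f : (Fin n → ℝ) → ℝ := fun x => ∏ i, h1 (x i) with hf
  have hfint : Integrable f := Integrable.fintype_prod (f := fun _ => h1) (fun _ => hint)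
  have hfval : ∫ x, f x = (2 / s + 2 * A * t) ^ n := by
    have := integral_fintype_prod_volume_eq_pow (ι := Fin n) h1
    rw [hf, this, hval, Fintype.card_fin]
  have h10 : ∀ x, 0 ≤ h1 x := fun x =>
    add_nonneg (Real.exp_pos _).le (indicator_nonneg (fun _ _ => hA) x)
  have hf0 : ∀ x, 0 ≤ f x := fun x => Finset.prod_nonneg fun i _ => h10 _
  -- lower bound of the product
  set S : Set (Fin n → ℝ) :=
    {w | ∑ i, |w i| ≤ R ∧ k ≤ ((Finset.univ.filter fun i => |w i| < t).card : ℝ)} with hS
  set ε : ℝ := Real.exp (-(s * R)) * (1 + A) ^ k with hε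
  have hε0 : 0 < ε := mul_pos (Real.exp_pos _) (Real.rpow_pos_of_pos hA1 _)
  have hsub : S ⊆ {x | ε ≤ f x} := by
    intro w hw
    obtain ⟨hw1, hw2⟩ := hw
    show ε ≤ f w
    have hstep : ∀ i, Real.exp (-s * |w i|) * (if |w i| < t then 1 + A else 1)
        ≤ h1 (w i) := by
      intro i
      have he1 : Real.exp (-s * |w i|) ≤ 1 := by
        rw [Real.exp_le_one_iff]
        nlinarith [abs_nonneg (w i)]
      have he0 := (Real.exp_pos (-s * |w i|)).le
      simp only [hh1]
      split_ifs with hlt
      · rw [indicator_of_mem (by exact abs_lt.1 hlt)]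
        nlinarith
      · rw [indicator_of_notMem (by
          intro hmem; exact hlt (abs_lt.2 hmem))]
        linarith
    calc ε ≤ Real.exp (-(s * ∑ i, |w i|)) *
          (1 + A) ^ ((Finset.univ.filter fun i => |w i| < t).card : ℝ) := by
          rw [hε]
          gcongr
          linarith
      _ = ∏ i, (Real.exp (-s * |w i|) * (if |w i| < t then 1 + A else 1)) := by
          rw [Finset.prod_mul_distrib, ← Real.exp_sum, ← Finset.mul_sum, Real.rpow_natCast,
            Finset.prod_ite, Finset.prod_const, Finset.prod_const, one_pow, mul_one]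
          congr 2
          ring
      _ ≤ f w := by
          rw [hf]
          refine Finset.prod_le_prod (fun i _ => ?_) (fun i _ => hstep i)
          refine mul_nonneg (Real.exp_pos _).le ?_
          split_ifs
          · exact hA1.le
          · exact zero_le_one
  have hmark := mul_meas_ge_le_integral_of_nonneg (μ := volume)
    (Filter.Eventually.of_forall hf0) hfint ε
  have hfin : volume {x | ε ≤ f x} < ⊤ := hfint.measure_ge_lt_top hε0
  have hSle : volume S ≤ ENNReal.ofReal
      (Real.exp (s * R) * (1 + A) ^ (-k) * (2 / s + 2 * A * t) ^ n) := by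
    refine (measure_mono hsub).trans ?_
    rw [← ENNReal.ofReal_toReal hfin.ne]
    refine ENNReal.ofReal_le_ofReal ?_
    rw [hfval] at hmark
    have e : Real.exp (s * R) * (1 + A) ^ (-k) = ε⁻¹ := by
      rw [hε, mul_inv, ← Real.exp_neg, neg_neg, Real.rpow_neg hA1.le]
    rw [e, ← div_eq_inv_mul, le_div_iff₀ hε0, mul_comm]
    exact hmark
  -- transfer to Euclidean space
  have hmp := PiLp.volume_preserving_ofLp (Fin n)
  have hmeas : MeasurableSet S := by
    have h2 : ∀ i, Measurable (fun x : Fin n → ℝ => |x i|) := fun i =>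
      continuous_abs.measurable.comp (measurable_pi_apply i)
    have h3 : MeasurableSet {w : Fin n → ℝ | ∑ i, |w i| ≤ R} :=
      measurableSet_le (Finset.measurable_sum _ fun i _ => h2 i) measurable_const
    refine h3.inter ?_
    show MeasurableSet {w : Fin n → ℝ |
      k ≤ ((Finset.univ.filter fun i => |w i| < t).card : ℝ)}
    refine measurableSet_le measurable_const ?_
    have : (fun w : Fin n → ℝ => ((Finset.univ.filter fun i => |w i| < t).card : ℝ))
        = fun w => ∑ i, (if |w i| < t then (1 : ℝ) else 0) := by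
      ext w
      rw [Finset.card_filter]
      push_cast
      rfl
    rw [this]
    refine Finset.measurable_sum _ fun i _ => ?_
    exact Measurable.ite (measurableSet_lt (h2 i) measurable_const) measurable_const
      measurable_const
  have := hmp.measure_preimage hmeas.nullMeasurableSet
  have e : manySmall n R k t = (@WithLp.ofLp 2 (Fin n → ℝ)) ⁻¹' S := rfl
  rw [e, this]
  exact hSle

end Pool.Agent.Helper4_UH
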