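import Mathlib
import Pool.Agent.Helper4_UH.Coarse
import Pool.Agent.Helper4_UH.AvgDir
import Pool.Agent.Helper4_UH.Region

/-!
Nonlinear projections onto `ℝ^m` which are Lipschitz for the `ℓ_1`-norm.
-/

open Set Topology Bornology MeasureTheory Metric Uniformity
open scoped Pointwise ENNReal

namespace Pool.Agent.Helper4_UH

variable {E F : Type*} [AddCommGroup E] [Module ℝ E] [UniformSpace E] [IsUniformAddGroup E]
  [ContinuousSMul ℝ E] [NormedAddCommGroup F] [NormedSpace ℝ F]

omit [Module ℝ E] [ContinuousSMul ℝ E] in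
/-- Chaining: a uniformly continuous map from a normed space followed by a map which is Lipschitz
along `U`. -/
lemma coarse_chain {g : F → E} (hg : UniformContinuous g) {U : Set E} (hU : U ∈ 𝓝 (0 : E)) :
    ∃ η : ℝ, 0 < η ∧ ∀ (m : ℕ) (P : E → EuclideanSpace ℝ (Fin m)) (κ : ℝ), 0 ≤ κ →
      (∀ y, ∀ u ∈ U, ∑ l, |P (y + u) l - P y l| ≤ κ) →
      ∀ r : ℝ, 0 ≤ r → ∀ y y' : F, ‖y - y'‖ ≤ r →
        ∑ l, |P (g y) l - P (g y') l| ≤ κ * (r / η + 1) := by
  have h1 : {p : E × E | p.2 - p.1 ∈ U} ∈ 𝓤 E := by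
    rw [uniformity_eq_comap_nhds_zero E]
    exact Filter.preimage_mem_comap hU
  obtain ⟨η, hη, hgη⟩ := Metric.mem_uniformity_dist.1 (hg h1)
  have hstep : ∀ y y' : F, ‖y - y'‖ < η → g y - g y' ∈ U := by
    intro y y' h
    have : dist y' y < η := by rw [dist_comm, dist_eq_norm]; exact h
    exact hgη this
  refine ⟨η, hη, fun m P κ hκ hP r hr y y' hyy => ?_⟩
  set N : ℕ := ⌊r / η⌋₊ + 1 with hN
  have hN0 : (0 : ℝ) < N := by rw [hN]; positivity
  have hrN : r / η < N := by
    rw [hN]; push_cast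
    exact Nat.lt_floor_add_one _
  have hNle : (N : ℝ) ≤ r / η + 1 := by
    rw [hN]; push_cast
    have := Nat.floor_le (div_nonneg hr hη.le)
    linarith
  set z : ℕ → F := fun i => y' + ((i : ℝ) / N) • (y - y') with hz
  have hzstep : ∀ i, g (z (i + 1)) - g (z i) ∈ U := by
    intro i
    refine hstep _ _ ?_
    have : z (i + 1) - z i = ((1 : ℝ) / N) • (y - y') := by
      simp only [hz]
      have : (((i + 1 : ℕ) : ℝ) / N) = (i : ℝ) / N + 1 / N := by push_cast; ring
      rw [this, add_smul]; abel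
    rw [this, norm_smul, Real.norm_eq_abs, abs_of_pos (by positivity)]
    rw [div_lt_iff₀ hη] at hrN
    calc 1 / (N : ℝ) * ‖y - y'‖ ≤ 1 / N * r := by gcongr
      _ < 1 / N * (N * η) := by gcongr
      _ = η := by field_simp
  have hone : ∀ i, ∑ l, |P (g (z (i + 1))) l - P (g (z i)) l| ≤ κ := by
    intro i
    have := hP (g (z i)) _ (hzstep i)
    rwa [add_sub_cancel] at this
  have hind : ∀ k : ℕ, ∑ l, |P (g (z k)) l - P (g (z 0)) l| ≤ k * κ := by
    intro k
    induction k with
    | zero => simp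
    | succ k ih =>
      calc ∑ l, |P (g (z (k + 1))) l - P (g (z 0)) l|
          ≤ ∑ l, (|P (g (z (k + 1))) l - P (g (z k)) l|
            + |P (g (z k)) l - P (g (z 0)) l|) :=
            Finset.sum_le_sum fun l _ => abs_sub_le _ _ _
        _ ≤ κ + k * κ := by
            rw [Finset.sum_add_distrib]
            exact add_le_add (hone k) ih
        _ = ((k + 1 : ℕ) : ℝ) * κ := by push_cast; ring
  have e1 : z N = y := by
    simp only [hz]
    rw [div_self hN0.ne', one_smul]; abel
  have e0 : z 0 = y' := by simp [hz]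
  have := hind N
  rw [e1, e0] at this
  calc _ ≤ N * κ := this
    _ ≤ (r / η + 1) * κ := by gcongr
    _ = κ * (r / η + 1) := by ring

lemma sum_smul_single {m : ℕ} (v : EuclideanSpace ℝ (Fin m)) :
    ∑ i, v i • EuclideanSpace.single i (1 : ℝ) = v := by
  ext j
  simp [Pi.single_apply]

/-- Necessary condition for a uniform retract of a Banach space in terms of nonlinear
projections. -/
theorem nonlinear_projection [CompleteSpace F] {f : E → F} {g : F → E}
    (hf : UniformContinuous f) (hg : UniformContinuous g) (hgf : ∀ x, g (f x) = x)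
    {U : Set E} (hU : U ∈ 𝓝 (0 : E)) (hUb : IsVonNBounded ℝ U) {κ δ : ℝ} (hκ : 0 ≤ κ)
    (hδ : 0 < δ) :
    ∃ M C c : ℝ, 0 < M ∧ 0 < C ∧ 0 < c ∧ ∀ m : ℕ, 1 ≤ m → ∀ x : Fin m → E, (∀ i, x i ∈ U) →
      ∀ P : E → EuclideanSpace ℝ (Fin m), Continuous P →
      (∀ y, ∀ u ∈ U, ∑ l, |P (y + u) l - P y l| ≤ κ) →
      ∀ θ : Fin m → ℝ → ℝ, (∀ l s t, |θ l s - θ l t| ≤ |s - t|) →
      (∀ l t, |t| ≤ M → θ l t = t) →
      (∀ (a : Fin m → ℝ) (l : Fin m), P (∑ j, a j • x j) l = θ l (a l)) →
      ∃ y : E, ∃ u ∈ U, (1 - δ) * m ≤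
        ((Finset.univ.filter fun l => c / m ≤ |P (y + C • u) l - P y l|).card : ℝ) := by
  classical
  obtain ⟨K, hK0, hK⟩ := coarse_lipschitz hf hUb
  obtain ⟨C, hC0, hC⟩ := coarse_inverse hg hU hUb K
  obtain ⟨η, hη, hchain⟩ := coarse_chain hg hU
  set C₁ : ℝ := κ * (K / η + 1) with hC₁
  have hC₁0 : 0 ≤ C₁ := by positivity
  set A : ℝ := (9 * Real.exp (C₁ + 2)) ^ (2 / δ) with hA
  have hA0 : 0 < A := by positivity
  have hAδ : A ^ (δ / 2) = 9 * Real.exp (C₁ + 2) := by
    rw [hA, ← Real.rpow_mul (by positivity)]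
    have : 2 / δ * (δ / 2) = 1 := by field_simp
    rw [this, Real.rpow_one]
  refine ⟨4 * (C₁ + 1) / δ + 1, C, 1 / A, by positivity, hC0, by positivity, ?_⟩
  intro m hm x hxU P hPc hP θ hθ1 hθM hPJ
  by_contra hcon
  push Not at hcon
  have hm0 : (0 : ℝ) < m := by exact_mod_cast hm
  have hm1 : (1 : ℝ) ≤ m := by exact_mod_cast hm
  set t : ℝ := 1 / A / m with ht
  have ht0 : 0 < t := by positivity
  set M : ℝ := 4 * (C₁ + 1) / δ + 1 with hM
  -- the linear map
  set J : EuclideanSpace ℝ (Fin m) →L[ℝ] E :=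
    ∑ i, (EuclideanSpace.proj (𝕜 := ℝ) i).smulRight (x i) with hJ
  have hJv : ∀ v : EuclideanSpace ℝ (Fin m), J v = ∑ i, v i • x i := by
    intro v
    simp [hJ]
  have hPJ' : ∀ (a : EuclideanSpace ℝ (Fin m)) (l : Fin m), P (J a) l = θ l (a l) := by
    intro a l
    rw [hJv]
    exact hPJ (fun j => a j) l
  set φ : EuclideanSpace ℝ (Fin m) → F := fun a => f (J a) with hφ
  have hφc : Continuous φ := hf.continuous.comp J.continuous
  have hJe : ∀ i, J (EuclideanSpace.single i (1 : ℝ)) = x i := by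
    intro i
    rw [hJv]
    simp [Pi.single_apply]
  have hφK : ∀ i ∈ (Finset.univ : Finset (Fin m)), ∀ a, ∀ s ∈ Icc (0 : ℝ) 1,
      ‖φ (a + s • EuclideanSpace.single i (1 : ℝ)) - φ a‖ ≤ K := by
    intro i _ a s hs
    have := hK (J a) (x i) (hxU i) s hs
    simp only [hφ, map_add, map_smul, hJe]
    exact this
  obtain ⟨ψ, hψc, hψ1, hψ2, -⟩ := exists_smooth hφc
    (fun i : Fin m => EuclideanSpace.single i (1 : ℝ)) Finset.univ hφK
  have hψ2' : ∀ a, ‖ψ a - φ a‖ ≤ m * K := by
    intro a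
    have := hψ2 a
    rwa [Finset.card_univ, Fintype.card_fin] at this
  -- the self-map
  set Ψ : EuclideanSpace ℝ (Fin m) → EuclideanSpace ℝ (Fin m) :=
    fun a => P (g (ψ a)) + (a - P (J a)) with hΨ
  have hΨc : Continuous Ψ :=
    (hPc.comp (hg.continuous.comp hψc)).add
      (continuous_id.sub (hPc.comp J.continuous))
  have hdisp : ∀ a, ∑ l, |Ψ a l - a l| ≤ C₁ * m := by
    intro a
    have h1 := hchain m P κ hκ hP (m * K) (by positivity) (ψ a) (φ a) (hψ2' a)
    have hφa : g (φ a) = J a := hgf (J a)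
    rw [hφa] at h1
    have e : ∀ l, Ψ a l - a l = P (g (ψ a)) l - P (J a) l := by
      intro l
      simp only [hΨ, PiLp.add_apply, PiLp.sub_apply]
      ring
    simp_rw [e]
    refine h1.trans ?_
    rw [hC₁]
    have : κ * (m * K / η + 1) ≤ κ * (m * K / η + m) := by gcongr
    calc κ * (m * K / η + 1) ≤ κ * (m * K / η + m) := this
      _ = κ * (K / η + 1) * m := by ring
  set D : Set (EuclideanSpace ℝ (Fin m)) := {v | (∀ i, 0 ≤ v i) ∧ ∑ i, v i ≤ 1} with hD
  have hDabs : ∀ v ∈ D, ∑ i, |v i| ≤ 1 := by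
    intro v hv
    have : ∑ i, |v i| = ∑ i, v i := Finset.sum_congr rfl fun i _ => abs_of_nonneg (hv.1 i)
    rw [this]; exact hv.2
  set ρ : ℝ := (C₁ + 1) * m with hρ
  have hρ0 : 0 < ρ := by positivity
  have key := volume_le_between Ψ hΨc D (manySmall m (C₁ + 2) (δ / 2 * m) t)
    (ball1 m (2 * ρ)) (ball1 m ρ) (isClosed_ball1 _).measurableSet (isClosed_ball1 _).measurableSet
    (by
      intro y hy
      obtain ⟨b, hb⟩ := surjective_of_bounded_dist Ψ hΨc (C₁ * m)
        (fun a => (norm_le_sum_abs _).trans (hdisp a)) y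
      refine ⟨b, hb, fun v hv => ?_⟩
      have h1 := hdisp b
      rw [hb] at h1
      have h2 := hDabs v hv
      have hy' : ∑ i, |y i| ≤ ρ := hy
      show ∑ i, |(b - v) i| ≤ 2 * ρ
      calc ∑ i, |(b - v) i| ≤ ∑ i, (|y i| + |y i - b i| + |v i|) := by
            refine Finset.sum_le_sum fun i _ => ?_
            rw [PiLp.sub_apply]
            have e : b i - v i = y i - (y i - b i) - v i := by ring
            rw [e]
            exact (abs_sub _ _).trans (add_le_add (abs_sub _ _) le_rfl)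
        _ ≤ ρ + C₁ * m + 1 := by
            rw [Finset.sum_add_distrib, Finset.sum_add_distrib]
            linarith
        _ ≤ 2 * ρ := by rw [hρ]; nlinarith)
    (by
      intro a ha v hv
      have hvabs := hDabs v hv
      have hv1 : ∀ i, |v i| ≤ 1 := fun i =>
        (Finset.single_le_sum (f := fun i => |v i|) (fun i _ => abs_nonneg _)
          (Finset.mem_univ i)).trans hvabs
      have hinc : ‖ψ (a + v) - ψ a‖ ≤ K := by
        have := lip_sum (ψ := ψ) (fun i : Fin m => EuclideanSpace.single i (1 : ℝ))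
          Finset.univ (fun i => v i) (fun i _ => hv1 i) hψ1 a
        rw [sum_smul_single] at this
        refine this.trans ?_
        calc (∑ i, |v i|) * K ≤ 1 * K := by gcongr
          _ = K := one_mul K
      obtain ⟨u, hu, hue⟩ := hC _ _ hinc
      set y₀ := g (ψ a) with hy₀
      have hy₁ : g (ψ (a + v)) = y₀ + C • u := by
        have : C • u = g (ψ (a + v)) - g (ψ a) := hue
        rw [this]; abel
      have hsum := hchain m P κ hκ hP K hK0.le _ _ hinc
      rw [hy₁] at hsum
      have hwl : ∀ l, (Ψ (a + v) - Ψ a) l = (P (y₀ + C • u) l - P y₀ l)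
          + (v l - (θ l (a l + v l) - θ l (a l))) := by
        intro l
        simp only [hΨ, PiLp.add_apply, PiLp.sub_apply]
        rw [hPJ' (a + v) l, hPJ' a l, hy₁, PiLp.add_apply]
        ring
      have hw2 : ∀ l, |v l - (θ l (a l + v l) - θ l (a l))| ≤ 2 * |v l| := by
        intro l
        have h1 := hθ1 l (a l + v l) (a l)
        rw [add_sub_cancel_left] at h1
        calc _ ≤ |v l| + |θ l (a l + v l) - θ l (a l)| := abs_sub _ _
          _ ≤ |v l| + |v l| := by gcongr
          _ = 2 * |v l| := by ring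
      constructor
      · calc ∑ l, |(Ψ (a + v) - Ψ a) l|
            ≤ ∑ l, (|P (y₀ + C • u) l - P y₀ l| + 2 * |v l|) := by
              refine Finset.sum_le_sum fun l _ => ?_
              rw [hwl l]
              exact (abs_add_le _ _).trans (add_le_add le_rfl (hw2 l))
          _ ≤ C₁ + 2 := by
              rw [Finset.sum_add_distrib, ← Finset.mul_sum]
              linarith
      · set S₁ := Finset.univ.filter fun l => t ≤ |P (y₀ + C • u) l - P y₀ l| with hS₁
        set S₂ := Finset.univ.filter fun l => M - 1 < |a l| with hS₂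
        set S₃ := Finset.univ.filter fun l => |(Ψ (a + v) - Ψ a) l| < t with hS₃
        have hc1 : (S₁.card : ℝ) < (1 - δ) * m := hcon y₀ u hu
        have hc2 : (S₂.card : ℝ) ≤ δ / 2 * m := by
          have h1 : (S₂.card : ℝ) * (M - 1) ≤ ∑ l, |a l| := by
            calc (S₂.card : ℝ) * (M - 1) = ∑ _l ∈ S₂, (M - 1) := by
                  rw [Finset.sum_const, nsmul_eq_mul]
              _ ≤ ∑ l ∈ S₂, |a l| := Finset.sum_le_sum fun l hl =>
                  (Finset.mem_filter.1 hl).2.le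
              _ ≤ ∑ l, |a l| := Finset.sum_le_sum_of_subset_of_nonneg
                  (Finset.filter_subset _ _) fun l _ _ => abs_nonneg _
          have h2 : ∑ l, |a l| ≤ 2 * ρ := ha
          have h3 : M - 1 = 4 * (C₁ + 1) / δ := by rw [hM]; ring
          have h4 : (S₂.card : ℝ) * (4 * (C₁ + 1) / δ) ≤ 2 * ((C₁ + 1) * m) := by
            rw [← h3, ← hρ]; exact h1.trans h2
          have h5 : 0 < 4 * (C₁ + 1) / δ := by positivity
          rw [← le_div_iff₀ h5] at h4
          refine h4.trans (le_of_eq ?_)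
          field_simp
          ring
        have hcov : (Finset.univ : Finset (Fin m)) ⊆ S₃ ∪ (S₁ ∪ S₂) := by
          intro l _
          by_cases h1 : l ∈ S₁
          · exact Finset.mem_union_right _ (Finset.mem_union_left _ h1)
          by_cases h2 : l ∈ S₂
          · exact Finset.mem_union_right _ (Finset.mem_union_right _ h2)
          refine Finset.mem_union_left _ (Finset.mem_filter.2 ⟨Finset.mem_univ _, ?_⟩)
          have h1' : |P (y₀ + C • u) l - P y₀ l| < t := by
            by_contra h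
            exact h1 (Finset.mem_filter.2 ⟨Finset.mem_univ _, not_lt.1 h⟩)
          have h2' : |a l| ≤ M - 1 := by
            by_contra h
            exact h2 (Finset.mem_filter.2 ⟨Finset.mem_univ _, not_le.1 h⟩)
          have h3 : |a l + v l| ≤ M := by
            calc |a l + v l| ≤ |a l| + |v l| := abs_add_le _ _
              _ ≤ (M - 1) + 1 := add_le_add h2' (hv1 l)
              _ = M := by ring
          rw [hwl l, hθM l _ h3, hθM l _ (by linarith)]
          simpa using h1'
        have hcard : (m : ℝ) ≤ S₃.card + (S₁.card + S₂.card) := by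
          have := (Finset.card_le_card hcov).trans ((Finset.card_union_le _ _).trans
            (Nat.add_le_add_left (Finset.card_union_le _ _) _))
          rw [Finset.card_univ, Fintype.card_fin] at this
          exact_mod_cast this
        linarith)
  -- cancel the volume of the ball
  rw [volume_ball1_two_mul] at key
  have hb0 : volume (ball1 m ρ) ≠ 0 := (volume_ball1_pos hρ0).ne'
  have hbt : volume (ball1 m ρ) ≠ ∞ := (volume_ball1_lt_top ρ).ne
  have key2 : volume D ≤ ENNReal.ofReal (2 ^ m) *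
      volume (manySmall m (C₁ + 2) (δ / 2 * m) t) := by
    refine (ENNReal.mul_le_mul_iff_right hb0 hbt).1 (key.trans (le_of_eq ?_))
    ring
  have hlow : ENNReal.ofReal ((1 / (m : ℝ)) ^ m) ≤ volume D :=
    volume_simplex_ge hm fun v hv0 hv1 => ⟨hv0, hv1⟩
  have hup := volume_manySmall_le (R := C₁ + 2) (k := δ / 2 * m) (t := t) (s := m) (A := A)
    hm0 ht0 hA0.le m
  have h3 : ENNReal.ofReal ((1 / (m : ℝ)) ^ m) ≤ ENNReal.ofReal (2 ^ m *
      (Real.exp (m * (C₁ + 2)) * (1 + A) ^ (-(δ / 2 * m)) * (2 / m + 2 * A * t) ^ m)) := by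
    rw [ENNReal.ofReal_mul (by positivity)]
    exact hlow.trans (key2.trans (by gcongr))
  rw [ENNReal.ofReal_le_ofReal_iff (by positivity)] at h3
  have e1 : Real.exp (m * (C₁ + 2)) = (Real.exp (C₁ + 2)) ^ m := by
    rw [← Real.exp_nat_mul]
  have e2 : (1 + A) ^ (-(δ / 2 * m)) = ((1 + A) ^ (-(δ / 2))) ^ m := by
    rw [← Real.rpow_natCast ((1 + A) ^ (-(δ / 2))) m, ← Real.rpow_mul (by positivity)]
    congr 1; ring
  have e3 : 2 / (m : ℝ) + 2 * A * t = 4 / m := by
    rw [ht]; field_simp; ring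
  rw [e1, e2, e3, ← mul_pow, ← mul_pow, ← mul_pow] at h3
  have h4 := (pow_le_pow_iff_left₀ (by positivity) (by positivity) (by omega)).1 h3
  have h5 : (1 + A) ^ (-(δ / 2)) ≤ (9 * Real.exp (C₁ + 2))⁻¹ := by
    rw [Real.rpow_neg (by positivity)]
    refine inv_anti₀ (by positivity) ?_
    rw [← hAδ]
    exact Real.rpow_le_rpow hA0.le (by linarith) (by positivity)
  have hexp : 0 < Real.exp (C₁ + 2) := Real.exp_pos _
  have h6 : 2 * (Real.exp (C₁ + 2) * (1 + A) ^ (-(δ / 2)) * (4 / (m : ℝ)))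
      ≤ 2 * (Real.exp (C₁ + 2) * (9 * Real.exp (C₁ + 2))⁻¹ * (4 / (m : ℝ))) := by
    gcongr
  have h7 : 2 * (Real.exp (C₁ + 2) * (9 * Real.exp (C₁ + 2))⁻¹ * (4 / (m : ℝ)))
      = 8 / 9 * (1 / m) := by
    field_simp
    ring
  have h8 : (0 : ℝ) < 1 / m := by positivity
  linarith

end Pool.Agent.Helper4_UH
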