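import Mathlib
import Pool.Agent.Helper4_UH.Nonlinear

/-!
Lorentz spaces `Λ^q_φ` with `q < 1`.
-/

open Set Topology Bornology MeasureTheory Metric Uniformity
open scoped Pointwise ENNReal

namespace Pool.Agent.Helper4_UH

/-! ### Decreasing functions on the half line -/

lemma halfline_point {ψ : ℝ → ℝ≥0∞} (hψ : Antitone ψ) {q : ℝ} (hq0 : 0 < q) (hq1 : q < 1)
    {t : ℝ} (ht : 0 < t) {J' : Set ℝ} (hJ' : Ioc (t / 2) t ⊆ J') :
    ENNReal.ofReal (t ^ q / 2) * ψ t ^ q
      ≤ ∫⁻ s in J', ENNReal.ofReal (s ^ (q - 1)) * ψ s ^ q := by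
  calc ENNReal.ofReal (t ^ q / 2) * ψ t ^ q
      = ∫⁻ _s in Ioc (t / 2) t, ENNReal.ofReal (t ^ (q - 1)) * ψ t ^ q := by
        rw [setLIntegral_const, Real.volume_Ioc, mul_right_comm,
          ← ENNReal.ofReal_mul (by positivity)]
        congr 2
        have : t ^ q = t ^ (q - 1) * t := by
          rw [← Real.rpow_add_one ht.ne']; congr 1; ring
        rw [this]; ring
    _ ≤ ∫⁻ s in Ioc (t / 2) t, ENNReal.ofReal (s ^ (q - 1)) * ψ s ^ q := by
        refine setLIntegral_mono' measurableSet_Ioc fun s hs => ?_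
        have hs0 : 0 < s := lt_trans (by positivity) hs.1
        exact mul_le_mul' (ENNReal.ofReal_le_ofReal
          (Real.rpow_le_rpow_of_nonpos hs0 hs.2 (by linarith)))
          (ENNReal.rpow_le_rpow (hψ hs.2) hq0.le)
    _ ≤ ∫⁻ s in J', ENNReal.ofReal (s ^ (q - 1)) * ψ s ^ q :=
        lintegral_mono_set hJ'

/-- Integral of a decreasing function over `J`, bounded by its Lorentz integral over a slightly
larger set. -/
lemma lintegral_le_lorentz {ψ : ℝ → ℝ≥0∞} (hψ : Antitone ψ) {q : ℝ} (hq0 : 0 < q)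
    (hq1 : q < 1) {J J' : Set ℝ} (hJm : MeasurableSet J)
    (hJ : ∀ t ∈ J, 0 < t ∧ Ioc (t / 2) t ⊆ J') (hJJ : J ⊆ J') :
    ∫⁻ s in J, ψ s ≤ ENNReal.ofReal (2 ^ ((1 - q) / q)) *
      (∫⁻ s in J', ENNReal.ofReal (s ^ (q - 1)) * ψ s ^ q) ^ (1 / q) := by
  set W := ∫⁻ s in J', ENNReal.ofReal (s ^ (q - 1)) * ψ s ^ q with hW
  have hq' : 0 < 1 - q := by linarith
  by_cases hWtop : W = ∞
  · rw [hWtop, ENNReal.top_rpow_of_pos (by positivity), ENNReal.mul_top]
    · exact le_top
    · rw [Ne, ENNReal.ofReal_eq_zero, not_le]; positivity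
  -- pointwise bound
  have hpt : ∀ t ∈ J, ψ t ≤ (2 * W) ^ ((1 - q) / q) *
      (ENNReal.ofReal (t ^ (q - 1)) * ψ t ^ q) := by
    intro t ht
    obtain ⟨ht0, htJ⟩ := hJ t ht
    have h1 := halfline_point hψ hq0 hq1 ht0 htJ
    rw [← hW] at h1
    -- `t^q ψ^q ≤ 2 W`
    have h2 : ENNReal.ofReal (t ^ q) * ψ t ^ q ≤ 2 * W := by
      have e : ENNReal.ofReal (t ^ q) = 2 * ENNReal.ofReal (t ^ q / 2) := by
        rw [show (2 : ℝ≥0∞) = ENNReal.ofReal 2 by simp, ← ENNReal.ofReal_mul (by norm_num)]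
        congr 1; ring
      rw [e, mul_assoc]
      gcongr
    -- `(t ψ)^(1-q) ≤ (2W)^((1-q)/q)`
    have h3 : ENNReal.ofReal (t ^ (1 - q)) * ψ t ^ (1 - q) ≤ (2 * W) ^ ((1 - q) / q) := by
      have := ENNReal.rpow_le_rpow h2 (by positivity : 0 ≤ (1 - q) / q)
      rw [ENNReal.mul_rpow_of_nonneg _ _ (by positivity), ← ENNReal.rpow_mul,
        ENNReal.ofReal_rpow_of_nonneg (by positivity) (by positivity),
        ← Real.rpow_mul ht0.le] at this
      have e : q * ((1 - q) / q) = 1 - q := by field_simp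
      rwa [e] at this
    have hψt : ψ t ≠ ∞ := by
      intro htop
      rw [htop, ENNReal.top_rpow_of_pos hq0, ENNReal.mul_top] at h2
      · exact (ENNReal.mul_ne_top (by simp) hWtop) (top_le_iff.1 h2)
      · rw [Ne, ENNReal.ofReal_eq_zero, not_le]; positivity
    have e1 : ψ t = ψ t ^ (1 - q) * ψ t ^ q := by
      by_cases h0 : ψ t = 0
      · rw [h0, ENNReal.zero_rpow_of_pos hq0, mul_zero]
      · rw [← ENNReal.rpow_add _ _ h0 hψt]; simp
    have e2 : (1 : ℝ≥0∞) = ENNReal.ofReal (t ^ (1 - q)) * ENNReal.ofReal (t ^ (q - 1)) := by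
      rw [← ENNReal.ofReal_mul (by positivity), ← Real.rpow_add ht0]
      simp
    calc ψ t = 1 * (ψ t ^ (1 - q) * ψ t ^ q) := by rw [one_mul]; exact e1
      _ = (ENNReal.ofReal (t ^ (1 - q)) * ψ t ^ (1 - q)) *
          (ENNReal.ofReal (t ^ (q - 1)) * ψ t ^ q) := by
          rw [e2]; ring
      _ ≤ _ := by gcongr
  calc ∫⁻ s in J, ψ s
      ≤ ∫⁻ s in J, (2 * W) ^ ((1 - q) / q) * (ENNReal.ofReal (s ^ (q - 1)) * ψ s ^ q) :=
        setLIntegral_mono' hJm hpt
    _ ≤ ∫⁻ s in J', (2 * W) ^ ((1 - q) / q) * (ENNReal.ofReal (s ^ (q - 1)) * ψ s ^ q) :=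
        lintegral_mono_set hJJ
    _ = (2 * W) ^ ((1 - q) / q) * W := by
        rw [lintegral_const_mul' _ _ (ENNReal.rpow_ne_top_of_nonneg (by positivity)
          (ENNReal.mul_ne_top (by simp) hWtop))]
    _ = ENNReal.ofReal (2 ^ ((1 - q) / q)) * W ^ (1 / q) := by
        rw [ENNReal.mul_rpow_of_nonneg _ _ (by positivity), mul_assoc]
        congr 1
        · rw [← ENNReal.ofReal_rpow_of_nonneg (by norm_num) (by positivity)]
          simp
        · by_cases h0 : W = 0
          · rw [h0, mul_zero, ENNReal.zero_rpow_of_pos (by positivity)]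
          · have e : W ^ ((1 - q) / q) * W = W ^ ((1 - q) / q) * W ^ (1 : ℝ) := by
              rw [ENNReal.rpow_one]
            rw [e, ← ENNReal.rpow_add _ _ h0 hWtop]
            congr 1
            field_simp
            ring

/-- Scaling. -/
lemma lorentz_scale (G : ℝ → ℝ≥0∞) {q t : ℝ} (ht : 0 < t) :
    ∫⁻ s in Ioi (0 : ℝ), ENNReal.ofReal (s ^ (q - 1)) * G (s / t)
      = ENNReal.ofReal (t ^ q) * ∫⁻ s in Ioi (0 : ℝ), ENNReal.ofReal (s ^ (q - 1)) * G s := by
  have h := Real.map_volume_mul_left (a := t⁻¹) (inv_ne_zero ht.ne')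
  set g : ℝ → ℝ≥0∞ := (Ioi (0 : ℝ)).indicator
    (fun s => ENNReal.ofReal (s ^ (q - 1)) * G s) with hg
  have e1 : ∫⁻ s, g (t⁻¹ * s) = ENNReal.ofReal t * ∫⁻ s, g s := by
    have hme : MeasurableEmbedding (fun s : ℝ => t⁻¹ * s) :=
      (Homeomorph.mulLeft₀ t⁻¹ (inv_ne_zero ht.ne')).measurableEmbedding
    have := hme.lintegral_map (μ := volume) g
    rw [h, lintegral_smul_measure, inv_inv, abs_of_pos ht] at this
    exact this.symm
  have e2 : ∫⁻ s, g s = ∫⁻ s in Ioi (0 : ℝ), ENNReal.ofReal (s ^ (q - 1)) * G s := by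
    rw [hg, lintegral_indicator measurableSet_Ioi]
  have e3 : ∫⁻ s in Ioi (0 : ℝ), ENNReal.ofReal (s ^ (q - 1)) * G (s / t)
      = ∫⁻ s, ENNReal.ofReal (t ^ (q - 1)) * g (t⁻¹ * s) := by
    rw [← lintegral_indicator measurableSet_Ioi]
    refine lintegral_congr fun s => ?_
    by_cases hs : 0 < s
    · rw [indicator_of_mem (by exact hs), hg, indicator_of_mem (by
        show 0 < t⁻¹ * s
        positivity), ← mul_assoc, ← ENNReal.ofReal_mul (by positivity)]
      congr 2
      · rw [Real.mul_rpow (by positivity) hs.le, ← mul_assoc,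
          ← Real.mul_rpow ht.le (by positivity), mul_inv_cancel₀ ht.ne', Real.one_rpow, one_mul]
      · rw [div_eq_inv_mul]
    · rw [indicator_of_notMem (by exact hs), hg, indicator_of_notMem (by
        show ¬ (0 < t⁻¹ * s)
        intro h
        exact hs (by
          have := mul_pos ht h
          rwa [mul_inv_cancel_left₀ ht.ne'] at this)), mul_zero]
  rw [e3, lintegral_const_mul' _ _ ENNReal.ofReal_ne_top, e1, e2, ← mul_assoc,
    ← ENNReal.ofReal_mul (by positivity)]
  congr 2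
  rw [← Real.rpow_add_one ht.ne']
  congr 1; ring

/-! ### Truncation -/

/-- Truncation at level `b`. -/
noncomputable def clip (b t : ℝ) : ℝ := max (-b) (min b t)

lemma clip_eq {b t : ℝ} (h : |t| ≤ b) : clip b t = t := by
  obtain ⟨h1, h2⟩ := abs_le.1 h
  rw [clip, min_eq_right h2, max_eq_right h1]

lemma abs_clip_sub_le (b s t : ℝ) : |clip b s - clip b t| ≤ |s - t| := by
  unfold clip
  calc |max (-b) (min b s) - max (-b) (min b t)| ≤ |min b s - min b t| := by
        have := abs_max_sub_max_le_max (-b) (min b s) (-b) (min b t)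
        simpa using this
    _ ≤ |s - t| := by
        have := abs_min_sub_min_le_max b s b t
        simpa using this

lemma abs_clip_le {b : ℝ} (hb : 0 ≤ b) (t : ℝ) : |clip b t| ≤ b := by
  unfold clip
  rw [abs_le]
  exact ⟨le_max_left _ _, max_le (by linarith) (min_le_left _ _)⟩

lemma continuous_clip (b : ℝ) : Continuous (clip b) :=
  continuous_const.max (continuous_const.min continuous_id)

lemma clip_smul {b r t : ℝ} (hr : 0 < r) : r * clip (b / r) (t / r) = clip b t := by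
  unfold clip
  rw [mul_max_of_nonneg _ _ hr.le, mul_min_of_nonneg _ _ hr.le]
  congr 1
  · field_simp
  · congr 1 <;> field_simp

lemma abs_clip_add_sub_le {b : ℝ} (hb : 0 ≤ b) (s t : ℝ) :
    |clip b (s + t) - clip b s| ≤ min |t| (2 * b) := by
  refine le_min ?_ ?_
  · have := abs_clip_sub_le b (s + t) s
    rwa [add_sub_cancel_left] at this
  · calc |clip b (s + t) - clip b s| ≤ |clip b (s + t)| + |clip b s| := abs_sub _ _
      _ ≤ b + b := add_le_add (abs_clip_le hb _) (abs_clip_le hb _)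
      _ = 2 * b := by ring

end Pool.Agent.Helper4_UH
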