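import Mathlib
import Pool.Agent.Helper4_UH.Lorentz

/-!
Lorentz spaces `Λ^q_φ` with `q < 1` are not uniform retracts of Banach spaces.
-/

open Set Topology Bornology MeasureTheory Metric Uniformity
open scoped Pointwise ENNReal

namespace Pool.Agent.Helper4_UH

variable {Ω : Type*} [MeasurableSpace Ω] {μ : Measure Ω} {φ : ℝ≥0∞ → ℝ≥0∞}

/-- The function `s ↦ φ (μ {|h| > s})`. -/
noncomputable def dfun (μ : Measure Ω) (φ : ℝ≥0∞ → ℝ≥0∞) (h : Ω → ℝ) (s : ℝ) : ℝ≥0∞ :=
  φ (μ {ω | s < |h ω|})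

lemma antitone_dfun (hφm : Monotone φ) (h : Ω → ℝ) : Antitone (dfun μ φ h) := by
  intro s t hst
  exact hφm (measure_mono fun ω (hω : t < |h ω|) => lt_of_le_of_lt hst hω)

lemma dfun_congr {h k : Ω → ℝ} (hhk : h =ᵐ[μ] k) : dfun μ φ h = dfun μ φ k := by
  ext s
  unfold dfun
  congr 1
  refine measure_congr ?_
  filter_upwards [hhk] with ω hω
  show (s < |h ω|) = (s < |k ω|)
  rw [hω]

/-- The truncated average over `A`. -/
noncomputable def coord (μ : Measure Ω) (φ : ℝ≥0∞ → ℝ≥0∞) (A : Set Ω) (b : ℝ)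
    (h : Ω → ℝ) : ℝ :=
  (φ (μ A)).toReal / (μ A).toReal * ∫ ω in A, clip b (h ω) ∂μ

lemma integrable_clip {A : Set Ω} (hA : μ A ≠ ∞) {b : ℝ} (hb : 0 ≤ b) {h : Ω → ℝ}
    (hh : AEStronglyMeasurable h μ) : IntegrableOn (fun ω => clip b (h ω)) A μ := by
  have : IsFiniteMeasure (μ.restrict A) := ⟨by
    rw [Measure.restrict_apply_univ]; exact hA.lt_top⟩
  refine Integrable.of_bound (C := b) ?_ ?_
  · exact ((continuous_clip b).comp_aestronglyMeasurable hh).restrict
  · exact Filter.Eventually.of_forall fun ω => abs_clip_le hb _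

lemma coord_sub_le (hφm : Monotone φ) (hφc : ∀ a b, a ≤ b → b ≠ ∞ → a * φ b ≤ b * φ a)
    {A : Set Ω} (hAm : MeasurableSet A) (hA0 : μ A ≠ 0) (hA : μ A ≠ ∞) (hφA : φ (μ A) ≠ ∞)
    {b : ℝ} (hb : 0 ≤ b) {h k : Ω → ℝ} (hh : AEStronglyMeasurable h μ)
    (hk : AEStronglyMeasurable k μ) :
    ENNReal.ofReal |coord μ φ A b (fun ω => h ω + k ω) - coord μ φ A b h|
      ≤ ∫⁻ s in Ioo 0 (2 * b), min (φ (μ A)) (dfun μ φ k s) := by
  have hαpos : 0 < (μ A).toReal := ENNReal.toReal_pos hA0 hA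
  have hc : ENNReal.ofReal ((φ (μ A)).toReal / (μ A).toReal) = φ (μ A) / μ A := by
    rw [ENNReal.ofReal_div_of_pos hαpos, ENNReal.ofReal_toReal hφA, ENNReal.ofReal_toReal hA]
  have i1 := integrable_clip hA hb (hh.add hk)
  have i2 := integrable_clip hA hb hh
  have e1 : ENNReal.ofReal |coord μ φ A b (fun ω => h ω + k ω) - coord μ φ A b h|
      = φ (μ A) / μ A * ‖∫ ω in A, (clip b (h ω + k ω) - clip b (h ω)) ∂μ‖ₑ := by
    rw [coord, coord, ← mul_sub, abs_mul, ENNReal.ofReal_mul (abs_nonneg _),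
      abs_of_nonneg (by positivity : 0 ≤ (φ (μ A)).toReal / (μ A).toReal), hc,
      Real.enorm_eq_ofReal_abs]
    congr 3
    exact (integral_sub i1 i2).symm
  rw [e1]
  have hmeas : AEMeasurable (fun ω => min |k ω| (2 * b)) (μ.restrict A) :=
    (((continuous_abs.comp_aestronglyMeasurable hk).aemeasurable.min aemeasurable_const)).restrict
  have e2 : ‖∫ ω in A, (clip b (h ω + k ω) - clip b (h ω)) ∂μ‖ₑ
      ≤ ∫⁻ s in Ioi (0 : ℝ), (μ.restrict A) {ω | s < min |k ω| (2 * b)} := by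
    calc ‖∫ ω in A, (clip b (h ω + k ω) - clip b (h ω)) ∂μ‖ₑ
        ≤ ∫⁻ ω in A, ‖clip b (h ω + k ω) - clip b (h ω)‖ₑ ∂μ :=
          enorm_integral_le_lintegral_enorm _
      _ ≤ ∫⁻ ω in A, ENNReal.ofReal (min |k ω| (2 * b)) ∂μ := by
          refine lintegral_mono fun ω => ?_
          rw [Real.enorm_eq_ofReal_abs]
          exact ENNReal.ofReal_le_ofReal (abs_clip_add_sub_le hb _ _)
      _ = ∫⁻ s in Ioi (0 : ℝ), (μ.restrict A) {ω | s < min |k ω| (2 * b)} :=
          lintegral_eq_lintegral_meas_lt _ (Filter.Eventually.of_forall fun ω =>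
            le_min (abs_nonneg _) (by positivity)) hmeas
  calc φ (μ A) / μ A * ‖∫ ω in A, (clip b (h ω + k ω) - clip b (h ω)) ∂μ‖ₑ
      ≤ φ (μ A) / μ A * ∫⁻ s in Ioi (0 : ℝ), (μ.restrict A) {ω | s < min |k ω| (2 * b)} := by
        gcongr
    _ = ∫⁻ s in Ioi (0 : ℝ), φ (μ A) / μ A *
          (μ.restrict A) {ω | s < min |k ω| (2 * b)} := by
        rw [lintegral_const_mul' _ _ (ENNReal.div_ne_top hφA hA0)]
    _ ≤ ∫⁻ s in Ioi (0 : ℝ), (Ioo 0 (2 * b)).indicator
          (fun s => min (φ (μ A)) (dfun μ φ k s)) s := by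
        refine setLIntegral_mono' measurableSet_Ioi fun s hs => ?_
        by_cases hsb : s < 2 * b
        · rw [indicator_of_mem (by exact ⟨hs, hsb⟩)]
          have hset : {ω | s < min |k ω| (2 * b)} = {ω | s < |k ω|} := by
            ext ω
            simp only [lt_min_iff, mem_ofPred_eq]
            exact ⟨fun h => h.1, fun h => ⟨h, hsb⟩⟩
          rw [hset, Measure.restrict_apply' hAm]
          have hle : μ ({ω | s < |k ω|} ∩ A) ≤ μ A := measure_mono inter_subset_right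
          have key : φ (μ A) / μ A * μ ({ω | s < |k ω|} ∩ A) ≤ φ (μ ({ω | s < |k ω|} ∩ A)) := by
            have e3 : φ (μ A) / μ A * μ ({ω | s < |k ω|} ∩ A)
                = μ ({ω | s < |k ω|} ∩ A) * φ (μ A) / μ A := by
              rw [div_eq_mul_inv, div_eq_mul_inv]; ring
            rw [e3, ENNReal.div_le_iff hA0 hA, mul_comm (φ _) (μ A)]
            exact hφc _ _ hle hA
          refine le_min (key.trans (hφm hle)) (key.trans (hφm (measure_mono inter_subset_left)))
        · have hset : {ω | s < min |k ω| (2 * b)} = ∅ := by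
            ext ω
            simp only [lt_min_iff, mem_ofPred_eq, mem_empty_iff_false, iff_false, not_and]
            exact fun _ => hsb
          rw [hset, measure_empty, mul_zero]
          exact zero_le
    _ = ∫⁻ s in Ioo 0 (2 * b), min (φ (μ A)) (dfun μ φ k s) := by
        rw [lintegral_indicator measurableSet_Ioo, Measure.restrict_restrict measurableSet_Ioo]
        congr 2
        ext s
        simp only [mem_inter_iff, mem_Ioo, mem_Ioi]
        tauto

lemma min_split (Φ : ℝ≥0∞) (ψ : ℝ → ℝ≥0∞) (a b : ℝ) :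
    ∫⁻ s in Ioo 0 b, min Φ (ψ s) ≤ ENNReal.ofReal a * Φ + ∫⁻ s in Ioo a b, ψ s := by
  calc ∫⁻ s in Ioo 0 b, min Φ (ψ s)
      ≤ ∫⁻ s in Ioc 0 a ∪ Ioo a b, min Φ (ψ s) := by
        refine lintegral_mono_set fun s hs => ?_
        rcases le_or_gt s a with h | h
        · exact Or.inl ⟨hs.1, h⟩
        · exact Or.inr ⟨h, hs.2⟩
    _ ≤ (∫⁻ s in Ioc 0 a, min Φ (ψ s)) + ∫⁻ s in Ioo a b, min Φ (ψ s) :=
        lintegral_union_le _ _ _
    _ ≤ (∫⁻ _s in Ioc 0 a, Φ) + ∫⁻ s in Ioo a b, ψ s := by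
        gcongr
        · exact min_le_left _ _
        · exact min_le_right _ _
    _ = ENNReal.ofReal a * Φ + ∫⁻ s in Ioo a b, ψ s := by
        rw [setLIntegral_const, Real.volume_Ioc, sub_zero, mul_comm]

/-- The Lorentz functional of `h`. -/
noncomputable def lor (μ : Measure Ω) (φ : ℝ≥0∞ → ℝ≥0∞) (q : ℝ) (h : Ω → ℝ) : ℝ≥0∞ :=
  ∫⁻ s in Ioi (0 : ℝ), ENNReal.ofReal (s ^ (q - 1)) * φ (μ {ω | s < |h ω|}) ^ q

lemma lor_congr {q : ℝ} {h k : Ω → ℝ} (hhk : h =ᵐ[μ] k) : lor μ φ q h = lor μ φ q k := by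
  have := dfun_congr (φ := φ) hhk
  unfold lor
  refine lintegral_congr fun s => ?_
  have h1 := congrFun this s
  simp only [dfun] at h1
  rw [h1]

lemma lor_smul {q t : ℝ} (ht : 0 < t) (h : Ω → ℝ) :
    lor μ φ q (fun ω => t * h ω) = ENNReal.ofReal (t ^ q) * lor μ φ q h := by
  unfold lor
  rw [← lorentz_scale (fun s => φ (μ {ω | s < |h ω|}) ^ q) ht]
  refine lintegral_congr fun s => ?_
  have : {ω | s < |t * h ω|} = {ω | s / t < |h ω|} := by
    ext ω
    simp only [mem_ofPred_eq]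
    rw [abs_mul, abs_of_pos ht, div_lt_iff₀' ht]
  rw [this]

lemma lintegral_dfun_le (hφm : Monotone φ) {q : ℝ} (hq0 : 0 < q) (hq1 : q < 1) (h : Ω → ℝ) :
    ∫⁻ s in Ioi (0 : ℝ), dfun μ φ h s
      ≤ ENNReal.ofReal (2 ^ ((1 - q) / q)) * (lor μ φ q h) ^ (1 / q) := by
  refine lintegral_le_lorentz (antitone_dfun hφm h) hq0 hq1 measurableSet_Ioi ?_ subset_rfl
  intro t ht
  have ht' : 0 < t := ht
  exact ⟨ht', fun s hs => lt_trans (by positivity : 0 < t / 2) hs.1⟩

variable {E F : Type*} [AddCommGroup E] [Module ℝ E] [UniformSpace E] [IsUniformAddGroup E]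
  [ContinuousSMul ℝ E] [NormedAddCommGroup F] [NormedSpace ℝ F]

/-- Spaces with a bounded operator to a Lorentz space `Λ^q_φ`, `q < 1`, whose image of the unit
ball contains normalized indicator functions of disjoint sets of very different sizes, are not
uniform retracts of Banach spaces. -/
theorem not_retract_of_lorentz [CompleteSpace F] {f : E → F} {g : F → E}
    (hf : UniformContinuous f) (hg : UniformContinuous g) (hgf : ∀ x, g (f x) = x)
    {U : Set E} (hU : U ∈ 𝓝 (0 : E)) (hUb : IsVonNBounded ℝ U)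
    (hφm : Monotone φ) (hφc : ∀ a b, a ≤ b → b ≠ ∞ → a * φ b ≤ b * φ a)
    (hφ0 : ∀ a, a ≠ 0 → a ≠ ∞ → φ a ≠ 0 ∧ φ a ≠ ∞)
    {q : ℝ} (hq0 : 0 < q) (hq1 : q < 1) (T : E →ₗ[ℝ] (Ω →ₘ[μ] ℝ))
    {c : ℝ≥0∞} (hc : c ≠ ∞) (hT : ∀ u ∈ U, lor μ φ q (T u) ≤ c)
    (hA : ∀ (m : ℕ) (Λ : ℝ), ∃ (A : Fin m → Set Ω) (x : Fin m → E),
      (∀ i, MeasurableSet (A i)) ∧ Pairwise (Function.onFun Disjoint A) ∧
      (∀ i, μ (A i) ≠ 0 ∧ μ (A i) ≠ ∞) ∧
      (∀ i j, i < j → ENNReal.ofReal Λ * φ (μ (A i)) ≤ φ (μ (A j))) ∧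
      ∀ i, x i ∈ U ∧ (T (x i) : Ω → ℝ) =ᵐ[μ]
        (A i).indicator (fun _ => (φ (μ (A i))).toReal⁻¹)) : False := by
  classical
  have hq1' : 0 < 1 - q := by linarith
  set D0 : ℝ≥0∞ := ENNReal.ofReal (2 ^ ((1 - q) / q)) with hD0
  set κ0 : ℝ≥0∞ := D0 * c ^ (1 / q) with hκ0
  have hκ0t : κ0 ≠ ∞ := ENNReal.mul_ne_top ENNReal.ofReal_ne_top
    (ENNReal.rpow_ne_top_of_nonneg (by positivity) hc)
  -- bounds for the multiples of the elements of `U`
  have hlorC : ∀ t : ℝ, 0 < t → ∀ u ∈ U,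
      lor μ φ q (T (t • u)) ≤ ENNReal.ofReal (t ^ q) * c := by
    intro t ht u hu
    have e : (T (t • u) : Ω → ℝ) =ᵐ[μ] fun ω => t * (T u : Ω → ℝ) ω := by
      rw [map_smul]
      exact AEEqFun.coeFn_smul t (T u)
    rw [lor_congr e, lor_smul ht]
    gcongr
    exact hT u hu
  have hdC : ∀ t : ℝ, 0 < t → ∀ u ∈ U,
      ∫⁻ s in Ioi (0 : ℝ), dfun μ φ (T (t • u)) s ≤ ENNReal.ofReal t * κ0 := by
    intro t ht u hu
    refine (lintegral_dfun_le hφm hq0 hq1 _).trans ?_
    calc D0 * lor μ φ q (T (t • u)) ^ (1 / q)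
        ≤ D0 * (ENNReal.ofReal (t ^ q) * c) ^ (1 / q) := by
          gcongr
          exact hlorC t ht u hu
      _ = ENNReal.ofReal t * κ0 := by
          rw [ENNReal.mul_rpow_of_nonneg _ _ (by positivity),
            ENNReal.ofReal_rpow_of_nonneg (by positivity) (by positivity),
            ← Real.rpow_mul ht.le]
          have : q * (1 / q) = 1 := by field_simp
          rw [this, Real.rpow_one, hκ0]
          ring
  -- constants
  set κ : ℝ := 1 + κ0.toReal with hκ
  have hκpos : 0 ≤ κ := by positivity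
  obtain ⟨M, C, cN, hM, hC, hcN, hmain⟩ := nonlinear_projection hf hg hgf hU hUb (κ := κ)
    (δ := 1 / 2) hκpos (by norm_num)
  set c1 : ℝ := min 1 (cN / 2) with hc1
  have hc1pos : 0 < c1 := lt_min one_pos (by positivity)
  set K1 : ℝ≥0∞ := D0 ^ q * (ENNReal.ofReal (C ^ q) * c) with hK1
  have hK1t : K1 ≠ ∞ := ENNReal.mul_ne_top
    (ENNReal.rpow_ne_top_of_nonneg hq0.le ENNReal.ofReal_ne_top)
    (ENNReal.mul_ne_top ENNReal.ofReal_ne_top hc)
  set K2 : ℝ := K1.toReal / (cN / 2) ^ q with hK2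
  have hK2' : 0 ≤ K2 := by positivity
  obtain ⟨m, hm1, hmK⟩ : ∃ m : ℕ, 1 ≤ m ∧ 2 * K2 < (m : ℝ) ^ (1 - q) := by
    have h1 : Filter.Tendsto (fun n : ℕ => (n : ℝ) ^ (1 - q)) Filter.atTop Filter.atTop :=
      (tendsto_rpow_atTop hq1').comp tendsto_natCast_atTop_atTop
    obtain ⟨m, h2, h3⟩ := ((h1.eventually_gt_atTop (2 * K2)).and
      (Filter.eventually_ge_atTop 1)).exists
    exact ⟨m, h3, h2⟩
  have hm0 : (0 : ℝ) < m := by exact_mod_cast hm1
  obtain ⟨A, x, hAm, hAd, hAμ, hAΛ, hx⟩ := hA m (4 * m * M / c1)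
  set r : Fin m → ℝ := fun l => (φ (μ (A l))).toReal with hr
  have hφA : ∀ l, φ (μ (A l)) ≠ 0 ∧ φ (μ (A l)) ≠ ∞ := fun l =>
    hφ0 _ (hAμ l).1 (hAμ l).2
  have hrpos : ∀ l, 0 < r l := fun l => ENNReal.toReal_pos (hφA l).1 (hφA l).2
  have hrφ : ∀ l, ENNReal.ofReal (r l) = φ (μ (A l)) := fun l =>
    ENNReal.ofReal_toReal (hφA l).2
  have hrΛ : ∀ i j, i < j → 4 * m * M / c1 * r i ≤ r j := by
    intro i j hij
    have := hAΛ i j hij
    rw [← hrφ i, ← hrφ j, ← ENNReal.ofReal_mul (by positivity),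
      ENNReal.ofReal_le_ofReal_iff (hrpos j).le] at this
    exact this
  set a : Fin m → ℝ := fun l => c1 / (m * r l) with ha
  set b : Fin m → ℝ := fun l => 2 * (M / r l) with hb
  have hapos : ∀ l, 0 < a l := fun l => div_pos hc1pos (mul_pos hm0 (hrpos l))
  have hb0 : ∀ l, 0 ≤ M / r l := fun l => div_nonneg hM.le (hrpos l).le
  have haφ : ∀ l, ENNReal.ofReal (a l) * φ (μ (A l)) = ENNReal.ofReal (c1 / m) := by
    intro l
    rw [← hrφ l, ← ENNReal.ofReal_mul (hapos l).le]
    congr 1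
    have := (hrpos l).ne'
    simp only [ha]
    field_simp
  -- the windows are disjoint
  have hwin : Pairwise (Function.onFun Disjoint fun l => Ioo (a l / 2) (b l)) := by
    have aux : ∀ i j, i < j → b j ≤ a i / 2 := by
      intro i j hij
      have h1 := hrΛ i j hij
      have hri := hrpos i
      have hrj := hrpos j
      simp only [ha, hb]
      rw [div_mul_eq_mul_div, div_le_iff₀ hc1pos] at h1
      rw [← mul_div_assoc, div_div, div_le_div_iff₀ hrj (by positivity)]
      nlinarith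
    intro i j hij
    rcases lt_or_gt_of_ne hij with h | h
    · refine Set.disjoint_left.2 fun s hs1 hs2 => ?_
      have := aux i j h
      linarith [hs1.1, hs2.2]
    · refine Set.disjoint_left.2 fun s hs1 hs2 => ?_
      have := aux j i h
      linarith [hs1.2, hs2.1]
  -- the projection
  set P : E → EuclideanSpace ℝ (Fin m) := fun y =>
    WithLp.toLp 2 (fun l => coord μ φ (A l) (M / r l) (T y)) with hP
  have hPl : ∀ y l, P y l = coord μ φ (A l) (M / r l) (T y) := fun y l => rfl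
  have hcoord_congr : ∀ (B : Set Ω) (b : ℝ) (h k : Ω → ℝ), h =ᵐ[μ] k →
      coord μ φ B b h = coord μ φ B b k := by
    intro B b h k hhk
    unfold coord
    congr 1
    refine integral_congr_ae (ae_restrict_of_ae ?_)
    filter_upwards [hhk] with ω hω
    rw [hω]
  have hPsub : ∀ y u l, ENNReal.ofReal |P (y + u) l - P y l|
      ≤ ∫⁻ s in Ioo 0 (b l), min (φ (μ (A l))) (dfun μ φ (T u) s) := by
    intro y u l
    rw [hPl, hPl, hcoord_congr (A l) (M / r l) (T (y + u))
      (fun ω => (T y : Ω → ℝ) ω + (T u : Ω → ℝ) ω) (by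
        rw [map_add]
        exact AEEqFun.coeFn_add _ _)]
    exact coord_sub_le hφm hφc (hAm l) (hAμ l).1 (hAμ l).2 (hφA l).2 (hb0 l)
      (AEEqFun.aestronglyMeasurable _) (AEEqFun.aestronglyMeasurable _)
  have hPsub2 : ∀ y u l, ENNReal.ofReal |P (y + u) l - P y l|
      ≤ ENNReal.ofReal (c1 / m) + ∫⁻ s in Ioo (a l) (b l), dfun μ φ (T u) s := by
    intro y u l
    refine (hPsub y u l).trans ((min_split _ _ (a l) (b l)).trans ?_)
    rw [haφ l]
  have hPsub3 : ∀ y u l, ENNReal.ofReal |P (y + u) l - P y l|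
      ≤ ∫⁻ s in Ioi (0 : ℝ), dfun μ φ (T u) s := by
    intro y u l
    refine (hPsub y u l).trans ?_
    calc ∫⁻ s in Ioo 0 (b l), min (φ (μ (A l))) (dfun μ φ (T u) s)
        ≤ ∫⁻ s in Ioo 0 (b l), dfun μ φ (T u) s := lintegral_mono fun s => min_le_right _ _
      _ ≤ ∫⁻ s in Ioi (0 : ℝ), dfun μ φ (T u) s := lintegral_mono_set fun s hs => hs.1
  -- continuity
  have hPc : Continuous P := by
    refine (PiLp.continuous_toLp 2 _).comp (continuous_pi fun l => ?_)
    rw [continuous_iff_continuousAt]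
    intro y
    rw [Metric.continuousAt_iff']
    intro ε hε
    set t : ℝ := ε / (2 * (κ0.toReal + 1)) with ht
    have ht0 : 0 < t := by positivity
    have hnb : t • U ∈ 𝓝 (0 : E) := (set_smul_mem_nhds_zero_iff ht0.ne').2 hU
    have hten : Filter.Tendsto (fun z : E => z - y) (𝓝 y) (𝓝 0) := by
      have : Filter.Tendsto (fun z : E => z - y) (𝓝 y) (𝓝 (y - y)) :=
        (continuous_id.sub continuous_const).continuousAt
      rwa [sub_self] at this
    filter_upwards [hten hnb] with z hz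
    obtain ⟨u, hu, hue⟩ := hz
    have hz' : z = y + t • u := by
      have : t • u = z - y := hue
      rw [this]; abel
    have h1 := (hPsub3 y (t • u) l).trans (hdC t ht0 u hu)
    rw [← hz', ← ENNReal.ofReal_toReal hκ0t, ← ENNReal.ofReal_mul ht0.le,
      ENNReal.ofReal_le_ofReal_iff (by positivity)] at h1
    show dist (coord μ φ (A l) (M / r l) (T z)) (coord μ φ (A l) (M / r l) (T y)) < ε
    rw [Real.dist_eq]
    refine lt_of_le_of_lt h1 ?_
    rw [ht, div_mul_eq_mul_div, div_lt_iff₀ (by positivity)]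
    have : 0 ≤ κ0.toReal := ENNReal.toReal_nonneg
    nlinarith
  -- the Lipschitz bound
  have hPκ : ∀ y, ∀ u ∈ U, ∑ l, |P (y + u) l - P y l| ≤ κ := by
    intro y u hu
    have h1 : ENNReal.ofReal (∑ l, |P (y + u) l - P y l|) ≤ ENNReal.ofReal κ := by
      rw [ENNReal.ofReal_sum_of_nonneg fun _ _ => abs_nonneg _]
      calc ∑ l, ENNReal.ofReal |P (y + u) l - P y l|
          ≤ ∑ l, (ENNReal.ofReal (c1 / m) + ∫⁻ s in Ioo (a l) (b l), dfun μ φ (T u) s) :=
            Finset.sum_le_sum fun l _ => hPsub2 y u l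
        _ = ENNReal.ofReal c1 + ∑ l, ∫⁻ s in Ioo (a l) (b l), dfun μ φ (T u) s := by
            rw [Finset.sum_add_distrib, Finset.sum_const, Finset.card_univ, Fintype.card_fin,
              nsmul_eq_mul]
            congr 1
            rw [← ENNReal.ofReal_natCast, ← ENNReal.ofReal_mul hm0.le]
            congr 1
            field_simp
        _ ≤ ENNReal.ofReal 1 + ∫⁻ s in Ioi (0 : ℝ), dfun μ φ (T u) s := by
            refine add_le_add (ENNReal.ofReal_le_ofReal (min_le_left _ _)) ?_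
            rw [← lintegral_biUnion_finset (t := fun l => Ioo (a l) (b l))]
            · refine lintegral_mono_set ?_
              intro s hs
              simp only [mem_iUnion] at hs
              obtain ⟨l, _, hl⟩ := hs
              exact lt_trans (hapos l) hl.1
            · intro i _ j _ hij
              refine (hwin hij).mono ?_ ?_
              · exact Ioo_subset_Ioo_left (by linarith [hapos i])
              · exact Ioo_subset_Ioo_left (by linarith [hapos j])
            · exact fun l _ => measurableSet_Ioo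
        _ ≤ ENNReal.ofReal 1 + κ0 := by
            gcongr
            have := hdC 1 one_pos u hu
            rwa [one_smul, ENNReal.ofReal_one, one_mul] at this
        _ = ENNReal.ofReal κ := by
            rw [hκ, ENNReal.ofReal_add zero_le_one ENNReal.toReal_nonneg,
              ENNReal.ofReal_toReal hκ0t]
    exact (ENNReal.ofReal_le_ofReal_iff hκpos).1 h1
  -- the projection on the span of the `x l`
  have hTsum : ∀ (v : Fin m → ℝ) (s : Finset (Fin m)),
      (T (∑ j ∈ s, v j • x j) : Ω → ℝ) =ᵐ[μ]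
        fun ω => ∑ j ∈ s, v j * (A j).indicator (fun _ => (r j)⁻¹) ω := by
    intro v s
    induction s using Finset.induction_on with
    | empty =>
      simp only [Finset.sum_empty, map_zero]
      exact AEEqFun.coeFn_zero
    | insert i s hi ih =>
      rw [Finset.sum_insert hi, map_add, map_smul]
      filter_upwards [AEEqFun.coeFn_add (v i • T (x i)) (T (∑ j ∈ s, v j • x j)),
        AEEqFun.coeFn_smul (v i) (T (x i)), ih, (hx i).2] with ω h1 h2 h3 h4
      rw [h1, Finset.sum_insert hi, Pi.add_apply, h2, h3, Pi.smul_apply, h4, smul_eq_mul]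
  have hPJ : ∀ (v : Fin m → ℝ) (l : Fin m), P (∑ j, v j • x j) l = clip M (v l) := by
    intro v l
    rw [hPl]
    have h1 : ∫ ω in A l, clip (M / r l) ((T (∑ j, v j • x j) : Ω → ℝ) ω) ∂μ
        = ∫ _ω in A l, clip (M / r l) (v l / r l) ∂μ := by
      refine integral_congr_ae ?_
      filter_upwards [ae_restrict_of_ae (hTsum v Finset.univ), ae_restrict_mem (hAm l)]
        with ω h2 h3
      rw [h2]
      congr 1
      rw [Finset.sum_eq_single l]
      · rw [indicator_of_mem h3, div_eq_mul_inv]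
      · intro j _ hj
        rw [indicator_of_notMem, mul_zero]
        exact fun h4 => Set.disjoint_left.1 (hAd hj) h4 h3
      · intro h; exact absurd (Finset.mem_univ _) h
    have hαpos : 0 < (μ (A l)).toReal := ENNReal.toReal_pos (hAμ l).1 (hAμ l).2
    have h5 := clip_smul (b := M) (t := v l) (hrpos l)
    rw [coord, h1, setIntegral_const, smul_eq_mul, measureReal_def, ← h5]
    have h6 : (μ (A l)).toReal ≠ 0 := hαpos.ne'
    rw [div_mul_eq_mul_div, mul_left_comm, mul_div_assoc, mul_comm ((μ (A l)).toReal),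
      div_mul_cancel₀ _ h6]
  obtain ⟨y, u, hu, hcard⟩ := hmain m hm1 x (fun i => (hx i).1) P hPc hPκ
    (fun _ => clip M) (fun _ s t => abs_clip_sub_le M s t) (fun _ t ht => clip_eq ht) hPJ
  set S := Finset.univ.filter fun l => cN / m ≤ |P (y + C • u) l - P y l| with hS
  -- each such coordinate needs a piece of the Lorentz integral
  set W : Fin m → ℝ≥0∞ := fun l => ∫⁻ s in Ioo (a l / 2) (b l),
    ENNReal.ofReal (s ^ (q - 1)) * dfun μ φ (T (C • u)) s ^ q with hW
  have hWl : ∀ l ∈ S, ENNReal.ofReal ((cN / 2 / m) ^ q) ≤ D0 ^ q * W l := by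
    intro l hl
    have h1 : cN / m ≤ |P (y + C • u) l - P y l| := (Finset.mem_filter.1 hl).2
    have h2 := (ENNReal.ofReal_le_ofReal h1).trans (hPsub2 y (C • u) l)
    have h3 : ENNReal.ofReal (cN / 2 / m) ≤
        ∫⁻ s in Ioo (a l) (b l), dfun μ φ (T (C • u)) s := by
      have h4 : ENNReal.ofReal (c1 / m) ≤ ENNReal.ofReal (cN / 2 / m) := by
        refine ENNReal.ofReal_le_ofReal ?_
        gcongr
        exact min_le_right _ _
      have h5 : ENNReal.ofReal (cN / 2 / m) + ENNReal.ofReal (cN / 2 / m)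
          ≤ ENNReal.ofReal (cN / 2 / m) +
            ∫⁻ s in Ioo (a l) (b l), dfun μ φ (T (C • u)) s := by
        calc ENNReal.ofReal (cN / 2 / m) + ENNReal.ofReal (cN / 2 / m)
            = ENNReal.ofReal (cN / m) := by
              rw [← ENNReal.ofReal_add (by positivity) (by positivity)]
              congr 1; ring
          _ ≤ _ := h2.trans (by gcongr)
      exact (ENNReal.add_le_add_iff_left ENNReal.ofReal_ne_top).1 h5
    have h6 : ∫⁻ s in Ioo (a l) (b l), dfun μ φ (T (C • u)) s ≤ D0 * W l ^ (1 / q) := by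
      refine lintegral_le_lorentz (antitone_dfun hφm _) hq0 hq1 measurableSet_Ioo ?_ ?_
      · intro t ht
        have hal := hapos l
        refine ⟨lt_trans hal ht.1, fun s hs => ⟨?_, lt_of_le_of_lt hs.2 ht.2⟩⟩
        have : a l / 2 < t / 2 := by linarith [ht.1]
        linarith [hs.1]
      · exact Ioo_subset_Ioo_left (by linarith [hapos l])
    have h7 := ENNReal.rpow_le_rpow (h3.trans h6) hq0.le
    rw [ENNReal.mul_rpow_of_nonneg _ _ hq0.le, ← ENNReal.rpow_mul,
      ENNReal.ofReal_rpow_of_nonneg (by positivity) hq0.le] at h7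
    have : 1 / q * q = 1 := by field_simp
    rwa [this, ENNReal.rpow_one] at h7
  have hWsum : ∑ l ∈ S, W l ≤ ENNReal.ofReal (C ^ q) * c := by
    calc ∑ l ∈ S, W l = ∫⁻ s in ⋃ l ∈ S, Ioo (a l / 2) (b l),
          ENNReal.ofReal (s ^ (q - 1)) * dfun μ φ (T (C • u)) s ^ q := by
          rw [lintegral_biUnion_finset]
          · exact fun i _ j _ hij => hwin hij
          · exact fun l _ => measurableSet_Ioo
      _ ≤ lor μ φ q (T (C • u)) := by
          refine lintegral_mono_set ?_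
          intro s hs
          simp only [mem_iUnion] at hs
          obtain ⟨l, _, hl⟩ := hs
          exact lt_trans (by have := hapos l; positivity) hl.1
      _ ≤ ENNReal.ofReal (C ^ q) * c := hlorC C hC u hu
  have hfin : (S.card : ℝ) * (cN / 2 / m) ^ q ≤ K1.toReal := by
    have h1 : ENNReal.ofReal ((S.card : ℝ) * (cN / 2 / m) ^ q) ≤ K1 := by
      rw [ENNReal.ofReal_mul (Nat.cast_nonneg _), ENNReal.ofReal_natCast]
      calc (S.card : ℝ≥0∞) * ENNReal.ofReal ((cN / 2 / m) ^ q)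
          = ∑ _l ∈ S, ENNReal.ofReal ((cN / 2 / m) ^ q) := by
            rw [Finset.sum_const, nsmul_eq_mul]
        _ ≤ ∑ l ∈ S, D0 ^ q * W l := Finset.sum_le_sum hWl
        _ = D0 ^ q * ∑ l ∈ S, W l := by rw [Finset.mul_sum]
        _ ≤ K1 := by
            rw [hK1]
            gcongr
    rw [← ENNReal.ofReal_toReal hK1t] at h1
    exact (ENNReal.ofReal_le_ofReal_iff ENNReal.toReal_nonneg).1 h1
  have hcard' : (m : ℝ) / 2 ≤ S.card := by
    have : (1 - 1 / 2 : ℝ) * m = m / 2 := by ring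
    rw [← this]; exact hcard
  have h8 : (m : ℝ) ^ (1 - q) ≤ 2 * K2 := by
    have e1 : (cN / 2 / m) ^ q = (cN / 2) ^ q / (m : ℝ) ^ q :=
      Real.div_rpow (by positivity) hm0.le q
    have e2 : (m : ℝ) ^ (1 - q) = m / (m : ℝ) ^ q := by
      rw [Real.rpow_sub hm0, Real.rpow_one]
    have hmq : 0 < (m : ℝ) ^ q := Real.rpow_pos_of_pos hm0 _
    have hcq : 0 < (cN / 2) ^ q := Real.rpow_pos_of_pos (by positivity) _
    have h9 : (m : ℝ) / 2 * ((cN / 2) ^ q / (m : ℝ) ^ q) ≤ K1.toReal := by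
      rw [← e1]
      refine le_trans ?_ hfin
      gcongr
    rw [e2, hK2, ← mul_div_assoc, div_le_div_iff₀ hmq hcq]
    rw [← mul_div_assoc, div_le_iff₀ hmq] at h9
    linarith
  exact absurd h8 (not_le.2 hmK)

end Pool.Agent.Helper4_UH
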