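import Mathlib
import Pool.Agent.Helper4_UH.EllP

/-!
Spaces with an unconditional basis: distance to the Banach envelope on coordinate subspaces.
-/

open Set Topology Bornology MeasureTheory Metric
open scoped Pointwise

namespace Pool.Agent.Helper4_UH

/-- Separation of a constant vector from an open convex set which is closed downwards. -/
lemma exists_weights {κ : Type*} [Fintype κ] {W : Set (κ → ℝ)} (hWo : IsOpen W)
    (hWc : Convex ℝ W) (hWd : ∀ w ∈ W, ∀ w' : κ → ℝ, (∀ i, w' i ≤ w i) → w' ∈ W)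
    (hW1 : (fun _ => (-1 : ℝ)) ∈ W) {c : ℝ} (hc : 0 < c) (hcW : (fun _ => c) ∉ W) :
    ∃ μ : κ → ℝ, (∀ i, 0 ≤ μ i) ∧ ∑ i, μ i = 1 ∧ ∀ w ∈ W, ∑ i, μ i * w i ≤ c := by
  classical
  obtain ⟨f, hf⟩ := geometric_hahn_banach_open_point hWc hWo hcW
  set ν : κ → ℝ := fun i => f (Pi.single i 1) with hν
  have hfw : ∀ w : κ → ℝ, f w = ∑ i, ν i * w i := by
    intro w
    have h1 : w = ∑ i, w i • (Pi.single i (1 : ℝ) : κ → ℝ) := by
      ext j
      simp [Finset.sum_apply, Pi.single_apply]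
    conv_lhs => rw [h1]
    rw [map_sum]
    refine Finset.sum_congr rfl fun i _ => ?_
    rw [map_smul, smul_eq_mul, mul_comm]
  have hν0 : ∀ i, 0 ≤ ν i := by
    intro i
    by_contra hi
    push Not at hi
    set t : ℝ := (|f (fun _ => c)| + |f (fun _ => (-1 : ℝ))|) / (-ν i) with ht
    have ht0 : 0 ≤ t := div_nonneg (by positivity) (by linarith)
    have hmem : ((fun _ => (-1 : ℝ)) - t • (Pi.single i (1 : ℝ) : κ → ℝ)) ∈ W := by
      refine hWd _ hW1 _ fun j => ?_
      have : 0 ≤ (Pi.single i (1 : ℝ) : κ → ℝ) j := by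
        by_cases h : j = i
        · subst h; simp
        · simp [Pi.single_apply, h]
      simp only [Pi.sub_apply, Pi.smul_apply, smul_eq_mul]
      nlinarith
    have h1 := hf _ hmem
    rw [map_sub, map_smul, smul_eq_mul] at h1
    have h2 : t * f (Pi.single i 1) = -(|f (fun _ => c)| + |f (fun _ => (-1 : ℝ))|) := by
      rw [ht]
      have h3 : f (Pi.single i 1) = ν i := rfl
      rw [h3]
      have : ν i ≠ 0 := hi.ne
      field_simp
    rw [h2] at h1
    have h4 := neg_abs_le (f (fun _ => (-1 : ℝ)))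
    have h5 := le_abs_self (f (fun _ => c))
    linarith
  have hsum : 0 < ∑ i, ν i := by
    have h1 := hf _ hW1
    rw [hfw, hfw, ← Finset.sum_mul, ← Finset.sum_mul] at h1
    nlinarith
  refine ⟨fun i => ν i / ∑ j, ν j, fun i => div_nonneg (hν0 i) hsum.le, ?_, ?_⟩
  · rw [← Finset.sum_div, div_self hsum.ne']
  · intro w hw
    have h1 := (hf w hw).le
    rw [hfw, hfw, ← Finset.sum_mul] at h1
    have h2 : ∑ i, ν i / (∑ j, ν j) * w i = (∑ i, ν i * w i) / ∑ j, ν j := by
      rw [Finset.sum_div]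
      refine Finset.sum_congr rfl fun i _ => ?_
      ring
    rw [h2, div_le_iff₀ hsum]
    linarith

/-- If every nonempty subset of `S` has an element of small mass, then the total mass is at most
a multiple of the harmonic number. -/
lemma sum_le_harmonic {ι : Type*} (μ : ι → ℝ) (c : ℝ) (S : Finset ι)
    (h : ∀ T ⊆ S, T.Nonempty → ∃ i ∈ T, μ i < c / (T.card : ℝ)) :
    ∑ i ∈ S, μ i ≤ c * ((harmonic S.card : ℚ) : ℝ) := by
  classical
  induction S using Finset.strongInduction with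
  | H S ih =>
    rcases S.eq_empty_or_nonempty with rfl | hS
    · simp
    · obtain ⟨i, hi, hic⟩ := h S (Finset.Subset.refl S) hS
      have h1 := ih (S.erase i) (Finset.erase_ssubset hi)
        (fun T hT hTn => h T (hT.trans (Finset.erase_subset i S)) hTn)
      have h2 : S.card = (S.erase i).card + 1 := (Finset.card_erase_add_one hi).symm
      rw [← Finset.add_sum_erase S μ hi]
      have h3 : ((harmonic S.card : ℚ) : ℝ)
          = ((harmonic (S.erase i).card : ℚ) : ℝ) + (S.card : ℝ)⁻¹ := by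
        rw [h2, harmonic_succ]
        push_cast
        ring
      rw [h3, mul_add]
      have h4 : c * (S.card : ℝ)⁻¹ = c / (S.card : ℝ) := by rw [div_eq_mul_inv]
      rw [h4]
      linarith

lemma exists_level {ι : Type*} (μ : ι → ℝ) (S : Finset ι) (hS : S.Nonempty)
    (hμ : ∑ i ∈ S, μ i = 1) :
    ∃ T ⊆ S, T.Nonempty ∧ ∀ i ∈ T, 1 / ((1 + Real.log S.card) * T.card) ≤ μ i := by
  classical
  by_contra hcon
  push Not at hcon
  have hH : 0 < 1 + Real.log S.card := by
    have : 0 ≤ Real.log S.card := Real.log_natCast_nonneg _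
    linarith
  set c : ℝ := 1 / (1 + Real.log S.card) with hc
  have hc0 : 0 < c := by positivity
  have h : ∀ T ⊆ S, T.Nonempty → ∃ i ∈ T, μ i < c / (T.card : ℝ) := by
    intro T hT hTn
    obtain ⟨i, hi, hlt⟩ := hcon T hT hTn
    refine ⟨i, hi, ?_⟩
    rwa [hc, div_div]
  obtain ⟨i, hi, hic⟩ := h S (Finset.Subset.refl S) hS
  have h1 := sum_le_harmonic μ c (S.erase i)
    (fun T hT hTn => h T (hT.trans (Finset.erase_subset i S)) hTn)
  have h2 : S.card = (S.erase i).card + 1 := (Finset.card_erase_add_one hi).symm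
  rw [← Finset.add_sum_erase S μ hi] at hμ
  have h3 : ((harmonic S.card : ℚ) : ℝ)
      = ((harmonic (S.erase i).card : ℚ) : ℝ) + (S.card : ℝ)⁻¹ := by
    rw [h2, harmonic_succ]
    push_cast
    ring
  have h4 := harmonic_le_one_add_log S.card
  have h5 : c * (1 + Real.log S.card) = 1 := by
    rw [hc]; field_simp
  have h6 : c * ((harmonic S.card : ℚ) : ℝ) ≤ 1 := by
    rw [← h5]; gcongr
  rw [h3, mul_add] at h6
  have h7 : c * (S.card : ℝ)⁻¹ = c / (S.card : ℝ) := by rw [div_eq_mul_inv]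
  rw [h7] at h6
  linarith

/-- Lower bound for the volume of a set containing the unit cube. -/
lemma volume_cube_ge {n : ℕ} {D : Set (EuclideanSpace ℝ (Fin n))}
    (hD : ∀ v : EuclideanSpace ℝ (Fin n), (∀ i, 0 ≤ v i ∧ v i ≤ 1) → v ∈ D) :
    1 ≤ volume D := by
  have hmp := PiLp.volume_preserving_ofLp (Fin n)
  set B : Set (Fin n → ℝ) := Set.pi univ (fun _ => Icc (0 : ℝ) 1) with hB
  have hBm : MeasurableSet B := MeasurableSet.univ_pi fun _ => measurableSet_Icc
  have hvol : volume B = 1 := by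
    rw [hB, volume_pi_pi]
    simp
  have h1 := hmp.measure_preimage hBm.nullMeasurableSet
  rw [← hvol, ← h1]
  refine measure_mono ?_
  intro v hv
  exact hD v (fun i => hv i (mem_univ i))

variable {E F : Type*} [AddCommGroup E] [Module ℝ E] [UniformSpace E] [IsUniformAddGroup E]
  [ContinuousSMul ℝ E] [NormedAddCommGroup F] [NormedSpace ℝ F]

/-- The main estimate. -/
theorem log_convexity_aux [CompleteSpace F] {f : E → F} {g : F → E}
    (hf : UniformContinuous f) (hg : UniformContinuous g) (hgf : ∀ x, g (f x) = x)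
    {U : Set E} (hU : U ∈ 𝓝 (0 : E)) (hUb : IsVonNBounded ℝ U)
    {ι : Type*} {e : ι → E} {e' : ι → E →L[ℝ] ℝ}
    (h1 : ∀ i, e' i (e i) = 1) (h0 : ∀ i j, i ≠ j → e' i (e j) = 0)
    (hsol : ∀ u ∈ U, ∀ (S : Finset ι) (a : ι → ℝ), (∀ i ∈ S, |a i| ≤ |e' i u|) →
      ∑ i ∈ S, a i • e i ∈ U)
    {r : ℝ} (hr : 0 < r)
    (hcon : ∀ u ∈ U, ∀ v ∈ U, ∀ t ∈ Icc (0 : ℝ) 1, ∀ S : Finset ι,
      ∑ i ∈ S, (((1 - t) * |e' i u| ^ r + t * |e' i v| ^ r) ^ (1 / r)) • e i ∈ U) :
    ∃ A : ℝ, 0 < A ∧ ∀ (S : Finset ι) (a : ι → ℝ), S.Nonempty → (∀ i ∈ S, a i ≠ 0) →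
      ∑ i ∈ S, a i • e i ∈ convexHull ℝ U → ∀ R : ℝ, 0 < R →
      ∑ i ∈ S, (R⁻¹ * a i) • e i ∉ U → R ≤ A * (1 + Real.log S.card) ^ (1 / r) := by
  classical
  obtain ⟨C, hC0, hC⟩ := volume_obstruction_linear hf hg hgf hU hUb
  set G : ℝ := Real.Gamma (1 / r + 1) with hG
  have hG0 : 0 < G := Real.Gamma_pos_of_pos (by positivity)
  refine ⟨C * (Real.exp 1 * (2 * G)), by positivity, ?_⟩
  intro S a hS ha hx R hR hRx
  have hco : ∀ (T : Finset ι) (b : ι → ℝ), ∀ i ∈ T, e' i (∑ j ∈ T, b j • e j) = b i := by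
    intro T b i hi
    rw [map_sum, Finset.sum_eq_single i]
    · rw [map_smul, h1, smul_eq_mul, mul_one]
    · intro j _ hj
      rw [map_smul, h0 i j hj.symm, smul_zero]
    · intro h; exact absurd hi h
  set H : ℝ := 1 + Real.log S.card with hH
  have hH0 : 0 < H := by
    have : 0 ≤ Real.log S.card := Real.log_natCast_nonneg _
    linarith
  -- the weights
  set W : Set (S → ℝ) := {w | ∃ u ∈ U, ∀ i : S, w i < |e' i u / a i| ^ r} with hW
  have hWo : IsOpen W := by
    have : W = ⋃ u ∈ U, ⋂ i : S, {w : S → ℝ | w i < |e' i u / a i| ^ r} := by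
      ext w; simp [hW]
    rw [this]
    refine isOpen_biUnion fun u _ => isOpen_iInter_of_finite fun i => ?_
    exact isOpen_lt (continuous_apply i) continuous_const
  have hWd : ∀ w ∈ W, ∀ w' : S → ℝ, (∀ i, w' i ≤ w i) → w' ∈ W := by
    rintro w ⟨u, hu, hw⟩ w' hw'
    exact ⟨u, hu, fun i => (hw' i).trans_lt (hw i)⟩
  have hW1 : (fun _ => (-1 : ℝ)) ∈ W := by
    refine ⟨0, mem_of_mem_nhds hU, fun i => ?_⟩
    have : 0 ≤ |e' i (0 : E) / a i| ^ r := Real.rpow_nonneg (abs_nonneg _) _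
    linarith
  have hWc : Convex ℝ W := by
    rintro w ⟨u, hu, hw⟩ w' ⟨u', hu', hw'⟩ α β hα hβ hαβ
    refine ⟨∑ i ∈ S, (((1 - β) * |e' i u| ^ r + β * |e' i u'| ^ r) ^ (1 / r)) • e i,
      hcon u hu u' hu' β ⟨hβ, by linarith⟩ S, fun i => ?_⟩
    rw [hco S (fun i => ((1 - β) * |e' i u| ^ r + β * |e' i u'| ^ r) ^ (1 / r)) i i.2]
    have hα' : 1 - β = α := by linarith
    rw [hα']
    have hn : 0 ≤ α * |e' i u| ^ r + β * |e' i u'| ^ r := by positivity
    have hai : 0 < |a i| := abs_pos.2 (ha i i.2)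
    rw [abs_div, Real.div_rpow (abs_nonneg _) hai.le, abs_of_nonneg (Real.rpow_nonneg hn _),
      ← Real.rpow_mul hn, one_div_mul_cancel hr.ne', Real.rpow_one]
    have e1 := hw i
    have e2 := hw' i
    rw [abs_div, Real.div_rpow (abs_nonneg _) hai.le] at e1 e2
    rw [add_div, mul_div_assoc, mul_div_assoc]
    simp only [Pi.add_apply, Pi.smul_apply, smul_eq_mul]
    rcases hα.eq_or_lt with h | h
    · have : β = 1 := by linarith
      rw [← h, this]; simpa using e2
    · have e3 := mul_lt_mul_of_pos_left e1 h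
      have e4 := mul_le_mul_of_nonneg_left e2.le hβ
      linarith
  have hc : 0 < (R⁻¹) ^ r := Real.rpow_pos_of_pos (by positivity) _
  have hcW : (fun _ => (R⁻¹) ^ r) ∉ W := by
    rintro ⟨u, hu, hw⟩
    refine hRx (hsol u hu S _ fun i hi => ?_)
    have := hw ⟨i, hi⟩
    simp only at this
    have h2 : R⁻¹ < |e' i u / a i| :=
      (Real.rpow_lt_rpow_iff (by positivity) (abs_nonneg _) hr).1 this
    rw [abs_div, lt_div_iff₀ (abs_pos.2 (ha i hi))] at h2
    rw [abs_mul, abs_of_pos (inv_pos.2 hR)]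
    exact h2.le
  obtain ⟨μ, hμ0, hμ1, hμW⟩ := exists_weights hWo hWc hWd hW1 hc hcW
  have hμU : ∀ u ∈ U, ∑ i, μ i * |e' i u / a i| ^ r ≤ (R⁻¹) ^ r := by
    intro u hu
    refine le_of_forall_pos_le_add fun ε hε => ?_
    have h2 := hμW (fun i => |e' i u / a i| ^ r - ε) ⟨u, hu, fun i => by linarith⟩
    simp only [mul_sub, Finset.sum_sub_distrib, ← Finset.sum_mul, hμ1, one_mul] at h2
    linarith
  -- the level set
  obtain ⟨T', hT'S, hT'n, hT'⟩ := exists_level (fun i : S => μ i) Finset.univ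
    (by obtain ⟨i, hi⟩ := hS; exact ⟨⟨i, hi⟩, Finset.mem_univ _⟩) hμ1
  set k : ℕ := T'.card with hk
  have hk1 : 1 ≤ k := Finset.card_pos.2 hT'n
  have hk0 : (0 : ℝ) < k := by exact_mod_cast hk1
  have hcardS : (Finset.univ : Finset S).card = S.card := by simp
  rw [hcardS] at hT'
  set φ : Fin k → S := fun j => (T'.equivFin.symm j : S) with hφ
  have hφinj : Function.Injective φ := by
    intro i j hij
    exact T'.equivFin.symm.injective (Subtype.ext hij)
  have hφT : ∀ j, φ j ∈ T' := fun j => (T'.equivFin.symm j).2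
  have hsumφ : ∀ F' : S → ℝ, ∑ j, F' (φ j) = ∑ i ∈ T', F' i := by
    intro F'
    rw [← Finset.sum_coe_sort T' F']
    exact T'.equivFin.symm.sum_comp (fun i : T' => F' i)
  have hlev : ∀ u ∈ U, ∑ j, |e' (φ j) u / a (φ j)| ^ r ≤ H * k * (R⁻¹) ^ r := by
    intro u hu
    have h2 : ∑ j, |e' (φ j) u / a (φ j)| ^ r = ∑ i ∈ T', |e' i u / a i| ^ r :=
      hsumφ (fun i => |e' i u / a i| ^ r)
    rw [h2]
    have h3 : ∑ i ∈ T', |e' i u / a i| ^ r ≤ ∑ i ∈ T', (H * k) * (μ i * |e' i u / a i| ^ r) := by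
      refine Finset.sum_le_sum fun i hi => ?_
      have h4 := hT' i hi
      have h5 : 0 ≤ |e' i u / a i| ^ r := Real.rpow_nonneg (abs_nonneg _) _
      rw [div_le_iff₀ (by positivity)] at h4
      have h6 : 1 ≤ H * k * μ i := by linarith
      calc |e' i u / a i| ^ r = 1 * |e' i u / a i| ^ r := (one_mul _).symm
        _ ≤ (H * k * μ i) * |e' i u / a i| ^ r := by gcongr
        _ = _ := by ring
    refine h3.trans ?_
    rw [← Finset.mul_sum]
    refine mul_le_mul_of_nonneg_left ?_ (by positivity)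
    refine (Finset.sum_le_sum_of_subset_of_nonneg (Finset.subset_univ T') ?_).trans (hμU u hu)
    intro i _ _
    exact mul_nonneg (hμ0 i) (Real.rpow_nonneg (abs_nonneg _) _)
  -- the maps
  set J : EuclideanSpace ℝ (Fin k) →L[ℝ] E :=
    ∑ j, (EuclideanSpace.proj (𝕜 := ℝ) j).smulRight (a (φ j) • e (φ j)) with hJ
  have hJv : ∀ v, J v = ∑ j, (v j * a (φ j)) • e (φ j) := by
    intro v
    simp [hJ, smul_smul]
  set P : E →L[ℝ] EuclideanSpace ℝ (Fin k) :=
    ((EuclideanSpace.equiv (Fin k) ℝ).symm.toContinuousLinearMap).comp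
      (ContinuousLinearMap.pi fun j => (a (φ j))⁻¹ • e' (φ j)) with hP
  have hPv : ∀ x j, P x j = e' (φ j) x / a (φ j) := by
    intro x j
    simp [hP, div_eq_inv_mul]
  have hPJ : ∀ v, P (J v) = v := by
    intro v
    ext j
    rw [hPv, hJv, map_sum, Finset.sum_eq_single j]
    · rw [map_smul, h1, smul_eq_mul, mul_one, mul_div_assoc, div_self (ha _ (φ j).2), mul_one]
    · intro l _ hl
      rw [map_smul, h0 (φ j) (φ l), smul_zero]
      intro h
      exact hl (hφinj (Subtype.ext h)).symm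
    · intro h; exact absurd (Finset.mem_univ j) h
  have hvol := hC k J P hPJ
  -- lower bound
  have hlow : 1 ≤ volume (J ⁻¹' (convexHull ℝ U)) := by
    refine volume_cube_ge fun v hv => ?_
    show J v ∈ convexHull ℝ U
    set A : E →ₗ[ℝ] E := ∑ j, (e' (φ j)).toLinearMap.smulRight (v j • e (φ j)) with hA
    have hAz : ∀ z, A z = ∑ j, (v j * e' (φ j) z) • e (φ j) := by
      intro z
      simp only [hA, LinearMap.sum_apply, LinearMap.smulRight_apply,
        ContinuousLinearMap.coe_coe, smul_smul]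
      refine Finset.sum_congr rfl fun j _ => ?_
      rw [mul_comm]
    -- extension of `v` to all indices
    set w : ι → ℝ := fun i => if h : ∃ j, (φ j : ι) = i then v h.choose else 0 with hw
    have hwφ : ∀ j, w (φ j) = v j := by
      intro j
      have h : ∃ j', (φ j' : ι) = φ j := ⟨j, rfl⟩
      have h2 : h.choose = j := hφinj (Subtype.ext h.choose_spec)
      simp only [hw, dif_pos h, h2]
    set T : Finset ι := T'.map ⟨fun i : S => (i : ι), Subtype.val_injective⟩ with hT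
    have hsumE : ∀ b : ι → ℝ, ∑ j, b (φ j) • e (φ j) = ∑ i ∈ T, b i • e i := by
      intro b
      rw [hT, Finset.sum_map, ← Finset.sum_coe_sort T']
      exact T'.equivFin.symm.sum_comp (fun i : T' => b (i : S) • e (i : S))
    have hAU : A '' U ⊆ U := by
      rintro - ⟨u, hu, rfl⟩
      rw [hAz]
      have h2 : ∑ j, (v j * e' (φ j) u) • e (φ j) = ∑ i ∈ T, (w i * e' i u) • e i := by
        rw [← hsumE]
        refine Finset.sum_congr rfl fun j _ => ?_
        rw [hwφ]
      rw [h2]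
      refine hsol u hu T _ fun i hi => ?_
      have hi' : ∃ j, (φ j : ι) = i := by
        rw [hT, Finset.mem_map] at hi
        obtain ⟨i', hi', rfl⟩ := hi
        refine ⟨T'.equivFin ⟨i', hi'⟩, ?_⟩
        simp [hφ]
      obtain ⟨j, rfl⟩ := hi'
      rw [hwφ, abs_mul, abs_of_nonneg (hv j).1]
      have := mul_le_mul_of_nonneg_right (hv j).2 (abs_nonneg (e' (φ j) u))
      linarith
    have h3 : A (∑ i ∈ S, a i • e i) ∈ convexHull ℝ U := by
      have h4 : A (∑ i ∈ S, a i • e i) ∈ A '' convexHull ℝ U := mem_image_of_mem _ hx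
      rw [LinearMap.image_convexHull] at h4
      exact convexHull_mono hAU h4
    rw [hAz] at h3
    rw [hJv]
    convert h3 using 3 with j
    rw [hco S a (φ j) (φ j).2]
  -- upper bound
  set s : ℝ := R ^ r / H with hs
  have hs0 : 0 < s := by
    have : 0 < R ^ r := Real.rpow_pos_of_pos hR _
    positivity
  have hup : volume (P '' U) ≤ ENNReal.ofReal
      (Real.exp (s * (H * k * (R⁻¹) ^ r)) * (2 * (s ^ (-1 / r) * G)) ^ k) := by
    refine (measure_mono ?_).trans (volume_lp_ball_le (c := H * k * (R⁻¹) ^ r) hr hs0 k)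
    rintro - ⟨u, hu, rfl⟩
    show ∑ i, |P u i| ^ r ≤ H * k * (R⁻¹) ^ r
    simp_rw [hPv]
    exact hlev u hu
  have h2 : (1 : ENNReal) ≤ ENNReal.ofReal (C ^ k *
      (Real.exp (s * (H * k * (R⁻¹) ^ r)) * (2 * (s ^ (-1 / r) * G)) ^ k)) := by
    rw [ENNReal.ofReal_mul (by positivity)]
    exact hlow.trans (hvol.trans (by gcongr))
  rw [← ENNReal.ofReal_one, ENNReal.ofReal_le_ofReal_iff (by positivity)] at h2
  have hRr : R ^ r * (R⁻¹) ^ r = 1 := by
    rw [← Real.mul_rpow hR.le (by positivity), mul_inv_cancel₀ hR.ne', Real.one_rpow]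
  have e1 : s * (H * k * (R⁻¹) ^ r) = k := by
    rw [hs]
    calc R ^ r / H * (H * k * (R⁻¹) ^ r) = (R ^ r * (R⁻¹) ^ r) * k * (H / H) := by ring
      _ = k := by rw [hRr, div_self hH0.ne']; ring
  have e2 : s ^ (-1 / r) = H ^ (1 / r) / R := by
    rw [hs, neg_div, Real.rpow_neg (by positivity), Real.div_rpow (by positivity) hH0.le,
      ← Real.rpow_mul hR.le, mul_one_div_cancel hr.ne', Real.rpow_one, inv_div]
  have e3 : C ^ k * (Real.exp (s * (H * k * (R⁻¹) ^ r)) * (2 * (s ^ (-1 / r) * G)) ^ k)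
      = (C * (Real.exp 1 * (2 * G)) * H ^ (1 / r) / R) ^ k := by
    rw [e1, e2]
    have : Real.exp k = (Real.exp 1) ^ k := by
      rw [← Real.exp_nat_mul, mul_one]
    rw [this, ← mul_pow, ← mul_pow]
    congr 1
    ring
  rw [e3] at h2
  have h3 : 1 ≤ C * (Real.exp 1 * (2 * G)) * H ^ (1 / r) / R := by
    by_contra hlt
    push Not at hlt
    have : 0 < H ^ (1 / r) := Real.rpow_pos_of_pos hH0 _
    have h4 := pow_lt_one₀ (by positivity) hlt (by omega : k ≠ 0)
    linarith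
  rw [le_div_iff₀ hR, one_mul] at h3
  exact h3

/-- Distance to the Banach envelope for spaces with an `r`-convex unconditional basis. -/
theorem log_convexity [CompleteSpace F] {f : E → F} {g : F → E}
    (hf : UniformContinuous f) (hg : UniformContinuous g) (hgf : ∀ x, g (f x) = x)
    {U : Set E} (hU : U ∈ 𝓝 (0 : E)) (hUb : IsVonNBounded ℝ U)
    {ι : Type*} {e : ι → E} {e' : ι → E →L[ℝ] ℝ}
    (h1 : ∀ i, e' i (e i) = 1) (h0 : ∀ i j, i ≠ j → e' i (e j) = 0)
    (hsol : ∀ u ∈ U, ∀ (S : Finset ι) (a : ι → ℝ), (∀ i ∈ S, |a i| ≤ |e' i u|) →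
      ∑ i ∈ S, a i • e i ∈ U)
    {r : ℝ} (hr : 0 < r)
    (hcon : ∀ u ∈ U, ∀ v ∈ U, ∀ t ∈ Icc (0 : ℝ) 1, ∀ S : Finset ι,
      ∑ i ∈ S, (((1 - t) * |e' i u| ^ r + t * |e' i v| ^ r) ^ (1 / r)) • e i ∈ U) :
    ∃ C : ℝ, 0 < C ∧ ∀ (S : Finset ι) (a : ι → ℝ), S.Nonempty →
      ∑ i ∈ S, a i • e i ∈ convexHull ℝ U →
      ∑ i ∈ S, a i • e i ∈ (C * (1 + Real.log S.card) ^ (1 / r)) • U := by
  classical
  obtain ⟨A, hA0, hA⟩ := log_convexity_aux hf hg hgf hU hUb h1 h0 hsol hr hcon
  refine ⟨A + 1, by positivity, fun S a hS hx => ?_⟩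
  have hH0 : 0 < 1 + Real.log S.card := by
    have : 0 ≤ Real.log S.card := Real.log_natCast_nonneg _
    linarith
  set R : ℝ := (A + 1) * (1 + Real.log S.card) ^ (1 / r) with hR
  have hHp : 0 < (1 + Real.log S.card) ^ (1 / r) := Real.rpow_pos_of_pos hH0 _
  have hR0 : 0 < R := by positivity
  rw [Set.mem_smul_set_iff_inv_smul_mem₀ hR0.ne', Finset.smul_sum]
  simp_rw [smul_smul]
  set S' : Finset ι := S.filter (fun i => a i ≠ 0) with hS'
  have hred : ∀ c : ℝ, ∑ i ∈ S, (c * a i) • e i = ∑ i ∈ S', (c * a i) • e i := by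
    intro c
    rw [hS', Finset.sum_filter]
    refine Finset.sum_congr rfl fun i _ => ?_
    by_cases h : a i = 0 <;> simp [h]
  rw [hred]
  by_contra hnot
  have hS'n : S'.Nonempty := by
    by_contra h
    rw [Finset.not_nonempty_iff_eq_empty] at h
    rw [h] at hnot
    exact hnot (by simpa using mem_of_mem_nhds hU)
  have hx' : ∑ i ∈ S', a i • e i ∈ convexHull ℝ U := by
    have := hred 1
    simp only [one_mul] at this
    rwa [← this]
  have h2 := hA S' a hS'n (fun i hi => (Finset.mem_filter.1 hi).2) hx' R hR0 hnot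
  have hcard : (S'.card : ℝ) ≤ S.card := by
    exact_mod_cast Finset.card_le_card (Finset.filter_subset _ _)
  have hc0 : (0 : ℝ) < S'.card := by exact_mod_cast Finset.card_pos.2 hS'n
  have hlog : Real.log S'.card ≤ Real.log S.card := Real.log_le_log hc0 hcard
  have hlog0 : 0 ≤ Real.log S'.card := Real.log_natCast_nonneg _
  have h3 : (1 + Real.log S'.card) ^ (1 / r) ≤ (1 + Real.log S.card) ^ (1 / r) :=
    Real.rpow_le_rpow (by linarith) (by linarith) (by positivity)
  have h4 : A * (1 + Real.log S'.card) ^ (1 / r) ≤ A * (1 + Real.log S.card) ^ (1 / r) := by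
    gcongr
  have h5 : R = A * (1 + Real.log S.card) ^ (1 / r) + (1 + Real.log S.card) ^ (1 / r) := by
    rw [hR]; ring
  linarith

end Pool.Agent.Helper4_UH
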