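import Mathlib
import Pool.Agent.Helper4_UH.Unconditional

/-!
Orlicz sequence spaces.
-/

open Set Topology Bornology MeasureTheory Metric
open scoped Pointwise

namespace Pool.Agent.Helper4_UH

section Modular

variable {E : Type*} [AddCommGroup E] [Module ℝ E] [TopologicalSpace E]

/-- The set of vectors of modular at most one. -/
def modBall {ι : Type*} (M : ℝ → ℝ) (e' : ι → E →L[ℝ] ℝ) : Set E :=
  {x | ∀ S : Finset ι, ∑ i ∈ S, M |e' i x| ≤ 1}

variable {ι : Type*} {M : ℝ → ℝ} {e : ι → E} {e' : ι → E →L[ℝ] ℝ}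

lemma coord_sum (h1 : ∀ i, e' i (e i) = 1) (h0 : ∀ i j, i ≠ j → e' i (e j) = 0)
    (T : Finset ι) (b : ι → ℝ) (k : ι) [DecidableEq ι] :
    e' k (∑ i ∈ T, b i • e i) = if k ∈ T then b k else 0 := by
  rw [map_sum]
  split_ifs with h
  · rw [Finset.sum_eq_single k]
    · rw [map_smul, h1, smul_eq_mul, mul_one]
    · intro j _ hj
      rw [map_smul, h0 k j hj.symm, smul_zero]
    · intro h'; exact absurd h h'
  · refine Finset.sum_eq_zero fun j hj => ?_
    have : k ≠ j := fun hkj => h (hkj ▸ hj)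
    rw [map_smul, h0 k j this, smul_zero]

lemma sum_mem_modBall (h1 : ∀ i, e' i (e i) = 1) (h0 : ∀ i j, i ≠ j → e' i (e j) = 0)
    (hM0 : M 0 = 0) (T : Finset ι) (b : ι → ℝ) (m : ℕ) (hT : T.card ≤ m) (hm : 0 < m)
    (hb : ∀ i ∈ T, M |b i| ≤ 1 / (m : ℝ)) :
    ∑ i ∈ T, b i • e i ∈ modBall M e' := by
  classical
  intro S
  have hm' : (0 : ℝ) < m := by exact_mod_cast hm
  calc ∑ k ∈ S, M |e' k (∑ i ∈ T, b i • e i)|
      = ∑ k ∈ S, (if k ∈ T then M |b k| else 0) := by
        refine Finset.sum_congr rfl fun k _ => ?_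
        rw [coord_sum h1 h0]
        split_ifs
        · rfl
        · rw [abs_zero, hM0]
    _ = ∑ k ∈ S ∩ T, M |b k| := by
        rw [Finset.sum_ite_mem]
    _ ≤ ∑ _k ∈ S ∩ T, 1 / (m : ℝ) :=
        Finset.sum_le_sum fun k hk => hb k (Finset.mem_inter.1 hk).2
    _ = ((S ∩ T).card : ℝ) * (1 / (m : ℝ)) := by
        rw [Finset.sum_const, nsmul_eq_mul]
    _ ≤ (m : ℝ) * (1 / (m : ℝ)) := by
        have : ((S ∩ T).card : ℝ) ≤ m := by
          exact_mod_cast (Finset.card_le_card Finset.inter_subset_right).trans hT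
        gcongr
    _ = 1 := by field_simp

end Modular

/-- Averages of a function over the shifts of a window. -/
lemma window_average {V : Type*} [AddCommGroup V] [Module ℝ V] {n m : ℕ} [NeZero n] (hm : 0 < m)
    (hmn : m ≤ n) (w : Fin n → V) :
    ∑ l : Fin n, (1 / (n : ℝ)) • ∑ i : Fin m, ((n : ℝ) / m) • w (l + Fin.castLE hmn i)
      = ∑ j, w j := by
  have hn : (n : ℝ) ≠ 0 := by exact_mod_cast NeZero.ne n
  have hm' : (m : ℝ) ≠ 0 := by exact_mod_cast hm.ne'
  have h1 : ∀ i : Fin m, ∑ l : Fin n, w (l + Fin.castLE hmn i) = ∑ j, w j := by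
    intro i
    exact Equiv.sum_comp (Equiv.addRight (Fin.castLE hmn i)) w
  calc ∑ l : Fin n, (1 / (n : ℝ)) • ∑ i : Fin m, ((n : ℝ) / m) • w (l + Fin.castLE hmn i)
      = ∑ l : Fin n, ∑ i : Fin m, (1 / (m : ℝ)) • w (l + Fin.castLE hmn i) := by
        refine Finset.sum_congr rfl fun l _ => ?_
        rw [Finset.smul_sum]
        refine Finset.sum_congr rfl fun i _ => ?_
        rw [smul_smul]
        congr 1
        field_simp
    _ = ∑ i : Fin m, ∑ l : Fin n, (1 / (m : ℝ)) • w (l + Fin.castLE hmn i) := Finset.sum_comm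
    _ = ∑ i : Fin m, (1 / (m : ℝ)) • ∑ j, w j := by
        refine Finset.sum_congr rfl fun i _ => ?_
        rw [← Finset.smul_sum, h1]
    _ = ∑ j, w j := by
        rw [Finset.sum_const, Finset.card_univ, Fintype.card_fin, ← Nat.cast_smul_eq_nsmul ℝ,
          smul_smul, mul_one_div_cancel hm', one_smul]

/-- Lower bound for the volume of a set containing a cube. -/
lemma volume_cube_ge' {n : ℕ} {t : ℝ} (ht : 0 ≤ t) {D : Set (EuclideanSpace ℝ (Fin n))}
    (hD : ∀ v : EuclideanSpace ℝ (Fin n), (∀ i, 0 ≤ v i ∧ v i ≤ t) → v ∈ D) :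
    ENNReal.ofReal (t ^ n) ≤ volume D := by
  have hmp := PiLp.volume_preserving_ofLp (Fin n)
  set B : Set (Fin n → ℝ) := Set.pi univ (fun _ => Icc (0 : ℝ) t) with hB
  have hBm : MeasurableSet B := MeasurableSet.univ_pi fun _ => measurableSet_Icc
  have hvol : volume B = ENNReal.ofReal (t ^ n) := by
    rw [hB, volume_pi_pi, ENNReal.ofReal_pow ht]
    simp
  have h1 := hmp.measure_preimage hBm.nullMeasurableSet
  rw [← hvol, ← h1]
  refine measure_mono ?_
  intro v hv
  exact hD v (fun i => hv i (mem_univ i))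

variable {E F : Type*} [AddCommGroup E] [Module ℝ E] [UniformSpace E] [IsUniformAddGroup E]
  [ContinuousSMul ℝ E] [NormedAddCommGroup F] [NormedSpace ℝ F]

/-- The volume argument for Orlicz sequence spaces. -/
theorem orlicz_discrete [CompleteSpace F] {f : E → F} {g : F → E}
    (hf : UniformContinuous f) (hg : UniformContinuous g) (hgf : ∀ x, g (f x) = x)
    {ι : Type*} [Infinite ι] {M : ℝ → ℝ} {e : ι → E} {e' : ι → E →L[ℝ] ℝ}
    (h1 : ∀ i, e' i (e i) = 1) (h0 : ∀ i j, i ≠ j → e' i (e j) = 0)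
    (hMn : ∀ t, 0 ≤ t → 0 ≤ M t) (hMm : ∀ s t, 0 ≤ s → s ≤ t → M s ≤ M t)
    {K r : ℝ} (hK : 0 < K) (hr : 0 < r)
    (hMr : ∀ a t, 0 ≤ a → a ≤ 1 → 0 ≤ t → M (a * t) ≤ K * a ^ r * M t)
    (hU : modBall M e' ∈ 𝓝 (0 : E)) (hUb : IsVonNBounded ℝ (modBall M e')) :
    ∃ C : ℝ, 1 ≤ C ∧ ∀ (m n : ℕ) (s : ℝ), 0 < m → m ≤ n → 0 ≤ s → M s ≤ 1 / (m : ℝ) →
      M (s * m / (C * n)) ≤ 1 / (n : ℝ) := by
  classical
  obtain ⟨C, hC0, hC⟩ := volume_obstruction_linear hf hg hgf hU hUb
  set G : ℝ := Real.Gamma (1 / r + 1) with hG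
  have hG0 : 0 < G := Real.Gamma_pos_of_pos (by positivity)
  have hK1 : 0 < (1 + K) ^ (1 / r) := Real.rpow_pos_of_pos (by positivity) _
  set A : ℝ := C * (Real.exp 1 * (2 * ((1 + K) ^ (1 / r) * G))) with hA
  have hA0 : 0 < A := by positivity
  have hM0 : M 0 = 0 := by
    have h2 := hMr 0 0 le_rfl zero_le_one le_rfl
    rw [Real.zero_rpow hr.ne'] at h2
    simp only [mul_zero, zero_mul] at h2
    exact le_antisymm h2 (hMn 0 le_rfl)
  refine ⟨A + 1, by linarith, ?_⟩
  intro m n s hm hmn hs hMs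
  have hn : 0 < n := lt_of_lt_of_le hm hmn
  haveI : NeZero n := ⟨hn.ne'⟩
  have hm' : (0 : ℝ) < m := by exact_mod_cast hm
  have hn' : (0 : ℝ) < n := by exact_mod_cast hn
  rcases hs.eq_or_lt with h | hs0
  · rw [← h]; simp [hM0]
  by_contra hcon
  push Not at hcon
  set a : ℝ := s * m / ((A + 1) * n) with ha
  have ha0 : 0 < a := by positivity
  set φ : Fin n → ι := fun j => Infinite.natEmbedding ι (j : ℕ) with hφ
  have hφinj : Function.Injective φ := by
    intro i j hij
    exact Fin.ext ((Infinite.natEmbedding ι).injective hij)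
  -- the maps
  set J : EuclideanSpace ℝ (Fin n) →L[ℝ] E :=
    ∑ j, (EuclideanSpace.proj (𝕜 := ℝ) j).smulRight (e (φ j)) with hJ
  have hJv : ∀ v, J v = ∑ j, v j • e (φ j) := by
    intro v
    simp [hJ]
  set P : E →L[ℝ] EuclideanSpace ℝ (Fin n) :=
    ((EuclideanSpace.equiv (Fin n) ℝ).symm.toContinuousLinearMap).comp
      (ContinuousLinearMap.pi fun j => e' (φ j)) with hP
  have hPv : ∀ x j, P x j = e' (φ j) x := by
    intro x j
    simp [hP]
  have hPJ : ∀ v, P (J v) = v := by
    intro v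
    ext j
    rw [hPv, hJv, map_sum, Finset.sum_eq_single j]
    · rw [map_smul, h1, smul_eq_mul, mul_one]
    · intro l _ hl
      rw [map_smul, h0 (φ j) (φ l), smul_zero]
      intro h
      exact hl (hφinj h).symm
    · intro h; exact absurd (Finset.mem_univ j) h
  have hvol := hC n J P hPJ
  -- lower bound
  have hlow : ENNReal.ofReal ((s * m / n) ^ n) ≤ volume (J ⁻¹' (convexHull ℝ (modBall M e'))) := by
    refine volume_cube_ge' (by positivity) fun v hv => ?_
    show J v ∈ convexHull ℝ (modBall M e')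
    rw [hJv, ← window_average hm hmn (fun j => v j • e (φ j))]
    refine (convex_convexHull ℝ _).sum_mem (fun _ _ => by positivity) ?_ ?_
    · rw [Finset.sum_const, Finset.card_univ, Fintype.card_fin, nsmul_eq_mul]
      field_simp
    · intro l _
      refine subset_convexHull ℝ _ ?_
      -- rewrite as a sum over a finset of indices
      set w : ι → ℝ := fun i => if h : ∃ j, φ j = i then v h.choose else 0 with hw
      have hwφ : ∀ j, w (φ j) = v j := by
        intro j
        have h : ∃ j', φ j' = φ j := ⟨j, rfl⟩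
        have h2 : h.choose = j := hφinj h.choose_spec
        simp only [hw, dif_pos h, h2]
      have hψ : Function.Injective (fun i : Fin m => φ (l + Fin.castLE hmn i)) := by
        intro i j hij
        have := hφinj hij
        exact Fin.castLE_injective hmn (add_left_cancel this)
      set T : Finset ι := Finset.univ.map ⟨fun i : Fin m => φ (l + Fin.castLE hmn i), hψ⟩ with hT
      have e1 : ∑ i : Fin m, ((n : ℝ) / m) • v (l + Fin.castLE hmn i) •
          e (φ (l + Fin.castLE hmn i)) = ∑ i ∈ T, ((n : ℝ) / m * w i) • e i := by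
        rw [hT, Finset.sum_map]
        refine Finset.sum_congr rfl fun i _ => ?_
        simp only [Function.Embedding.coeFn_mk]
        rw [hwφ, smul_smul]
      rw [e1]
      refine sum_mem_modBall h1 h0 hM0 T _ m ?_ hm ?_
      · rw [hT, Finset.card_map, Finset.card_univ, Fintype.card_fin]
      · intro i hi
        rw [hT, Finset.mem_map] at hi
        obtain ⟨i', -, rfl⟩ := hi
        simp only [Function.Embedding.coeFn_mk]
        rw [hwφ]
        refine (hMm _ s (abs_nonneg _) ?_).trans hMs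
        obtain ⟨h2, h3⟩ := hv (l + Fin.castLE hmn i')
        rw [abs_of_nonneg (by positivity)]
        calc (n : ℝ) / m * v (l + Fin.castLE hmn i') ≤ (n : ℝ) / m * (s * m / n) := by gcongr
          _ = s := by field_simp
  -- upper bound
  have hup : volume (P '' modBall M e') ≤ ENNReal.ofReal
      (Real.exp ((1 / ((1 + K) * a ^ r)) * (n * (1 + K) * a ^ r)) *
        (2 * ((1 / ((1 + K) * a ^ r)) ^ (-1 / r) * G)) ^ n) := by
    have har : 0 < a ^ r := Real.rpow_pos_of_pos ha0 _
    refine (measure_mono ?_).trans (volume_lp_ball_le (c := n * (1 + K) * a ^ r) hr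
      (s := 1 / ((1 + K) * a ^ r)) (by positivity) n)
    rintro - ⟨u, hu, rfl⟩
    show ∑ i, |P u i| ^ r ≤ n * (1 + K) * a ^ r
    simp_rw [hPv]
    have h3 : ∀ j, |e' (φ j) u| ^ r ≤ a ^ r + K * n * a ^ r * M |e' (φ j) u| := by
      intro j
      have hMj := hMn _ (abs_nonneg (e' (φ j) u))
      rcases le_or_gt (|e' (φ j) u|) a with h | h
      · have h4 : |e' (φ j) u| ^ r ≤ a ^ r := Real.rpow_le_rpow (abs_nonneg _) h hr.le
        have h5 : 0 ≤ K * n * a ^ r * M |e' (φ j) u| := by positivity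
        linarith
      · have hpos : 0 < |e' (φ j) u| := ha0.trans h
        have hpr : 0 < |e' (φ j) u| ^ r := Real.rpow_pos_of_pos hpos _
        have h4 := hMr (a / |e' (φ j) u|) |e' (φ j) u| (by positivity)
          ((div_le_one hpos).2 h.le) hpos.le
        rw [div_mul_cancel₀ _ hpos.ne', Real.div_rpow ha0.le hpos.le] at h4
        have h5 : 1 / (n : ℝ) ≤ K * (a ^ r / |e' (φ j) u| ^ r) * M |e' (φ j) u| :=
          hcon.le.trans h4
        have h6 : |e' (φ j) u| ^ r ≤ K * n * a ^ r * M |e' (φ j) u| := by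
          rw [div_le_iff₀ hn'] at h5
          have h7 : K * (a ^ r / |e' (φ j) u| ^ r) * M |e' (φ j) u| * n
              = (K * n * a ^ r * M |e' (φ j) u|) / |e' (φ j) u| ^ r := by ring
          rw [h7, le_div_iff₀ hpr, one_mul] at h5
          exact h5
        linarith
    have h4 : ∑ j, M |e' (φ j) u| ≤ 1 := by
      have := hu (Finset.univ.map ⟨φ, hφinj⟩)
      rw [Finset.sum_map] at this
      simpa using this
    calc ∑ j, |e' (φ j) u| ^ r ≤ ∑ j, (a ^ r + K * n * a ^ r * M |e' (φ j) u|) :=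
          Finset.sum_le_sum fun j _ => h3 j
      _ = n * a ^ r + K * n * a ^ r * ∑ j, M |e' (φ j) u| := by
          rw [Finset.sum_add_distrib, Finset.sum_const, Finset.card_univ, Fintype.card_fin,
            nsmul_eq_mul, Finset.mul_sum]
      _ ≤ n * a ^ r + K * n * a ^ r * 1 := by gcongr
      _ = n * (1 + K) * a ^ r := by ring
  have har : 0 < a ^ r := Real.rpow_pos_of_pos ha0 _
  have h2 : ENNReal.ofReal ((s * m / n) ^ n) ≤ ENNReal.ofReal (C ^ n *
      (Real.exp ((1 / ((1 + K) * a ^ r)) * (n * (1 + K) * a ^ r)) *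
        (2 * ((1 / ((1 + K) * a ^ r)) ^ (-1 / r) * G)) ^ n)) := by
    rw [ENNReal.ofReal_mul (by positivity)]
    exact hlow.trans (hvol.trans (by gcongr))
  rw [ENNReal.ofReal_le_ofReal_iff (by positivity)] at h2
  have e1 : (1 / ((1 + K) * a ^ r)) * (n * (1 + K) * a ^ r) = n := by
    field_simp
  have e2 : (1 / ((1 + K) * a ^ r)) ^ (-1 / r) = (1 + K) ^ (1 / r) * a := by
    rw [neg_div, one_div, Real.inv_rpow (by positivity), Real.rpow_neg (by positivity), inv_inv,
      Real.mul_rpow (by positivity) har.le, ← Real.rpow_mul ha0.le, mul_one_div_cancel hr.ne',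
      Real.rpow_one]
  have e3 : C ^ n * (Real.exp ((1 / ((1 + K) * a ^ r)) * (n * (1 + K) * a ^ r)) *
      (2 * ((1 / ((1 + K) * a ^ r)) ^ (-1 / r) * G)) ^ n) = (A * a) ^ n := by
    rw [e1, e2]
    have : Real.exp n = (Real.exp 1) ^ n := by
      rw [← Real.exp_nat_mul, mul_one]
    rw [this, ← mul_pow, ← mul_pow]
    congr 1
    rw [hA]; ring
  rw [e3] at h2
  have h3 : s * m / n ≤ A * a :=
    (pow_le_pow_iff_left₀ (by positivity) (by positivity) hn.ne').1 h2
  have h4 : s * m / n = (A + 1) * a := by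
    rw [ha]; field_simp
  rw [h4] at h3
  linarith

/-- Orlicz sequence spaces which are uniform retracts of Banach spaces: the convex hull of the
modular ball is contained in a multiple of it. -/
theorem orlicz_convexHull [CompleteSpace F] {f : E → F} {g : F → E}
    (hf : UniformContinuous f) (hg : UniformContinuous g) (hgf : ∀ x, g (f x) = x)
    {ι : Type*} [Infinite ι] {M : ℝ → ℝ} {e : ι → E} {e' : ι → E →L[ℝ] ℝ}
    (h1 : ∀ i, e' i (e i) = 1) (h0 : ∀ i j, i ≠ j → e' i (e j) = 0)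
    (hMn : ∀ t, 0 ≤ t → 0 ≤ M t) (hMm : ∀ s t, 0 ≤ s → s ≤ t → M s ≤ M t)
    {K r : ℝ} (hK : 0 < K) (hr : 0 < r)
    (hMr : ∀ a t, 0 ≤ a → a ≤ 1 → 0 ≤ t → M (a * t) ≤ K * a ^ r * M t)
    (hU : modBall M e' ∈ 𝓝 (0 : E)) (hUb : IsVonNBounded ℝ (modBall M e')) :
    ∃ C : ℝ, 0 < C ∧ convexHull ℝ (modBall M e') ⊆ C • modBall M e' := by
  classical
  obtain ⟨C₁, hC₁, hdis⟩ := orlicz_discrete hf hg hgf h1 h0 hMn hMm hK hr hMr hU hUb
  -- the constant
  set μ : ℝ := min 1 ((2 * K) ^ (-(1 / r))) with hμ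
  have hμ0 : 0 < μ := lt_min one_pos (Real.rpow_pos_of_pos (by positivity) _)
  have hμ1 : μ ≤ 1 := min_le_left _ _
  have hμK : K * μ ^ r ≤ 1 / 2 := by
    have h2 : μ ^ r ≤ ((2 * K) ^ (-(1 / r))) ^ r :=
      Real.rpow_le_rpow hμ0.le (min_le_right _ _) hr.le
    rw [← Real.rpow_mul (by positivity), neg_mul, one_div_mul_cancel hr.ne',
      Real.rpow_neg_one] at h2
    calc K * μ ^ r ≤ K * (2 * K)⁻¹ := by gcongr
      _ = 1 / 2 := by field_simp
  set C₂ : ℝ := 2 * C₁ / μ with hC₂
  have hC₂1 : 1 ≤ C₂ := by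
    rw [hC₂, le_div_iff₀ hμ0]; linarith
  have hC₂0 : 0 < C₂ := by linarith
  have hB : ∀ a s, 0 < a → a ≤ 1 → 0 ≤ s → M s ≤ 1 → M (a * s / C₂) ≤ a * M s := by
    intro a s ha ha1 hs hMs
    rcases (hMn s hs).eq_or_lt with h | hpos
    · have h2 : M (a * s / C₂) ≤ M s := by
        refine hMm _ _ (by positivity) ?_
        rw [div_le_iff₀ hC₂0]
        calc a * s ≤ 1 * s := by gcongr
          _ ≤ s * C₂ := by nlinarith
      rw [← h] at h2 ⊢
      linarith
    · set m : ℕ := ⌊1 / M s⌋₊ with hm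
      have h1M : 1 ≤ 1 / M s := by
        rw [le_div_iff₀ hpos]; linarith
      have hm1 : 1 ≤ m := by
        rw [hm]; exact Nat.le_floor (by simpa using h1M)
      have hm' : (1 : ℝ) ≤ m := by exact_mod_cast hm1
      have hmle : (m : ℝ) ≤ 1 / M s := Nat.floor_le (by positivity)
      have hmlt : 1 / M s < m + 1 := Nat.lt_floor_add_one _
      set n : ℕ := ⌈(m : ℝ) / a⌉₊ with hn
      have hnge : (m : ℝ) / a ≤ n := Nat.le_ceil _
      have hma : (m : ℝ) ≤ m / a := by
        rw [le_div_iff₀ ha]; nlinarith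
      have hnlt : (n : ℝ) < m / a + 1 := Nat.ceil_lt_add_one (by positivity)
      have hmn : m ≤ n := by exact_mod_cast hma.trans hnge
      have hn0 : (0 : ℝ) < n := by linarith
      have hMs' : M s ≤ 1 / (m : ℝ) := by
        rw [le_div_iff₀ (by linarith)]
        rw [le_div_iff₀ hpos] at hmle
        linarith
      have h2 := hdis m n s (by omega) hmn hs hMs'
      have h3 : 1 / (n : ℝ) ≤ 2 * a * M s := by
        have h4 : 1 / (n : ℝ) ≤ a / m := by
          rw [div_le_div_iff₀ hn0 (by linarith), one_mul]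
          rw [div_le_iff₀ ha] at hnge
          linarith
        have h5 : 1 / (m : ℝ) ≤ 2 * M s := by
          rw [div_le_iff₀ (by linarith)]
          rw [div_lt_iff₀ hpos] at hmlt
          nlinarith
        calc 1 / (n : ℝ) ≤ a / m := h4
          _ = a * (1 / m) := by ring
          _ ≤ a * (2 * M s) := by gcongr
          _ = 2 * a * M s := by ring
      have h6 : a / 2 ≤ m / n := by
        rw [div_le_div_iff₀ two_pos hn0]
        have : (n : ℝ) < 2 * (m / a) := by
          have : 1 ≤ (m : ℝ) / a := hm'.trans hma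
          linarith
        have h7 : a * (n : ℝ) < a * (2 * (m / a)) := by gcongr
        have h8 : a * (2 * ((m : ℝ) / a)) = m * 2 := by field_simp
        linarith
      have h9 : M (a * s / (2 * C₁)) ≤ M (s * m / (C₁ * n)) := by
        refine hMm _ _ (by positivity) ?_
        calc a * s / (2 * C₁) = (a / 2) * (s / C₁) := by ring
          _ ≤ (m / n) * (s / C₁) := by gcongr
          _ = s * m / (C₁ * n) := by ring
      have h10 := hMr μ (a * s / (2 * C₁)) hμ0.le hμ1 (by positivity)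
      have h11 : μ * (a * s / (2 * C₁)) = a * s / C₂ := by
        rw [hC₂]; field_simp
      rw [h11] at h10
      have h12 : 0 ≤ M (a * s / (2 * C₁)) := hMn _ (by positivity)
      calc M (a * s / C₂) ≤ K * μ ^ r * M (a * s / (2 * C₁)) := h10
        _ ≤ 1 / 2 * M (a * s / (2 * C₁)) := by gcongr
        _ ≤ 1 / 2 * (2 * a * M s) := by
            have := h9.trans (h2.trans h3)
            gcongr
        _ = a * M s := by ring
  refine ⟨2 * C₂, by positivity, ?_⟩
  intro x hx
  rw [mem_convexHull_iff_exists_fintype] at hx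
  obtain ⟨κ, hκ, w, z, hw0, hw1, hz, hxz⟩ := hx
  rw [Set.mem_smul_set_iff_inv_smul_mem₀ (by positivity)]
  intro S
  have hzi : ∀ k i, M |e' i (z k)| ≤ 1 := by
    intro k i
    have := hz k {i}
    simpa using this
  have hkey : ∀ i, M |e' i ((2 * C₂)⁻¹ • x)| ≤ ∑ k, w k * M |e' i (z k)| := by
    intro i
    set t : ℝ := ∑ k, w k * |e' i (z k)| with ht
    have ht0 : 0 ≤ t := Finset.sum_nonneg fun k _ => mul_nonneg (hw0 k) (abs_nonneg _)
    have hxt : |e' i x| ≤ t := by
      rw [← hxz, map_sum]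
      refine (Finset.abs_sum_le_sum_abs _ _).trans (Finset.sum_le_sum fun k _ => ?_)
      rw [map_smul, smul_eq_mul, abs_mul, abs_of_nonneg (hw0 k)]
    have h2 : M |e' i ((2 * C₂)⁻¹ • x)| ≤ M (t / (2 * C₂)) := by
      refine hMm _ _ (abs_nonneg _) ?_
      rw [map_smul, smul_eq_mul, abs_mul, abs_of_pos (by positivity), div_eq_inv_mul]
      gcongr
    refine h2.trans ?_
    rcases ht0.eq_or_lt with h | htpos
    · rw [← h, zero_div]
      have h3 := hMr 0 0 le_rfl zero_le_one le_rfl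
      rw [Real.zero_rpow hr.ne'] at h3
      simp only [mul_zero, zero_mul] at h3
      exact h3.trans (Finset.sum_nonneg fun k _ => mul_nonneg (hw0 k) (hMn _ (abs_nonneg _)))
    · -- split the indices
      have h3 : ∀ k, t * (w k * M |e' i (z k)|) ≥
          2 * (w k * |e' i (z k)| - t / 2 * w k) * M (t / (2 * C₂)) := by
        intro k
        have hMt : 0 ≤ M (t / (2 * C₂)) := hMn _ (by positivity)
        have hMk : 0 ≤ M |e' i (z k)| := hMn _ (abs_nonneg _)
        rcases le_or_gt (t / 2) |e' i (z k)| with h | h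
        · have hpos : 0 < |e' i (z k)| := by linarith
          have h4 := hB (t / 2 / |e' i (z k)|) |e' i (z k)| (by positivity)
            ((div_le_one hpos).2 h) hpos.le (hzi k i)
          rw [div_mul_cancel₀ _ hpos.ne'] at h4
          have h5 : t / 2 / C₂ = t / (2 * C₂) := by ring
          rw [h5] at h4
          have h6 : |e' i (z k)| * M (t / (2 * C₂)) ≤ t / 2 * M |e' i (z k)| := by
            calc |e' i (z k)| * M (t / (2 * C₂))
                ≤ |e' i (z k)| * (t / 2 / |e' i (z k)| * M |e' i (z k)|) := by gcongr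
              _ = t / 2 * M |e' i (z k)| := by field_simp
          have h7 : 2 * w k * (|e' i (z k)| * M (t / (2 * C₂)))
              ≤ 2 * w k * (t / 2 * M |e' i (z k)|) := by
            have := hw0 k
            gcongr
          have h8 : 0 ≤ 2 * (t / 2 * w k) * M (t / (2 * C₂)) := by
            have := hw0 k
            positivity
          nlinarith
        · have h4 : w k * |e' i (z k)| - t / 2 * w k ≤ 0 := by
            have := mul_le_mul_of_nonneg_left h.le (hw0 k)
            linarith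
          have h5 : 2 * (w k * |e' i (z k)| - t / 2 * w k) * M (t / (2 * C₂)) ≤ 0 :=
            mul_nonpos_of_nonpos_of_nonneg (by linarith) hMt
          have h6 : 0 ≤ t * (w k * M |e' i (z k)|) := by
            have := hw0 k
            positivity
          linarith
      have h4 : ∑ k, 2 * (w k * |e' i (z k)| - t / 2 * w k) * M (t / (2 * C₂))
          ≤ ∑ k, t * (w k * M |e' i (z k)|) := Finset.sum_le_sum fun k _ => h3 k
      have h5 : ∑ k, 2 * (w k * |e' i (z k)| - t / 2 * w k) * M (t / (2 * C₂))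
          = t * M (t / (2 * C₂)) := by
        rw [← Finset.sum_mul, ← Finset.mul_sum, Finset.sum_sub_distrib, ← Finset.mul_sum, hw1,
          ← ht]
        ring
      rw [h5, ← Finset.mul_sum] at h4
      exact le_of_mul_le_mul_left h4 htpos
  calc ∑ i ∈ S, M |e' i ((2 * C₂)⁻¹ • x)| ≤ ∑ i ∈ S, ∑ k, w k * M |e' i (z k)| :=
        Finset.sum_le_sum fun i _ => hkey i
    _ = ∑ k, w k * ∑ i ∈ S, M |e' i (z k)| := by
        rw [Finset.sum_comm]
        refine Finset.sum_congr rfl fun k _ => ?_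
        rw [Finset.mul_sum]
    _ ≤ ∑ k, w k * 1 := by
        refine Finset.sum_le_sum fun k _ => ?_
        have := hw0 k
        have h2 := hz k S
        gcongr
    _ = 1 := by rw [← Finset.sum_mul, hw1, one_mul]

/-- Non-locally convex Orlicz sequence spaces are not uniform retracts of Banach spaces. -/
theorem orlicz_locallyConvex [CompleteSpace F] {f : E → F} {g : F → E}
    (hf : UniformContinuous f) (hg : UniformContinuous g) (hgf : ∀ x, g (f x) = x)
    {ι : Type*} [Infinite ι] {M : ℝ → ℝ} {e : ι → E} {e' : ι → E →L[ℝ] ℝ}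
    (h1 : ∀ i, e' i (e i) = 1) (h0 : ∀ i j, i ≠ j → e' i (e j) = 0)
    (hMn : ∀ t, 0 ≤ t → 0 ≤ M t) (hMm : ∀ s t, 0 ≤ s → s ≤ t → M s ≤ M t)
    {K r : ℝ} (hK : 0 < K) (hr : 0 < r)
    (hMr : ∀ a t, 0 ≤ a → a ≤ 1 → 0 ≤ t → M (a * t) ≤ K * a ^ r * M t)
    (hU : modBall M e' ∈ 𝓝 (0 : E)) (hUb : IsVonNBounded ℝ (modBall M e')) :
    LocallyConvexSpace ℝ E := by
  obtain ⟨C, hC0, hC⟩ := orlicz_convexHull hf hg hgf h1 h0 hMn hMm hK hr hMr hU hUb
  refine LocallyConvexSpace.ofBasisZero ℝ E (fun ε : ℝ => ε • convexHull ℝ (modBall M e'))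
    (fun ε => 0 < ε) ?_ fun ε _ => (convex_convexHull ℝ _).smul ε
  refine ⟨fun V => ⟨fun hV => ?_, ?_⟩⟩
  · obtain ⟨ρ, hρ0, hρ⟩ := (hUb hV).exists_pos
    have h2 := hρ ρ (by rw [Real.norm_of_nonneg hρ0.le])
    refine ⟨ρ⁻¹ * C⁻¹, by positivity, ?_⟩
    rintro - ⟨x, hx, rfl⟩
    obtain ⟨y, hy, hxy⟩ := hC hx
    obtain ⟨z, hz, hyz⟩ := h2 hy
    simp only at hxy hyz ⊢
    rw [← hxy, ← hyz, smul_smul, smul_smul]
    have : ρ⁻¹ * C⁻¹ * C * ρ = 1 := by field_simp
    rw [this, one_smul]
    exact hz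
  · rintro ⟨ε, hε, hεV⟩
    refine Filter.mem_of_superset ?_ hεV
    refine Filter.mem_of_superset ((set_smul_mem_nhds_zero_iff hε.ne').2 hU) ?_
    exact smul_set_mono (subset_convexHull ℝ _)

end Pool.Agent.Helper4_UH
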